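import Mathlib

set_option autoImplicit false

open MeasureTheory Filter Topology Set

noncomputable section

namespace Pool.Agent.MP_fc94d9_co

/-- Foelner sets in commutative monoids, by polynomial growth. -/
lemma exists_foelner {H : Type*} [AddCommMonoid H] [DecidableEq H] (P : Finset H)
    (hP : ∀ s ∈ P, Function.Injective (fun x : H => x + s)) {ε : ℝ} (hε : 0 < ε) :
    ∃ F : Finset H, F.Nonempty ∧
      ∀ s ∈ P, ((F.filter (fun x => x + s ∉ F)).card : ℝ) ≤ ε * F.card := by
  classical
  let B : ℕ → Finset H := fun n =>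
    (Fintype.piFinset (fun _ : P => Finset.range (n + 1))).image
      (fun j : P → ℕ => ∑ s : P, j s • (s : H))
  have hBne : ∀ n, (B n).Nonempty := by
    intro n
    refine ⟨_, Finset.mem_image.2 ⟨fun _ => 0, ?_, rfl⟩⟩
    simp
  have hcard : ∀ n, (B n).card ≤ (n + 1) ^ P.card := by
    intro n
    refine Finset.card_image_le.trans ?_
    simp
  have hsub : ∀ n, B n ⊆ B (n + 1) := by
    intro n
    apply Finset.image_subset_image
    intro j hj
    simp only [Fintype.mem_piFinset, Finset.mem_range] at hj ⊢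
    intro s; have := hj s; omega
  have hadd : ∀ n, ∀ s ∈ P, ∀ x ∈ B n, x + s ∈ B (n + 1) := by
    intro n s hs x hx
    obtain ⟨j, hj, rfl⟩ := Finset.mem_image.1 hx
    refine Finset.mem_image.2 ⟨j + Pi.single ⟨s, hs⟩ 1, ?_, ?_⟩
    · simp only [Fintype.mem_piFinset, Finset.mem_range] at hj ⊢
      intro t
      have := hj t
      by_cases h : t = ⟨s, hs⟩
      · subst h; simp; omega
      · simp [Pi.single_eq_of_ne h]; omega
    · simp only [Pi.add_apply, add_smul, Finset.sum_add_distrib]
      congr 1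
      rw [Finset.sum_eq_single ⟨s, hs⟩]
      · simp
      · intro t _ ht; simp [Pi.single_eq_of_ne ht]
      · simp
  have hex : ∃ n, ((B (n + 1)).card : ℝ) ≤ (1 + ε) * (B n).card := by
    by_contra hcon
    push Not at hcon
    have hgrow : ∀ n, (1 + ε) ^ n ≤ ((B n).card : ℝ) := by
      intro n
      induction n with
      | zero =>
        have := (hBne 0).card_pos
        simp only [pow_zero]; exact_mod_cast this
      | succ n ih =>
        have := hcon n
        rw [pow_succ]; nlinarith
    have hlim := tendsto_pow_const_div_const_pow_of_one_lt P.card (r := 1 + ε) (by linarith)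
    have hlim2 := (hlim.comp (tendsto_add_atTop_nat 1)).eventually
      (gt_mem_nhds (show (0 : ℝ) < 1 / (1 + ε) by positivity))
    obtain ⟨n, hn⟩ := hlim2.exists
    simp only [Function.comp] at hn
    have h1 := hgrow n
    have h2 : ((B n).card : ℝ) ≤ ((n + 1 : ℕ) : ℝ) ^ P.card := by exact_mod_cast hcard n
    have h3 : (0 : ℝ) < (1 + ε) ^ n := by positivity
    rw [div_lt_div_iff₀ (by positivity) (by positivity), pow_succ] at hn
    nlinarith
  obtain ⟨n, hn⟩ := hex
  refine ⟨B n, hBne n, fun s hs => ?_⟩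
  have h1 : ((B n).filter (fun x => x + s ∉ B n)).card ≤ (B (n + 1) \ B n).card := by
    apply Finset.card_le_card_of_injOn (fun x => x + s)
    · intro x hx
      simp only [Finset.coe_filter, mem_ofPred_eq] at hx
      simp only [Finset.coe_sdiff, Set.mem_sdiff, Finset.mem_coe]
      exact ⟨hadd n s hs x hx.1, hx.2⟩
    · exact (hP s hs).injOn
  rw [Finset.card_sdiff_of_subset (hsub n)] at h1
  have h2 := Finset.card_le_card (hsub n)
  have h3 : (((B n).filter (fun x => x + s ∉ B n)).card : ℝ) ≤ (B (n + 1)).card - (B n).card := by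
    rw [← Nat.cast_sub h2]; exact_mod_cast h1
  linarith

/-- Comparison of a sum over a Foelner set with its translate. -/
lemma abs_sum_translate_sub_le {H : Type*} [AddCommMonoid H] [DecidableEq H] (F : Finset H)
    {s : H} (hs : Function.Injective (fun x : H => x + s)) (Φ : H → ℝ) {C : ℝ}
    (hC : ∀ x, |Φ x| ≤ C) :
    |∑ x ∈ F, Φ (x + s) - ∑ x ∈ F, Φ x| ≤ 2 * C * (F.filter (fun x => x + s ∉ F)).card := by
  classical
  set F' := F.image (fun x => x + s) with hF'
  have h1 : ∑ x ∈ F, Φ (x + s) = ∑ y ∈ F', Φ y := by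
    rw [hF', Finset.sum_image (fun x _ y _ h => hs h)]
  have hc : F'.card = F.card := Finset.card_image_of_injective _ hs
  have h2 : (F' \ F).card = (F.filter (fun x => x + s ∉ F)).card := by
    have : F' \ F = (F.filter (fun x => x + s ∉ F)).image (fun x => x + s) := by
      ext y
      simp only [hF', Finset.mem_sdiff, Finset.mem_image, Finset.mem_filter]
      constructor
      · rintro ⟨⟨x, hx, rfl⟩, hy⟩; exact ⟨x, ⟨hx, hy⟩, rfl⟩
      · rintro ⟨x, ⟨hx, hy⟩, rfl⟩; exact ⟨⟨x, hx, rfl⟩, hy⟩
    rw [this, Finset.card_image_of_injective _ hs]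
  have h3 : (F \ F').card = (F' \ F).card := Finset.card_sdiff_comm hc.symm
  rw [h1, ← Finset.sum_sdiff_sub_sum_sdiff]
  have b1 : |∑ y ∈ F' \ F, Φ y| ≤ C * (F' \ F).card := by
    refine (Finset.abs_sum_le_sum_abs _ _).trans ?_
    refine (Finset.sum_le_card_nsmul _ _ C (fun x _ => hC x)).trans ?_
    simp [mul_comm]
  have b2 : |∑ y ∈ F \ F', Φ y| ≤ C * (F \ F').card := by
    refine (Finset.abs_sum_le_sum_abs _ _).trans ?_
    refine (Finset.sum_le_card_nsmul _ _ C (fun x _ => hC x)).trans ?_
    simp [mul_comm]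
  rw [h3] at b2
  rw [← h2]
  calc _ ≤ |∑ y ∈ F' \ F, Φ y| + |∑ y ∈ F \ F', Φ y| := abs_sub _ _
    _ ≤ _ := by linarith

section Maximal

variable {Ω : Type*} [MeasurableSpace Ω]

/-- Garsia's maximal function. -/
def gmax (f : Ω → Ω) (g : Ω → ℝ) : ℕ → Ω → ℝ
  | 0 => fun _ => 0
  | (n + 1) => fun x => max 0 (g x + gmax f g n (f x))

omit [MeasurableSpace Ω] in
lemma gmax_nonneg (f : Ω → Ω) (g : Ω → ℝ) (n : ℕ) (x : Ω) : 0 ≤ gmax f g n x := by
  cases n with
  | zero => exact le_rfl
  | succ n => exact le_max_left _ _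

omit [MeasurableSpace Ω] in
lemma gmax_mono (f : Ω → Ω) (g : Ω → ℝ) (n : ℕ) (x : Ω) :
    gmax f g n x ≤ gmax f g (n + 1) x := by
  induction n generalizing x with
  | zero => exact gmax_nonneg f g 1 x
  | succ n ih => exact max_le_max le_rfl (by linarith [ih (f x)])

omit [MeasurableSpace Ω] in
lemma sum_le_gmax (f : Ω → Ω) (g : Ω → ℝ) (n : ℕ) (x : Ω) :
    ∑ i ∈ Finset.range n, g (f^[i] x) ≤ gmax f g n x := by
  induction n generalizing x with
  | zero => simp [gmax]
  | succ n ih =>
    rw [Finset.sum_range_succ']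
    simp only [Function.iterate_succ_apply, Function.iterate_zero_apply]
    have := ih (f x)
    exact le_max_of_le_right (by linarith)

omit [MeasurableSpace Ω] in
lemma gmax_le (f : Ω → Ω) (g : Ω → ℝ) (hg : ∀ x, g x ≤ 1) (n : ℕ) (x : Ω) :
    gmax f g n x ≤ n := by
  induction n generalizing x with
  | zero => simp [gmax]
  | succ n ih =>
    refine max_le (by positivity) ?_
    have := ih (f x); have := hg x
    push_cast; linarith

lemma measurable_gmax {f : Ω → Ω} {g : Ω → ℝ} (hf : Measurable f) (hg : Measurable g) (n : ℕ) :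
    Measurable (gmax f g n) := by
  induction n with
  | zero => exact measurable_const
  | succ n ih => exact measurable_const.max (hg.add (ih.comp hf))

open Classical in
/-- The maximal ergodic inequality for an indicator function. -/
lemma maximal_ineq {ν : Measure Ω} [IsFiniteMeasure ν] {f : Ω → Ω}
    (hf : MeasurePreserving f ν ν) {B : Set Ω} (hB : MeasurableSet B) {δ : ℝ} (hδ : 0 < δ) :
    ν.real {x | ∃ n : ℕ, δ * n < ((Finset.range n).filter (fun i => f^[i] x ∈ B)).card} ≤
      ν.real B / δ := by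
  set g : Ω → ℝ := fun x => B.indicator 1 x - δ with hg
  have hgm : Measurable g := (measurable_const.indicator hB).sub measurable_const
  have hg1 : ∀ x, g x ≤ 1 := by
    intro x; simp only [hg]
    by_cases hx : x ∈ B <;> simp [hx] <;> linarith
  let A : ℕ → Set Ω := fun n => {x | 0 < gmax f g n x}
  have hAm : ∀ n, MeasurableSet (A n) := fun n =>
    measurableSet_lt measurable_const (measurable_gmax hf.measurable hgm n)
  have hAmono : Monotone A := monotone_nat_of_le_succ fun n x hx =>
    lt_of_lt_of_le hx (gmax_mono f g n x)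
  have hint : ∀ n, Integrable (gmax f g n) ν := fun n =>
    Integrable.of_bound (measurable_gmax hf.measurable hgm n).aestronglyMeasurable n
      (Eventually.of_forall fun x => by
        rw [Real.norm_eq_abs, abs_of_nonneg (gmax_nonneg f g n x)]; exact gmax_le f g hg1 n x)
  have key : ∀ n, δ * ν.real (A (n + 1)) ≤ ν.real B := by
    intro n
    have hpt : ∀ x, gmax f g (n + 1) x - gmax f g (n + 1) (f x) ≤
        B.indicator 1 x - (A (n + 1)).indicator (fun _ => δ) x := by
      intro x
      have h0 := gmax_nonneg f g (n + 1) (f x)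
      have h1 := gmax_mono f g n (f x)
      by_cases hx : x ∈ A (n + 1)
      · have hx' : 0 < max 0 (g x + gmax f g n (f x)) := hx
        have : gmax f g (n + 1) x = g x + gmax f g n (f x) := by
          apply max_eq_right
          rcases lt_max_iff.1 hx' with h | h
          · exact absurd h (lt_irrefl _)
          · exact h.le
        rw [this, indicator_of_mem hx]
        simp only [hg]; linarith
      · have hx' : gmax f g (n + 1) x ≤ 0 := not_lt.1 hx
        rw [indicator_of_notMem hx]
        have : (0 : ℝ) ≤ B.indicator 1 x := indicator_nonneg (fun _ _ => zero_le_one) x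
        linarith
    have hcomp : Integrable (fun x => gmax f g (n + 1) (f x)) ν :=
      hf.integrable_comp_of_integrable (hint (n + 1))
    have e1 : ∫ x, gmax f g (n + 1) (f x) ∂ν = ∫ x, gmax f g (n + 1) x ∂ν := by
      have := integral_map (μ := ν) (φ := f) hf.measurable.aemeasurable
        (f := gmax f g (n + 1)) (measurable_gmax hf.measurable hgm _).aestronglyMeasurable
      rw [hf.map_eq] at this
      exact this.symm
    have i1 : Integrable (B.indicator (1 : Ω → ℝ)) ν := (integrable_const 1).indicator hB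
    have i2 : Integrable ((A (n + 1)).indicator (fun _ => δ)) ν :=
      (integrable_const δ).indicator (hAm _)
    have := integral_mono ((hint (n + 1)).sub hcomp) (i1.sub i2) hpt
    rw [integral_sub' (hint _) hcomp, integral_sub' i1 i2, e1, sub_self,
      integral_indicator_one hB, integral_indicator_const _ (hAm _)] at this
    simp only [smul_eq_mul] at this
    linarith
  have hsub : {x | ∃ n : ℕ, δ * n < ((Finset.range n).filter (fun i => f^[i] x ∈ B)).card} ⊆
      ⋃ n, A (n + 1) := by
    rintro x ⟨n, hn⟩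
    refine mem_iUnion.2 ⟨n, hAmono (Nat.le_succ n) ?_⟩
    refine lt_of_lt_of_le ?_ (sum_le_gmax f g n x)
    simp only [hg, Finset.sum_sub_distrib, Finset.sum_const, Finset.card_range, nsmul_eq_mul]
    have : ∑ i ∈ Finset.range n, B.indicator (1 : Ω → ℝ) (f^[i] x) =
        ((Finset.range n).filter (fun i => f^[i] x ∈ B)).card := by
      rw [Finset.card_filter]; push_cast
      refine Finset.sum_congr rfl fun i _ => ?_
      by_cases h : f^[i] x ∈ B <;> simp [h]
    rw [this]; linarith
  refine (measureReal_mono hsub).trans ?_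
  have hlim : Tendsto (fun n => ν (A (n + 1))) atTop (𝓝 (ν (⋃ n, A (n + 1)))) :=
    tendsto_measure_iUnion_atTop (fun a b hab => hAmono (Nat.succ_le_succ hab))
  have hlim2 : Tendsto (fun n => ν.real (A (n + 1))) atTop (𝓝 (ν.real (⋃ n, A (n + 1)))) :=
    (ENNReal.tendsto_toReal (measure_ne_top _ _)).comp hlim
  refine le_of_tendsto' hlim2 fun n => ?_
  rw [le_div_iff₀ hδ, mul_comm]; exact key n

end Maximal

/-- Counting the branches of a tree along which most steps have few continuations. -/
lemma count_branches {Ω Λ : Type*} [DecidableEq Λ] (Z : Set Ω) (κ : ℕ → Ω → Λ)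
    (bad : ℕ → Ω → Prop) [∀ n x, Decidable (bad n x)] (l P : ℕ)
    (hl : 1 ≤ l) (hP : 1 ≤ P)
    (h0 : ∀ x ∈ Z, ∀ y ∈ Z, κ 0 x = κ 0 y)
    (hall : ∀ n, ∀ s : Finset Ω, (∀ x ∈ s, x ∈ Z) → (∀ x ∈ s, ∀ y ∈ s, κ n x = κ n y) →
      (s.image (κ (n + 1))).card ≤ P)
    (hgood : ∀ n, ∀ s : Finset Ω, (∀ x ∈ s, x ∈ Z) → (∀ x ∈ s, ¬ bad n x) →
      (∀ x ∈ s, ∀ y ∈ s, κ n x = κ n y) → (s.image (κ (n + 1))).card ≤ l)
    (n : ℕ) : ∀ (b : ℕ) (s : Finset Ω), (∀ x ∈ s, x ∈ Z) →
      (∀ x ∈ s, ((Finset.range n).filter (fun i => bad i x)).card ≤ b) →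
      (s.image (κ n)).card ≤ (2 * l) ^ n * P ^ b := by
  classical
  have fib : ∀ (n c : ℕ) (s : Finset Ω),
      (∀ t ⊆ s, (∀ x ∈ t, ∀ y ∈ t, κ n x = κ n y) → (t.image (κ (n + 1))).card ≤ c) →
      (s.image (κ (n + 1))).card ≤ c * (s.image (κ n)).card := by
    intro n c s h
    have : s.image (κ (n + 1)) =
        (s.image (κ n)).biUnion (fun a => (s.filter (fun x => κ n x = a)).image (κ (n + 1))) := by
      ext y
      simp only [Finset.mem_image, Finset.mem_biUnion, Finset.mem_filter]
      constructor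
      · rintro ⟨x, hx, rfl⟩; exact ⟨_, ⟨x, hx, rfl⟩, x, ⟨hx, rfl⟩, rfl⟩
      · rintro ⟨_, _, x, ⟨hx, _⟩, rfl⟩; exact ⟨x, hx, rfl⟩
    rw [this, mul_comm]
    apply Finset.card_biUnion_le_card_mul
    intro a _
    apply h _ (Finset.filter_subset _ _)
    intro x hx y hy
    rw [(Finset.mem_filter.1 hx).2, (Finset.mem_filter.1 hy).2]
  induction n with
  | zero =>
    intro b s hs _
    have : (s.image (κ 0)).card ≤ 1 := by
      rw [Finset.card_le_one]
      intro a ha b hb
      obtain ⟨x, hx, rfl⟩ := Finset.mem_image.1 ha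
      obtain ⟨y, hy, rfl⟩ := Finset.mem_image.1 hb
      exact h0 x (hs x hx) y (hs y hy)
    exact this.trans (by simpa using Nat.one_le_pow _ _ hP)
  | succ n ih =>
    intro b s hs hb
    set sg := s.filter (fun x => ¬ bad n x) with hsg
    set sb := s.filter (fun x => bad n x) with hsb
    have hU : s.image (κ (n + 1)) = sg.image (κ (n + 1)) ∪ sb.image (κ (n + 1)) := by
      rw [← Finset.image_union, hsg, hsb, Finset.union_comm, Finset.filter_union_filter_not_eq]
    have hcnt : ∀ x, ((Finset.range (n + 1)).filter (fun i => bad i x)).card =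
        ((Finset.range n).filter (fun i => bad i x)).card + if bad n x then 1 else 0 := by
      intro x
      rw [Finset.card_filter, Finset.card_filter, Finset.sum_range_succ]
    have g1 : (sg.image (κ (n + 1))).card ≤ l * ((2 * l) ^ n * P ^ b) := by
      refine (fib n l sg ?_).trans (Nat.mul_le_mul_left _ ?_)
      · intro t ht h
        exact hgood n t (fun x hx => hs x (Finset.mem_filter.1 (ht hx)).1)
          (fun x hx => (Finset.mem_filter.1 (ht hx)).2) h
      · apply ih b sg (fun x hx => hs x (Finset.mem_filter.1 hx).1)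
        intro x hx
        have := hb x (Finset.mem_filter.1 hx).1
        rw [hcnt] at this; omega
    have g2 : (sb.image (κ (n + 1))).card ≤ (2 * l) ^ n * P ^ b := by
      rcases sb.eq_empty_or_nonempty with h | ⟨x0, hx0⟩
      · simp [h]
      have hb1 : 1 ≤ b := by
        have := hb x0 (Finset.mem_filter.1 hx0).1
        rw [hcnt, if_pos (Finset.mem_filter.1 hx0).2] at this; omega
      obtain ⟨b', rfl⟩ : ∃ b', b = b' + 1 := ⟨b - 1, by omega⟩
      refine (fib n P sb ?_).trans ?_
      · intro t ht h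
        exact hall n t (fun x hx => hs x (Finset.mem_filter.1 (ht hx)).1) h
      · have : (sb.image (κ n)).card ≤ (2 * l) ^ n * P ^ b' := by
          apply ih b' sb (fun x hx => hs x (Finset.mem_filter.1 hx).1)
          intro x hx
          have := hb x (Finset.mem_filter.1 hx).1
          rw [hcnt, if_pos (Finset.mem_filter.1 hx).2] at this; omega
        calc _ ≤ P * ((2 * l) ^ n * P ^ b') := Nat.mul_le_mul_left _ this
          _ = _ := by ring
    rw [hU]
    refine (Finset.card_union_le _ _).trans ?_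
    have : (2 * l) ^ n * P ^ b ≤ l * ((2 * l) ^ n * P ^ b) := Nat.le_mul_of_pos_left _ hl
    calc _ ≤ l * ((2 * l) ^ n * P ^ b) + l * ((2 * l) ^ n * P ^ b) := by omega
      _ = _ := by ring

/-- A set on which a labelling takes boundedly many values is covered by that many fibres. -/
lemma exists_cover {Ω Λ : Type*} [DecidableEq Λ] (A : Set Ω) (κ : Ω → Λ) (N : ℕ)
    (h : ∀ s : Finset Ω, (∀ x ∈ s, x ∈ A) → (s.image κ).card ≤ N) :
    ∃ s : Finset Ω, (∀ x ∈ s, x ∈ A) ∧ s.card ≤ N ∧ ∀ y ∈ A, ∃ x ∈ s, κ y = κ x := by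
  classical
  have hfin : ∀ t : Finset Λ, (t : Set Λ) ⊆ κ '' A → t.card ≤ N := by
    intro t ht
    obtain ⟨s, hs, rfl⟩ := Finset.subset_set_image_iff.1 ht
    exact h s hs
  have hF : (κ '' A).Finite := by
    by_contra hinf
    obtain ⟨t, ht, hc⟩ := Set.Infinite.exists_subset_card_eq hinf (N + 1)
    have := hfin t ht; omega
  have hc := hfin hF.toFinset (by simp)
  have hch : ∀ a : hF.toFinset, ∃ x ∈ A, κ x = a := fun a => by
    have := a.2; rwa [Set.Finite.mem_toFinset] at this
  choose σ hσA hσ using hch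
  refine ⟨Finset.univ.image σ, ?_, ?_, ?_⟩
  · intro x hx
    obtain ⟨a, _, rfl⟩ := Finset.mem_image.1 hx
    exact hσA a
  · refine Finset.card_image_le.trans ?_
    simpa using hc
  · intro y hy
    refine ⟨σ ⟨κ y, by simpa using ⟨y, hy, rfl⟩⟩, Finset.mem_image_of_mem _ (Finset.mem_univ _), ?_⟩
    rw [hσ]

end Pool.Agent.MP_fc94d9_co
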