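import Pool.Agent.MP_fc94d9_co.Basic

set_option autoImplicit false

open MeasureTheory Filter Topology Set

noncomputable section

namespace Pool.Agent.MP_fc94d9_co

lemma exists_rotation (M : ℕ) (hM : 1 ≤ M) :
    ∃ w : G, ‖io w‖ = 1 ∧ (M : G) * w ^ 2 - w + M = 0 := by
  have hM' : (1 : ℝ) ≤ M := by exact_mod_cast hM
  set r := Real.sqrt (4 * (M : ℝ) ^ 2 - 1) with hr
  have hr2 : r ^ 2 = 4 * (M : ℝ) ^ 2 - 1 := Real.sq_sqrt (by nlinarith)
  set x : ℂ := ⟨1 / (2 * M), r / (2 * M)⟩ with hx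
  have hM0 : (M : ℝ) ≠ 0 := by linarith
  have heq : (M : ℂ) * x ^ 2 - x + M = 0 := by
    apply Complex.ext
    · simp [hx, sq]; field_simp; nlinarith
    · simp [hx, sq]; field_simp; ring
  have halg : IsAlgebraic ℚ x := by
    refine ⟨Polynomial.C (M : ℚ) * Polynomial.X ^ 2 - Polynomial.X + Polynomial.C (M : ℚ), ?_, ?_⟩
    · intro h
      have := congrArg (fun p => Polynomial.coeff p 1) h
      simp at this
    · simpa using heq
  obtain ⟨w, hw⟩ := exists_io_eq halg
  refine ⟨w, ?_, io_inj ?_⟩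
  · rw [hw]
    have : ‖x‖ ^ 2 = 1 := by
      rw [← Complex.normSq_eq_norm_sq, Complex.normSq_apply]
      simp only [hx]; field_simp; nlinarith
    nlinarith [norm_nonneg x]
  · simpa [hw] using heq

lemma pow_relation {M : ℕ} {u : G} (hu : (M : G) * u ^ 2 - u + M = 0) (n : ℕ) :
    ∃ a b : ℤ, (M : G) ^ n * u ^ (n + 1) = (1 + M * a) * u + M * b := by
  induction n with
  | zero => exact ⟨0, 0, by simp⟩
  | succ n ih =>
    obtain ⟨a, b, h⟩ := ih
    refine ⟨a + M * b, -(1 + M * a), ?_⟩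
    push_cast
    linear_combination (M * u) * h + (1 + M * a) * hu

lemma three_relation {M : ℕ} (hM : 1 ≤ M) {w : G} (hw : (M : G) * w ^ 2 - w + M = 0) (θ : X)
    (z : G) {i j k : ℕ} (hij : i < j) (hjk : j < k) (hi : M • θ (w ^ i * z) = 0)
    (hj : M • θ (w ^ j * z) = 0) (hk : M • θ (w ^ k * z) = 0) : θ (w ^ j * z) = 0 := by
  have hM0 : (M : G) ≠ 0 := by exact_mod_cast (by omega : M ≠ 0)
  have hw0 : w ≠ 0 := by rintro rfl; simp [hM0] at hw
  have hw' : (M : G) * w⁻¹ ^ 2 - w⁻¹ + M = 0 := by field_simp; linear_combination hw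
  obtain ⟨s, rfl⟩ := Nat.exists_eq_add_of_lt hij
  obtain ⟨t, rfl⟩ := Nat.exists_eq_add_of_lt hjk
  obtain ⟨a, b, h1⟩ := pow_relation hw t
  obtain ⟨a', b', h2⟩ := pow_relation hw' s
  have h3 : (M : G) * (w + w⁻¹) = 1 := by field_simp; linear_combination hw
  have h4 : w ^ i = w ^ (i + s + 1) * w⁻¹ ^ (s + 1) := by
    rw [inv_pow, add_assoc, pow_add, mul_assoc, mul_inv_cancel₀ (pow_ne_zero _ hw0), mul_one]
  have h5 : w ^ (i + s + 1 + t + 1) = w ^ (i + s + 1) * w ^ (t + 1) := by ring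
  have key : w ^ (i + s + 1) * z =
      ((1 + M * a') * M ^ t : ℤ) • (M • (w ^ (i + s + 1 + t + 1) * z)) +
      ((1 + M * a) * M ^ s : ℤ) • (M • (w ^ i * z)) -
      (a + a' + M * a * a' + M * (b * (1 + M * a') + b' * (1 + M * a)) : ℤ) •
        (M • (w ^ (i + s + 1) * z)) := by
    rw [h5]
    conv_rhs => rw [h4]
    simp only [zsmul_eq_mul, nsmul_eq_mul]
    push_cast
    have h4' : w ^ (i + s + 1) * w⁻¹ ^ (s + 1) * w ^ (s + 1) = w ^ (i + s + 1) := by
      rw [mul_assoc, ← mul_pow, inv_mul_cancel₀ hw0, one_pow, mul_one]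
    generalize w ^ (i + s + 1) = y at *
    linear_combination (-(y * z * M * (1 + M * a'))) * h1 - (y * z * M * (1 + M * a)) * h2 -
      (y * z * (1 + M * a) * (1 + M * a')) * h3
  rw [key, map_sub, map_add, map_zsmul, map_zsmul, map_zsmul, map_nsmul, map_nsmul, map_nsmul,
    hi, hj, hk]
  simp

/-- Invariance under all rotations in `G`. -/
def UInv (ν : Measure X) : Prop := ∀ u : G, ‖io u‖ = 1 → MeasurePreserving (S u) ν ν

lemma UInv.tInv {ν : Measure X} (h : UInv ν) : TInv ν := fun _ ha => h _ (norm_io_rot ha)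

lemma atom_lemma (ν : Measure X) [IsFiniteMeasure ν] (hU : UInv ν) (M : ℕ) (hM : 1 ≤ M) (z : G) :
    ν {θ | M • θ z = 0 ∧ θ z ≠ 0} = 0 := by
  classical
  obtain ⟨w, hw1, hw⟩ := exists_rotation M hM
  set A := {θ : X | M • θ z = 0 ∧ θ z ≠ 0} with hA
  have hAm : MeasurableSet A :=
    (((measurable_eval z).const_smul M) (measurableSet_singleton 0)).inter
      ((measurable_eval z) (measurableSet_singleton 0)).compl
  have hb : ∀ H : ℕ, H * ν.real A ≤ 2 * ν.real univ := by
    intro H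
    have h1 : ∀ θ : X, ∑ j ∈ Finset.range H, (S (w ^ j) ⁻¹' A).indicator (1 : X → ℝ) θ ≤ 2 := by
      intro θ
      have e : ∑ j ∈ Finset.range H, (S (w ^ j) ⁻¹' A).indicator (1 : X → ℝ) θ =
          ((Finset.range H).filter (fun j => θ ∈ S (w ^ j) ⁻¹' A)).card := by
        rw [Finset.card_filter]; push_cast
        refine Finset.sum_congr rfl fun j _ => ?_
        by_cases h : θ ∈ S (w ^ j) ⁻¹' A
        · rw [indicator_of_mem h, if_pos h]; rfl
        · rw [indicator_of_notMem h, if_neg h]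
      rw [e]
      have : ((Finset.range H).filter (fun j => θ ∈ S (w ^ j) ⁻¹' A)).card ≤ 2 := by
        by_contra hlt
        obtain ⟨a, ha, b, hb, c, hc, h1, h2, h3⟩ := Finset.two_lt_card.1 (not_le.1 hlt)
        have ha' : M • θ (w ^ a * z) = 0 ∧ θ (w ^ a * z) ≠ 0 := (Finset.mem_filter.1 ha).2
        have hb' : M • θ (w ^ b * z) = 0 ∧ θ (w ^ b * z) ≠ 0 := (Finset.mem_filter.1 hb).2
        have hc' : M • θ (w ^ c * z) = 0 ∧ θ (w ^ c * z) ≠ 0 := (Finset.mem_filter.1 hc).2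
        rcases lt_or_gt_of_ne h1 with p1 | p1 <;> rcases lt_or_gt_of_ne h2 with p2 | p2 <;>
          rcases lt_or_gt_of_ne h3 with p3 | p3
        · exact hb'.2 (three_relation hM hw θ z p1 p3 ha'.1 hb'.1 hc'.1)
        · exact hc'.2 (three_relation hM hw θ z p2 p3 ha'.1 hc'.1 hb'.1)
        · omega
        · exact ha'.2 (three_relation hM hw θ z p2 p1 hc'.1 ha'.1 hb'.1)
        · exact ha'.2 (three_relation hM hw θ z p1 p2 hb'.1 ha'.1 hc'.1)
        · omega
        · exact hc'.2 (three_relation hM hw θ z p3 p2 hb'.1 hc'.1 ha'.1)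
        · exact hb'.2 (three_relation hM hw θ z p3 p1 hc'.1 hb'.1 ha'.1)
      exact_mod_cast this
    have hm : ∀ j, MeasurableSet (S (w ^ j) ⁻¹' A) := fun j => measurable_S _ hAm
    have hi : ∀ j ∈ Finset.range H, Integrable ((S (w ^ j) ⁻¹' A).indicator (1 : X → ℝ)) ν :=
      fun j _ => (integrable_const 1).indicator (hm j)
    have h2 := integral_mono (integrable_finsetSum _ hi) (integrable_const (2 : ℝ)) h1
    rw [integral_finsetSum _ hi, integral_const] at h2
    have h3 : ∀ j ∈ Finset.range H, ∫ θ, (S (w ^ j) ⁻¹' A).indicator (1 : X → ℝ) θ ∂ν =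
        ν.real A := by
      intro j _
      rw [integral_indicator_one (hm j), (hU _ (by rw [map_pow, norm_pow, hw1, one_pow])
        ).measureReal_preimage hAm.nullMeasurableSet]
    rw [Finset.sum_congr rfl h3] at h2
    simpa [mul_comm] using h2
  have h0 : ν.real A = 0 := by
    by_contra hne
    have hpos : 0 < ν.real A := lt_of_le_of_ne measureReal_nonneg (Ne.symm hne)
    obtain ⟨H, hH⟩ := exists_nat_gt (2 * ν.real univ / ν.real A)
    rw [div_lt_iff₀ hpos] at hH
    linarith [hb H]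
  exact (measureReal_eq_zero_iff (measure_ne_top _ _)).1 h0

end Pool.Agent.MP_fc94d9_co
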