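import Mathlib

set_option autoImplicit false

open MeasureTheory Filter Topology Set

noncomputable section

namespace Pool.Agent.MP_fc94d9_co

/-- The countable field of algebraic complex numbers. -/
def G : Type := ↥(algebraicClosure ℚ ℂ)

instance : Field G := inferInstanceAs (Field ↥(algebraicClosure ℚ ℂ))

instance : Countable G := by
  have h : Set.Countable {x : ℂ | IsAlgebraic ℚ x} := Algebraic.countable ℚ ℂ
  have : Countable ↥{x : ℂ | IsAlgebraic ℚ x} := h.to_subtype
  refine Function.Injective.countable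
    (f := fun x : ↥(algebraicClosure ℚ ℂ) =>
      (⟨x.1, (mem_algebraicClosure_iff).1 x.2⟩ : ↥{x : ℂ | IsAlgebraic ℚ x})) ?_
  intro x y hxy
  exact Subtype.ext (congrArg (fun t : ↥{x : ℂ | IsAlgebraic ℚ x} => t.1) hxy)

/-- The embedding into the complex numbers. -/
def io : G →+* ℂ := (algebraicClosure ℚ ℂ).val.toRingHom

lemma io_inj : Function.Injective io := io.injective

instance : CharZero G := io.charZero_iff io_inj |>.2 inferInstance

lemma exists_io_eq {x : ℂ} (hx : IsAlgebraic ℚ x) : ∃ g : G, io g = x :=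
  ⟨(⟨x, (mem_algebraicClosure_iff).2 hx⟩ : ↥(algebraicClosure ℚ ℂ)), rfl⟩

lemma exists_I : ∃ g : G, io g = Complex.I := by
  apply exists_io_eq
  refine ⟨Polynomial.X ^ 2 + 1, ?_, ?_⟩
  · exact (Polynomial.monic_X_pow_add_C (1 : ℚ) two_ne_zero).ne_zero
  · simp

def IG : G := exists_I.choose

lemma io_IG : io IG = Complex.I := exists_I.choose_spec

lemma IG_sq : IG * IG = ((-1 : ℤ) : G) := by
  apply io_inj
  simp [io_IG]

/-- Gaussian integers inside `G`. -/
def jj : GaussianInt →+* G := Zsqrtd.lift ⟨IG, IG_sq⟩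

lemma jj_apply (w : GaussianInt) : jj w = (w.re : G) + (w.im : G) * IG := by
  simp [jj]

lemma io_jj (w : GaussianInt) : io (jj w) = (w : ℂ) := by
  rw [jj_apply, GaussianInt.toComplex_def]
  simp [io_IG]

lemma jj_inj : Function.Injective jj := by
  intro a b h
  have : (a : ℂ) = b := by rw [← io_jj, ← io_jj, h]
  exact GaussianInt.toComplex_inj.1 this

lemma jj_ne_zero {a : GaussianInt} (h : a ≠ 0) : jj a ≠ 0 := by
  intro h0
  exact h (jj_inj (by simpa using h0))

abbrev T := UnitAddCircle

/-- Characters of the discrete group `G`. -/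
abbrev X := G →+ T

instance : TopologicalSpace X := TopologicalSpace.induced (fun θ : X => (θ : G → T)) inferInstance

lemma isEmbedding_coe : IsEmbedding (fun θ : X => (θ : G → T)) :=
  ⟨⟨rfl⟩, DFunLike.coe_injective⟩

lemma continuous_eval (z : G) : Continuous (fun θ : X => θ z) :=
  (continuous_apply z).comp isEmbedding_coe.continuous

lemma continuous_X {Y : Type*} [TopologicalSpace Y] {f : Y → X}
    (h : ∀ z, Continuous (fun y => f y z)) : Continuous f :=
  isEmbedding_coe.continuous_iff.2 (continuous_pi h)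

lemma isClosedEmbedding_coe : IsClosedEmbedding (fun θ : X => (θ : G → T)) := by
  refine ⟨isEmbedding_coe, ?_⟩
  have : range (fun θ : X => (θ : G → T)) = ⋂ x : G, ⋂ y : G, {f : G → T | f (x + y) = f x + f y} := by
    ext f
    simp only [mem_range, mem_iInter, mem_ofPred_eq]
    constructor
    · rintro ⟨θ, rfl⟩ x y
      exact map_add θ x y
    · intro h
      exact ⟨AddMonoidHom.mk' f h, rfl⟩
  rw [this]
  refine isClosed_iInter fun x => isClosed_iInter fun y => isClosed_eq (by fun_prop) (by fun_prop)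

instance : CompactSpace X := isClosedEmbedding_coe.compactSpace
instance : T2Space X := isEmbedding_coe.t2Space
instance : SecondCountableTopology X := isEmbedding_coe.secondCountableTopology
instance : TopologicalSpace.MetrizableSpace X := isEmbedding_coe.metrizableSpace
instance : IsTopologicalAddGroup X where
  continuous_add := continuous_X fun z =>
    ((continuous_eval z).comp continuous_fst).add ((continuous_eval z).comp continuous_snd)
  continuous_neg := continuous_X fun z => (continuous_eval z).neg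

instance : MeasurableSpace X := borel X
instance : BorelSpace X := ⟨rfl⟩

lemma measurable_eval (z : G) : Measurable (fun θ : X => θ z) := (continuous_eval z).measurable

/-- The standard character of the circle. -/
def E (t : T) : ℂ := (AddCircle.toCircle t : ℂ)

lemma E_add (s t : T) : E (s + t) = E s * E t := by
  simp [E, AddCircle.toCircle_add]

@[simp] lemma E_zero : E 0 = 1 := by simp [E]

@[simp] lemma norm_E (t : T) : ‖E t‖ = 1 := Circle.norm_coe _

lemma E_coe (x : ℝ) : E (x : T) = Complex.exp (2 * Real.pi * x * Complex.I) := by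
  simp [E, AddCircle.toCircle_apply_mk, Circle.coe_exp]

lemma continuous_E : Continuous E :=
  continuous_subtype_val.comp AddCircle.continuous_toCircle

lemma E_neg (t : T) : E (-t) = (starRingEnd ℂ) (E t) := by
  have h1 : E (-t) * E t = 1 := by rw [← E_add]; simp
  have h2 : (starRingEnd ℂ) (E t) * E t = 1 := by
    rw [mul_comm, Complex.mul_conj, Complex.normSq_eq_norm_sq, norm_E]; simp
  have h3 : E t ≠ 0 := by
    intro h; have := norm_E t; rw [h] at this; simp at this
  exact mul_right_cancel₀ h3 (h1.trans h2.symm)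

lemma E_inj {s t : T} (h : E s = E t) : s = t := by
  have : AddCircle.toCircle s = AddCircle.toCircle t := Subtype.ext h
  exact AddCircle.injective_toCircle one_ne_zero this

lemma E_nsmul (n : ℕ) (t : T) : E (n • t) = E t ^ n := by
  induction n with
  | zero => simp
  | succ n ih => rw [succ_nsmul, E_add, ih, pow_succ]

/-- Action of multiplication by `u` on characters. -/
def S (u : G) (θ : X) : X := θ.comp (AddMonoidHom.mulLeft u)

@[simp] lemma S_apply (u : G) (θ : X) (z : G) : S u θ z = θ (u * z) := rfl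

lemma continuous_S (u : G) : Continuous (S u) := continuous_X fun z => continuous_eval (u * z)

lemma measurable_S (u : G) : Measurable (S u) := (continuous_S u).measurable

lemma S_S (u v : G) (θ : X) : S u (S v θ) = S (v * u) θ := by
  ext z; simp [mul_assoc]

@[simp] lemma S_one (θ : X) : S 1 θ = θ := by ext z; simp

lemma S_sub (u : G) (θ θ' : X) : S u (θ - θ') = S u θ - S u θ' := by ext z; simp

/-- The continuous character of frequency `ξ`. -/
def chi (ξ : ℂ) : X where
  toFun z := (((ξ * io z).re : ℝ) : T)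
  map_zero' := by simp
  map_add' x y := by simp [mul_add]

lemma chi_apply (ξ : ℂ) (z : G) : chi ξ z = (((ξ * io z).re : ℝ) : T) := rfl

lemma chi_sub (ξ ξ' : ℂ) : chi (ξ - ξ') = chi ξ - chi ξ' := by
  ext z; simp [chi_apply, sub_mul]

@[simp] lemma chi_zero : chi 0 = 0 := by ext z; simp [chi_apply]

lemma S_chi (u : G) (ξ : ℂ) : S u (chi ξ) = chi (ξ * io u) := by
  ext z; simp [chi_apply, mul_assoc]

lemma measurable_chi_apply (z : G) : Measurable (fun ξ : ℂ => chi ξ z) := by
  have : Continuous (fun ξ : ℂ => chi ξ z) := by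
    simp only [chi_apply]
    exact (AddCircle.continuous_mk' 1).comp (by fun_prop)
  exact this.measurable

/-- `ψ` vanishes on the lattice `γ ℤ[i]`. -/
def Van (ψ : X) (γ : G) : Prop := ∀ w : GaussianInt, ψ (γ * jj w) = 0

lemma van_iff {ψ : X} {γ : G} : Van ψ γ ↔ ψ γ = 0 ∧ ψ (γ * IG) = 0 := by
  constructor
  · intro h
    refine ⟨by simpa using h 1, ?_⟩
    have := h ⟨0, 1⟩
    simpa [jj_apply] using this
  · rintro ⟨h1, h2⟩ w
    have : γ * jj w = w.re • γ + w.im • (γ * IG) := by
      rw [jj_apply]; simp only [zsmul_eq_mul]; ring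
    rw [this, map_add, map_zsmul, map_zsmul, h1, h2]; simp

lemma Van.mul {ψ : X} {γ : G} (h : Van ψ γ) (a : GaussianInt) : Van ψ (γ * jj a) := by
  intro w
  rw [mul_assoc, ← map_mul]
  exact h _

lemma Van.of_eq {ψ : X} {γ δ : G} (h : Van ψ γ) (a : GaussianInt) (hδ : δ = γ * jj a) :
    Van ψ δ := hδ ▸ h.mul a

lemma Van.of_coprime {ψ : X} {γ : G} {a b : GaussianInt} (hab : IsCoprime a b)
    (ha : Van ψ (γ * jj a)) (hb : Van ψ (γ * jj b)) : Van ψ γ := by
  intro w
  obtain ⟨x, y, hxy⟩ := hab
  have : γ * jj w = γ * jj a * jj (x * w) + γ * jj b * jj (y * w) := by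
    have h1 : jj w = jj ((x * a + y * b) * w) := by rw [hxy, one_mul]
    rw [h1]; simp only [map_mul, map_add]; ring
  rw [this, map_add, ha, hb, add_zero]

lemma Van.sub {ψ ψ' : X} {γ : G} (h : Van ψ γ) (h' : Van ψ' γ) : Van (ψ - ψ') γ := by
  intro w; simp [h w, h' w]

lemma Van.add {ψ ψ' : X} {γ : G} (h : Van ψ γ) (h' : Van ψ' γ) : Van (ψ + ψ') γ := by
  intro w; simp [h w, h' w]

lemma Van.neg {ψ : X} {γ : G} (h : Van ψ γ) : Van (-ψ) γ := by
  intro w; simp [h w]

lemma van_zero (γ : G) : Van 0 γ := by intro w; simp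

lemma van_S {ψ : X} {u γ : G} : Van (S u ψ) γ ↔ Van ψ (u * γ) := by
  simp [Van, mul_assoc]

lemma coe_eq_zero_of_abs_lt {x : ℝ} (h0 : (x : T) = 0) (hx : |x| < 1) : x = 0 := by
  obtain ⟨n, hn⟩ := (AddCircle.coe_eq_zero_iff (1 : ℝ)).1 h0
  simp only [zsmul_eq_mul, mul_one] at hn
  rw [← hn] at hx ⊢
  have : |n| < 1 := by exact_mod_cast hx
  have : n = 0 := by
    rcases abs_lt.1 this with ⟨h1, h2⟩; omega
  simp [this]

lemma Van.chi_eq_zero {ξ : ℂ} {γ : G} (h : Van (chi ξ) γ) (hγ : γ ≠ 0)
    (hn : ‖ξ‖ * ‖io γ‖ < 1) : ξ = 0 := by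
  obtain ⟨h1, h2⟩ := van_iff.1 h
  rw [chi_apply] at h1 h2
  have hb : ‖ξ * io γ‖ < 1 := by rwa [norm_mul]
  have e1 : (ξ * io γ).re = 0 :=
    coe_eq_zero_of_abs_lt h1 ((Complex.abs_re_le_norm _).trans_lt hb)
  have e2 : (ξ * io (γ * IG)).re = -(ξ * io γ).im := by
    rw [map_mul, io_IG, ← mul_assoc]; simp
  rw [e2] at h2
  have e3 : -(ξ * io γ).im = 0 :=
    coe_eq_zero_of_abs_lt h2 (by rw [abs_neg]; exact (Complex.abs_im_le_norm _).trans_lt hb)
  have : ξ * io γ = 0 := Complex.ext e1 (neg_eq_zero.1 e3)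
  rcases mul_eq_zero.1 this with h | h
  · exact h
  · exact absurd (io_inj (by simpa using h)) hγ

lemma measurableSet_van {Y : Type*} [MeasurableSpace Y] {f : Y → X}
    (hf : ∀ z, Measurable (fun y => f y z)) (γ : G) : MeasurableSet {y | Van (f y) γ} := by
  simp only [van_iff]
  exact ((hf γ) (measurableSet_singleton 0)).inter ((hf (γ * IG)) (measurableSet_singleton 0))

/-- The representative in `[a, a+1)`. -/
def L (a : ℝ) (t : T) : ℝ := (AddCircle.equivIco 1 a t : ℝ)

lemma L_mem (a : ℝ) (t : T) : L a t ∈ Ico a (a + 1) := (AddCircle.equivIco 1 a t).2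

@[simp] lemma coe_L (a : ℝ) (t : T) : ((L a t : ℝ) : T) = t :=
  (AddCircle.equivIco 1 a).symm_apply_apply t

lemma L_coe {a x : ℝ} (hx : x ∈ Ico a (a + 1)) : L a (x : T) = x := by
  simp [L, AddCircle.equivIco_coe_eq hx]

lemma measurable_L (a : ℝ) : Measurable (L a) :=
  measurable_subtype_coe.comp (AddCircle.measurableEquivIco 1 a).measurable

/-- The canonical frequency matching `θ` on the lattice `γ ℤ[i]`. -/
def xi (a : ℝ) (γ : G) (θ : X) : ℂ := ((L a (θ γ) : ℂ) - Complex.I * L a (θ (γ * IG))) / io γ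

lemma measurable_xi (a : ℝ) (γ : G) : Measurable (xi a γ) := by
  unfold xi
  have h1 : Measurable (fun θ : X => L a (θ γ)) := (measurable_L a).comp (measurable_eval γ)
  have h2 : Measurable (fun θ : X => L a (θ (γ * IG))) :=
    (measurable_L a).comp (measurable_eval _)
  fun_prop

lemma io_ne_zero {γ : G} (h : γ ≠ 0) : io γ ≠ 0 := by
  intro h0; exact h (io_inj (by simpa using h0))

lemma van_xi (a : ℝ) {γ : G} (hγ : γ ≠ 0) (θ : X) : Van (θ - chi (xi a γ θ)) γ := by
  have hγ' := io_ne_zero hγ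
  have e : xi a γ θ * io γ = (L a (θ γ) : ℂ) - Complex.I * L a (θ (γ * IG)) := by
    unfold xi; field_simp
  rw [van_iff]
  constructor
  · simp [chi_apply, e]
  · rw [AddMonoidHom.sub_apply, chi_apply, map_mul io, ← mul_assoc, e, io_IG]
    simp

/-- Fourier transform of a measure on the dual group. -/
def phi (ν : Measure X) (z : G) : ℂ := ∫ θ, E (θ z) ∂ν

lemma continuous_E_eval (z : G) : Continuous (fun θ : X => E (θ z)) :=
  continuous_E.comp (continuous_eval z)

lemma integrable_of_bdd {Y : Type*} [MeasurableSpace Y] {ν : Measure Y} [IsFiniteMeasure ν]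
    {F : Type*} [NormedAddCommGroup F] {f : Y → F} (hf : AEStronglyMeasurable f ν) (C : ℝ)
    (hC : ∀ y, ‖f y‖ ≤ C) : Integrable f ν :=
  Integrable.of_bound hf C (Eventually.of_forall hC)

lemma integrable_E_eval (ν : Measure X) [IsFiniteMeasure ν] (z : G) :
    Integrable (fun θ : X => E (θ z)) ν :=
  integrable_of_bdd (continuous_E_eval z).aestronglyMeasurable 1 (fun _ => by simp)

lemma phi_mul {ν : Measure X} {u : G} (hu : MeasurePreserving (S u) ν ν) (z : G) :
    phi ν (u * z) = phi ν z := by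
  unfold phi
  have := integral_map (μ := ν) (φ := S u) (measurable_S u).aemeasurable
    (f := fun θ : X => E (θ z)) (continuous_E_eval z).aestronglyMeasurable
  rw [hu.map_eq] at this
  rw [this]; rfl

/-- `2 + i`. -/
def pp : GaussianInt := ⟨2, 1⟩
/-- `2 - i`. -/
def qq : GaussianInt := ⟨2, -1⟩

lemma pp_mul_qq : pp * qq = 5 := by decide

lemma star_pp : star pp = qq := by decide
lemma star_qq : star qq = pp := by decide
lemma pp_ne : pp ≠ 0 := by decide
lemma qq_ne : qq ≠ 0 := by decide

lemma coprime_pp_qq : IsCoprime pp qq := ⟨⟨1, -1⟩, -1, by decide⟩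

lemma norm_qq : qq.norm = 5 := by decide

lemma irreducible_qq : Irreducible qq := by
  constructor
  · intro h
    have := (Zsqrtd.norm_eq_one_iff' (by norm_num) qq).2 h
    rw [norm_qq] at this; omega
  · intro a b hab
    have hn : a.norm * b.norm = 5 := by rw [← Zsqrtd.norm_mul, ← hab, norm_qq]
    have ha := GaussianInt.norm_nonneg a
    have hb := GaussianInt.norm_nonneg b
    have h5 : Prime (5 : ℤ) := Int.prime_iff_natAbs_prime.2 (by norm_num)
    rcases h5.irreducible.isUnit_or_isUnit hn.symm with h | h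
    · left
      rw [← Zsqrtd.norm_eq_one_iff' (by norm_num)]
      rcases Int.isUnit_iff.1 h with h | h <;> omega
    · right
      rw [← Zsqrtd.norm_eq_one_iff' (by norm_num)]
      rcases Int.isUnit_iff.1 h with h | h <;> omega

lemma exists_factor_qq {x : GaussianInt} (hx : x ≠ 0) :
    ∃ (v : ℕ) (g : GaussianInt), x = qq ^ v * g ∧ IsCoprime g qq ∧ (5 : ℤ) ^ v ≤ x.norm := by
  obtain ⟨v, g, hg, hxg⟩ := WfDvdMonoid.max_power_factor hx irreducible_qq
  refine ⟨v, g, hxg, (irreducible_qq.coprime_iff_not_dvd.2 hg).symm, ?_⟩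
  have hg0 : g ≠ 0 := by rintro rfl; exact hg (dvd_zero _)
  have h1 : 1 ≤ g.norm := by
    have := GaussianInt.norm_pos.2 hg0; omega
  have h2 : (qq ^ v).norm = 5 ^ v := by
    rw [← norm_qq]; exact map_pow (Zsqrtd.normMonoidHom) qq v
  rw [hxg, Zsqrtd.norm_mul, h2]
  nlinarith [pow_pos (show (0 : ℤ) < 5 by norm_num) v]

lemma norm_coe_sq (w : GaussianInt) : ‖(w : ℂ)‖ ^ 2 = (w.norm : ℝ) := by
  rw [← Complex.normSq_eq_norm_sq, ← GaussianInt.intCast_real_norm]

lemma one_le_norm_coe {w : GaussianInt} (hw : w ≠ 0) : 1 ≤ ‖(w : ℂ)‖ := by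
  have h1 : (1 : ℝ) ≤ w.norm := by
    have := GaussianInt.norm_pos.2 hw
    exact_mod_cast this
  have := norm_coe_sq w
  nlinarith [norm_nonneg (w : ℂ)]

lemma norm_coe_star (w : GaussianInt) : ‖((star w : GaussianInt) : ℂ)‖ = ‖(w : ℂ)‖ := by
  rw [GaussianInt.toComplex_star]; simp

/-- The rotation `a / conj a`. -/
def rot (a : GaussianInt) : G := jj a / jj (star a)

lemma norm_io_rot {a : GaussianInt} (ha : a ≠ 0) : ‖io (rot a)‖ = 1 := by
  have := one_le_norm_coe ha
  rw [rot, map_div₀, io_jj, io_jj, norm_div, norm_coe_star, div_self (by linarith)]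

/-- Invariance under all Gaussian rotations. -/
def TInv (ν : Measure X) : Prop :=
  ∀ a : GaussianInt, a ≠ 0 → MeasurePreserving (S (rot a)) ν ν

end Pool.Agent.MP_fc94d9_co
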