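import Pool.Agent.MP_fc94d9_co.Basic

set_option autoImplicit false

open MeasureTheory Filter Topology Set

noncomputable section

namespace Pool.Agent.MP_fc94d9_co

/-- The plane wave `exp (2 π i Re y)`. -/
def wv (y : ℂ) : ℂ := E ((y.re : ℝ) : T)

lemma continuous_wv : Continuous wv :=
  continuous_E.comp ((AddCircle.continuous_mk' 1).comp Complex.continuous_re)

@[simp] lemma norm_wv (y : ℂ) : ‖wv y‖ = 1 := norm_E _

/-- The average of a plane wave over a circle. -/
def BB (y : ℂ) : ℂ := ∫ t : T, wv (y * E t)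

lemma continuous_BB : Continuous BB := by
  refine continuous_of_dominated (bound := fun _ => 1) (fun y => ?_)
    (fun y => Eventually.of_forall fun t => by simp) (integrable_const _)
    (Eventually.of_forall fun t => continuous_wv.comp (by fun_prop))
  exact (continuous_wv.comp (continuous_const.mul continuous_E)).aestronglyMeasurable

lemma norm_BB_le (y : ℂ) : ‖BB y‖ ≤ 1 := by
  have := norm_integral_le_of_norm_le_const (μ := (volume : Measure T))
    (f := fun t : T => wv (y * E t)) (C := 1) (Eventually.of_forall fun t => by simp)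
  simpa [BB, Measure.real, UnitAddCircle.measure_univ] using this

lemma exists_E_eq {u : ℂ} (hu : ‖u‖ = 1) : ∃ t : T, E t = u := by
  refine ⟨((u.arg / (2 * Real.pi) : ℝ) : T), ?_⟩
  rw [E_coe]
  have := Complex.norm_mul_exp_arg_mul_I u
  rw [hu] at this
  rw [← this]
  have hpi : (Real.pi : ℂ) ≠ 0 := by exact_mod_cast Real.pi_ne_zero
  simp only [Complex.ofReal_one, one_mul]
  congr 1
  have e : Complex.arg (Complex.exp (↑u.arg * Complex.I)) = u.arg := by
    simp only [Complex.ofReal_one, one_mul] at this; rw [this]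
  rw [e]
  push_cast
  field_simp

lemma BB_norm (y : ℂ) : BB y = BB (‖y‖ : ℂ) := by
  by_cases hy : y = 0
  · simp [hy]
  have hn : (‖y‖ : ℂ) ≠ 0 := by exact_mod_cast norm_ne_zero_iff.2 hy
  obtain ⟨α, hα⟩ := exists_E_eq (u := y / ‖y‖) (by
    rw [norm_div, Complex.norm_real, norm_norm, div_self (norm_ne_zero_iff.2 hy)])
  unfold BB
  rw [← integral_add_left_eq_self (fun t : T => wv ((‖y‖ : ℂ) * E t)) α]
  congr 1
  funext t
  rw [E_add, hα]
  congr 1
  field_simp

lemma half_tendsto {I : Set ℝ} (hI : MeasurableSet I)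
    (hinj : InjOn (fun s : ℝ => Real.cos (2 * Real.pi * s)) I)
    (hsin : ∀ s ∈ I, Real.sin (2 * Real.pi * s) ≠ 0) :
    Tendsto (fun ρ : ℝ => ∫ s in I, wv ((ρ : ℂ) * E (s : T))) atTop (𝓝 0) := by
  set f : ℝ → ℝ := fun s => Real.cos (2 * Real.pi * s) with hf
  have hfm : MeasurableSet (f '' I) :=
    hI.image_of_continuousOn_injOn (by fun_prop) hinj
  set g : ℝ → ℂ := fun x => ((1 / (2 * Real.pi * Real.sqrt (1 - x ^ 2)) : ℝ) : ℂ) with hg
  have h1 := (Real.tendsto_integral_exp_smul_cocompact ((f '' I).indicator g)).comp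
    (tendsto_neg_atTop_atBot.mono_right atBot_le_cocompact)
  refine h1.congr fun ρ => ?_
  simp only [Function.comp]
  have e1 : ∀ v : ℝ, Real.fourierChar (-(v * -ρ)) • (f '' I).indicator g v =
      (f '' I).indicator (fun v => Real.fourierChar (v * ρ) • g v) v := by
    intro v
    by_cases hv : v ∈ f '' I
    · simp [indicator_of_mem hv]
    · simp [indicator_of_notMem hv]
  simp only [e1]
  rw [integral_indicator hfm, integral_image_eq_integral_abs_deriv_smul hI
    (f' := fun s => -Real.sin (2 * Real.pi * s) * (2 * Real.pi)) ?_ hinj]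
  · refine setIntegral_congr_fun hI fun s hs => ?_
    have h2 : Real.sqrt (1 - f s ^ 2) = |Real.sin (2 * Real.pi * s)| := by
      rw [← Real.sqrt_sq_eq_abs, Real.sin_sq]
    have h3 : (|Real.sin (2 * Real.pi * s)| : ℝ) ≠ 0 := abs_ne_zero.2 (hsin s hs)
    have hpi := Real.pi_pos
    have h4 : ((ρ : ℂ) * E (s : T)).re = f s * ρ := by
      rw [E_coe, Complex.re_ofReal_mul]
      have : (2 * Real.pi * s * Complex.I : ℂ) = ((2 * Real.pi * s : ℝ) : ℂ) * Complex.I := by
        push_cast; ring
      rw [this, Complex.exp_ofReal_mul_I_re, mul_comm]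
    simp only [wv, h4]
    simp only [hg, h2, E_coe, Circle.smul_def, Real.fourierChar_apply, smul_eq_mul,
      Complex.real_smul, abs_mul, abs_neg, abs_of_pos hpi, abs_two]
    have h5 : ((|Real.sin (2 * Real.pi * s)| : ℝ) : ℂ) ≠ 0 := by exact_mod_cast h3
    have h6 : (Real.pi : ℂ) ≠ 0 := by exact_mod_cast hpi.ne'
    push_cast
    field_simp
  · intro s _
    have : HasDerivAt (fun s : ℝ => 2 * Real.pi * s) (2 * Real.pi) s := by
      simpa using (hasDerivAt_id s).const_mul (2 * Real.pi)
    exact this.cos.hasDerivWithinAt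

lemma BB_tendsto : Tendsto (fun ρ : ℝ => BB (ρ : ℂ)) atTop (𝓝 0) := by
  have hpi := Real.pi_pos
  have i1 : InjOn (fun s : ℝ => Real.cos (2 * Real.pi * s)) (Ioo 0 (1 / 2)) := by
    intro a ha b hb hab
    have := Real.injOn_cos (x₁ := 2 * Real.pi * a) (x₂ := 2 * Real.pi * b)
      ⟨by nlinarith [ha.1], by nlinarith [ha.2]⟩ ⟨by nlinarith [hb.1], by nlinarith [hb.2]⟩ hab
    exact mul_left_cancel₀ (by positivity) this
  have s1 : ∀ s ∈ Ioo (0 : ℝ) (1 / 2), Real.sin (2 * Real.pi * s) ≠ 0 := fun s hs =>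
    (Real.sin_pos_of_pos_of_lt_pi (by nlinarith [hs.1]) (by nlinarith [hs.2])).ne'
  have h1 := half_tendsto measurableSet_Ioo i1 s1
  have h2 := half_tendsto (I := Ioo (-(1 / 2)) 0) measurableSet_Ioo (by
    intro a ha b hb hab
    have := i1 (x₁ := -a) (x₂ := -b) ⟨by linarith [ha.2], by linarith [ha.1]⟩
      ⟨by linarith [hb.2], by linarith [hb.1]⟩ (by simpa using hab)
    linarith) (by
    intro s hs
    have := s1 (-s) ⟨by linarith [hs.2], by linarith [hs.1]⟩
    simpa using this)
  have h3 := h2.add h1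
  rw [add_zero] at h3
  refine h3.congr fun ρ => ?_
  have hc : Continuous (fun s : ℝ => wv ((ρ : ℂ) * E (s : T))) :=
    continuous_wv.comp (continuous_const.mul (continuous_E.comp (AddCircle.continuous_mk' 1)))
  rw [BB, ← UnitAddCircle.intervalIntegral_preimage (-(1 / 2)),
    ← intervalIntegral.integral_add_adjacent_intervals (b := 0) (hc.intervalIntegrable _ _)
      (hc.intervalIntegrable _ _), intervalIntegral.integral_of_le (by norm_num),
    intervalIntegral.integral_of_le (by norm_num), integral_Ioc_eq_integral_Ioo,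
    integral_Ioc_eq_integral_Ioo]
  norm_num

lemma radial_of_irrational {h : ℂ → ℂ} (hc : Continuous h) {u : ℂ} (hu : ‖u‖ = 1)
    (hord : ∀ n : ℕ, 0 < n → u ^ n ≠ 1) (hinv : ∀ x, h (u * x) = h x) (x : ℂ) (t : T) :
    h (x * E t) = h x := by
  obtain ⟨α, hα⟩ := exists_E_eq hu
  have hd : DenseRange (fun n : ℤ => n • α) := by
    rw [AddCircle.denseRange_zsmul_iff, addOrderOf_eq_zero_iff']
    intro n hn h0
    apply hord n hn
    rw [← hα, ← E_nsmul, h0, E_zero]
  have key : ∀ n : ℤ, h (x * E (n • α)) = h x := by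
    intro n
    induction n using Int.induction_on with
    | zero => simp
    | succ n ih =>
      rw [add_smul, one_smul, E_add, hα, ← mul_assoc, mul_comm _ u, hinv, ih]
    | pred n ih =>
      rw [← hinv, ← ih]
      congr 1
      rw [← hα, mul_left_comm, ← E_add]
      congr 2
      rw [sub_smul, one_smul]; abel
  have := hd.equalizer (g := fun t => h (x * E t)) (h := fun _ => h x)
    (hc.comp (continuous_const.mul continuous_E)) continuous_const (funext key)
  exact congrFun this t

end Pool.Agent.MP_fc94d9_co
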