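import Pool.Agent.MP_fc94d9_co.Atom
import Pool.Agent.MP_fc94d9_co.Abstract

set_option autoImplicit false

open MeasureTheory Filter Topology Set

noncomputable section

namespace Pool.Agent.MP_fc94d9_co

lemma exists_limit (μ : ℕ → Measure X) [∀ n, IsFiniteMeasure (μ n)]
    (hμ : ∀ n, (μ n).real univ ≤ 1) :
    ∃ ν : Measure X, IsFiniteMeasure ν ∧ ν.real univ ≤ 1 ∧ ∃ l : Filter ℕ, l.NeBot ∧ l ≤ atTop ∧
      ∀ f : X → ℝ, Continuous f → Tendsto (fun n => ∫ θ, f θ ∂(μ n)) l (𝓝 (∫ θ, f θ ∂ν)) := by
  let μ' : ℕ → FiniteMeasure X := fun n => ⟨μ n, inferInstance⟩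
  have hc := isCompact_setOfPred_finiteMeasure_le_of_compactSpace X 1
  obtain ⟨ν, hν, hlim⟩ := hc.ultrafilter_le_nhds' ((Ultrafilter.of atTop).map μ') (by
    rw [Ultrafilter.mem_map]
    exact univ_mem' fun n => hμ n)
  refine ⟨ν, inferInstance, hν, (Ultrafilter.of (atTop : Filter ℕ) : Filter ℕ), inferInstance,
    Ultrafilter.of_le _, fun f hf => ?_⟩
  exact FiniteMeasure.tendsto_iff_forall_integral_tendsto.1 hlim
    (BoundedContinuousFunction.mkOfCompact ⟨f, hf⟩)

lemma re_phi (ν : Measure X) [IsFiniteMeasure ν] (s : G) :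
    (phi ν s).re = ∫ θ, (E (θ s)).re ∂ν :=
  (integral_re (integrable_E_eval ν s)).symm

lemma continuous_re_E (s : G) : Continuous (fun θ : X => (E (θ s)).re) :=
  Complex.continuous_re.comp (continuous_E_eval s)

/-- Haar probability measure on the dual group. -/
def haar : Measure X := Measure.addHaarMeasure ⊤

instance : haar.IsAddLeftInvariant := by unfold haar; infer_instance

instance : IsProbabilityMeasure haar := ⟨Measure.addHaarMeasure_self (K₀ := ⊤)⟩

open Classical in
lemma phi_haar (z : G) : phi haar z = if z = 0 then 1 else 0 := by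
  split_ifs with hz
  · simp [phi, hz]
  · have h1 := integral_add_left_eq_self (μ := haar) (fun θ : X => E (θ z))
      (chi (1 / 2 / io z))
    have h2 : E (chi (1 / 2 / io z) z) = -1 := by
      rw [chi_apply, div_mul_cancel₀ _ (io_ne_zero hz), E_coe, ← Complex.exp_pi_mul_I]
      congr 1
      norm_num
      ring
    simp only [AddMonoidHom.add_apply, E_add, h2, integral_const_mul] at h1
    unfold phi
    linear_combination (-1 / 2) * h1

section Colour

variable {k : ℕ} (c : G → Fin k)

/-- The balanced indicator function of a colour class. -/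
def bal (d : Fin k) (x : G) : ℝ := (if c x = d then 1 else 0) - 1 / k

lemma sum_bal (x y : G) :
    ∑ d, bal c d x * bal c d y = (if c x = c y then 1 else 0) - 1 / k := by
  have hk : (k : ℝ) ≠ 0 := by
    have := (c x).pos
    positivity
  have : ∀ d, bal c d x * bal c d y = (if c x = d then (if c x = c y then 1 else 0) else 0) -
      (if c x = d then 1 / (k : ℝ) else 0) - (if c y = d then 1 / (k : ℝ) else 0) +
      1 / (k : ℝ) ^ 2 := by
    intro d
    unfold bal
    by_cases h1 : c x = d <;> by_cases h2 : c y = d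
    · simp [h1, h2]; ring
    · have : ¬ d = c y := fun h => h2 h.symm
      simp [h1, h2, this]; ring
    · simp [h1, h2]; ring
    · simp [h1, h2]; ring
  simp only [this, Finset.sum_add_distrib, Finset.sum_sub_distrib, Finset.sum_ite_eq,
    Finset.mem_univ, if_true, Finset.sum_const, Finset.card_univ, Fintype.card_fin, nsmul_eq_mul]
  field_simp
  ring

/-- The periodogram of the colouring on a finite set. -/
def dens (F : Finset G) (θ : X) : ℝ :=
  (∑ d, ‖∑ x ∈ F, (bal c d x : ℂ) * E (θ x)‖ ^ 2) / F.card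

lemma dens_nonneg (F : Finset G) (θ : X) : 0 ≤ dens c F θ := by unfold dens; positivity

lemma continuous_dens (F : Finset G) : Continuous (dens c F) := by
  unfold dens
  refine Continuous.div_const (continuous_finsetSum _ fun d _ => ?_) _
  exact (continuous_finsetSum _ fun x _ => continuous_const.mul (continuous_E_eval x)).norm.pow 2

/-- The spectral measure of the colouring on a finite set. -/
def spec (F : Finset G) : Measure X := haar.withDensity (fun θ => ENNReal.ofReal (dens c F θ))

instance (F : Finset G) : IsFiniteMeasure (spec c F) :=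
  isFiniteMeasure_withDensity_ofReal
    ((continuous_dens c F).integrable_of_hasCompactSupport
      (HasCompactSupport.of_compactSpace _)).hasFiniteIntegral

open Classical in
lemma phi_spec (F : Finset G) (s : G) :
    phi (spec c F) s = (((∑ x ∈ F, if x + s ∈ F then
      ((if c x = c (x + s) then 1 else 0) - 1 / (k : ℝ)) else 0) / F.card : ℝ) : ℂ) := by
  rw [phi, spec, integral_withDensity_eq_integral_toReal_smul
    (continuous_dens c F).measurable.ennreal_ofReal (Eventually.of_forall fun _ => by simp)]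
  have h1 : ∀ θ : X, (ENNReal.ofReal (dens c F θ)).toReal • E (θ s) =
      (∑ x ∈ F, ∑ y ∈ F, ((∑ d, bal c d x * bal c d y : ℝ) : ℂ) * E (θ (x + s - y))) /
        F.card := by
    intro θ
    rw [ENNReal.toReal_ofReal (dens_nonneg c F θ), dens, Complex.real_smul, Complex.ofReal_div,
      div_mul_eq_mul_div, Complex.ofReal_sum, Finset.sum_mul, Complex.ofReal_natCast]
    congr 1
    have : ∀ d, ((‖∑ x ∈ F, (bal c d x : ℂ) * E (θ x)‖ ^ 2 : ℝ) : ℂ) * E (θ s) =
        ∑ x ∈ F, ∑ y ∈ F, ((bal c d x * bal c d y : ℝ) : ℂ) * E (θ (x + s - y)) := by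
      intro d
      rw [← Complex.normSq_eq_norm_sq, ← Complex.mul_conj, map_sum, Finset.sum_mul_sum,
        Finset.sum_mul]
      refine Finset.sum_congr rfl fun x _ => ?_
      rw [Finset.sum_mul]
      refine Finset.sum_congr rfl fun y _ => ?_
      rw [map_mul, Complex.conj_ofReal, ← E_neg, map_sub, map_add, sub_eq_add_neg, E_add, E_add]
      push_cast; ring
    simp only [this]
    rw [Finset.sum_comm]
    refine Finset.sum_congr rfl fun x _ => ?_
    rw [Finset.sum_comm]
    refine Finset.sum_congr rfl fun y _ => ?_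
    rw [Complex.ofReal_sum, Finset.sum_mul]
  simp only [h1]
  rw [integral_div, integral_finsetSum _ fun x _ => integrable_finsetSum _ fun y _ =>
    (integrable_E_eval haar _).const_mul _, Complex.ofReal_div, Complex.ofReal_natCast,
    Complex.ofReal_sum]
  congr 1
  refine Finset.sum_congr rfl fun x _ => ?_
  rw [integral_finsetSum _ fun y _ => (integrable_E_eval haar _).const_mul _]
  have h2 : ∀ y, ∫ θ : X, ((∑ d, bal c d x * bal c d y : ℝ) : ℂ) * E (θ (x + s - y)) ∂haar =
      if x + s = y then (((if c x = c y then 1 else 0) - 1 / (k : ℝ) : ℝ) : ℂ) else 0 := by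
    intro y
    rw [integral_const_mul, sum_bal]
    change _ * phi haar _ = _
    rw [phi_haar]
    simp only [sub_eq_zero]
    split_ifs <;> simp
  simp only [h2]
  rw [Finset.sum_ite_eq]
  split_ifs <;> simp

lemma mass_spec (F : Finset G) (hF : F.Nonempty) : (spec c F).real univ ≤ 1 := by
  classical
  have h1 := re_phi (spec c F) 0
  have hc : (0 : ℝ) < F.card := by exact_mod_cast hF.card_pos
  rw [phi_spec, Complex.ofReal_re] at h1
  simp only [map_zero, E_zero, Complex.one_re, integral_const, smul_eq_mul, mul_one] at h1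
  rw [← h1, div_le_one hc]
  refine (Finset.sum_le_card_nsmul _ _ 1 fun x _ => ?_).trans (by simp)
  have : (0 : ℝ) ≤ 1 / k := by positivity
  split_ifs <;> linarith

lemma exists_stage_one (D : Set G) (hD : ∀ x, ∀ s ∈ D, c x ≠ c (x + s)) :
    ∃ ν : Measure X, IsFiniteMeasure ν ∧ ν.real univ ≤ 1 ∧
      ∀ s ∈ D, (phi ν s).re ≤ -(1 / k) := by
  classical
  obtain ⟨e, he⟩ := exists_surjective_nat G
  choose F hF hF' using fun n : ℕ => exists_foelner ((Finset.range (n + 1)).image e)
    (fun s _ => add_left_injective s) (show (0 : ℝ) < 1 / ((n : ℝ) + 1) by positivity)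
  obtain ⟨ν, hν, hm, l, hl, hl', hlim⟩ := exists_limit (fun n => spec c (F n))
    (fun n => mass_spec c _ (hF n))
  refine ⟨ν, hν, hm, fun s hs => ?_⟩
  obtain ⟨n0, rfl⟩ := he s
  have h1 := hlim _ (continuous_re_E (e n0))
  rw [← re_phi] at h1
  have h2 : Tendsto (fun n : ℕ => -(1 / (k : ℝ)) * (1 - 1 / ((n : ℝ) + 1))) l
      (𝓝 (-(1 / (k : ℝ)) * (1 - 0))) :=
    ((tendsto_const_nhds.sub tendsto_one_div_add_atTop_nhds_zero_nat).const_mul _).mono_left hl'
  rw [sub_zero, mul_one] at h2
  refine le_of_tendsto_of_tendsto h1 h2 ?_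
  filter_upwards [hl' (eventually_ge_atTop n0)] with n hn
  have hc : (0 : ℝ) < (F n).card := by exact_mod_cast (hF n).card_pos
  have h3 := hF' n (e n0) (Finset.mem_image_of_mem _ (Finset.mem_range.2 (Nat.lt_succ_of_le hn)))
  rw [← re_phi, phi_spec, Complex.ofReal_re, div_le_iff₀ hc]
  have h4 : (((F n).filter (fun x => x + e n0 ∈ F n)).card : ℝ) +
      ((F n).filter (fun x => x + e n0 ∉ F n)).card = (F n).card := by
    exact_mod_cast Finset.card_filter_add_card_filter_not _
  have h5 : (∑ x ∈ F n, if x + e n0 ∈ F n then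
      ((if c x = c (x + e n0) then 1 else 0) - 1 / (k : ℝ)) else 0) =
      -(1 / (k : ℝ)) * ((F n).filter (fun x => x + e n0 ∈ F n)).card := by
    rw [Finset.card_filter]; push_cast
    rw [Finset.mul_sum]
    refine Finset.sum_congr rfl fun x _ => ?_
    rw [if_neg (hD x _ hs)]
    split_ifs <;> simp
  have h6 : (0 : ℝ) ≤ 1 / k := by positivity
  refine le_trans (le_of_eq (by convert h5)) ?_
  nlinarith

end Colour

/-- The rotations in `G`. -/
def UU : Submonoid G where
  carrier := {u | ‖io u‖ = 1}
  one_mem' := by simp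
  mul_mem' := by
    intro a b ha hb
    simp only [mem_ofPred_eq] at ha hb ⊢
    rw [map_mul, norm_mul, ha, hb, one_mul]

lemma exists_stage_two (ν0 : Measure X) [IsFiniteMeasure ν0] (hm : ν0.real univ ≤ 1) (D : Set G)
    (hD : ∀ u : G, ‖io u‖ = 1 → ∀ s ∈ D, u * s ∈ D) {γ : ℝ} (h0 : ∀ s ∈ D, (phi ν0 s).re ≤ γ) :
    ∃ ν : Measure X, IsFiniteMeasure ν ∧ UInv ν ∧ ∀ s ∈ D, (phi ν s).re ≤ γ := by
  classical
  have : Countable (Additive UU) := inferInstanceAs (Countable UU)
  obtain ⟨e, he⟩ := exists_surjective_nat (Additive UU)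
  have hinj : ∀ s : Additive UU, Function.Injective (fun x : Additive UU => x + s) := by
    intro s x y hxy
    have h1 : (x.toMul : G) * (s.toMul : G) = (y.toMul : G) * (s.toMul : G) :=
      congrArg (fun t : Additive UU => (t.toMul : G)) hxy
    have h2 : (s.toMul : G) ≠ 0 := by
      intro h
      have : ‖io (s.toMul : G)‖ = 1 := s.toMul.2
      rw [h] at this; simp at this
    exact Subtype.ext (mul_right_cancel₀ h2 h1)
  choose F hF hF' using fun n : ℕ => exists_foelner ((Finset.range (n + 1)).image e)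
    (fun s _ => hinj s) (show (0 : ℝ) < 1 / ((n : ℝ) + 1) by positivity)
  let μ : ℕ → Measure X := fun n =>
    (((F n).card : NNReal)⁻¹) • ∑ u ∈ F n, ν0.map (S (u.toMul : G))
  have hμ : ∀ n (f : X → ℝ), Continuous f → ∫ θ, f θ ∂(μ n) =
      (∑ u ∈ F n, ∫ θ, f (S (u.toMul : G) θ) ∂ν0) / (F n).card := by
    intro n f hf
    simp only [μ]
    rw [integral_smul_nnreal_measure, integral_finsetSum_measure fun u _ =>
      hf.integrable_of_hasCompactSupport (HasCompactSupport.of_compactSpace _)]
    rw [NNReal.smul_def, smul_eq_mul, div_eq_inv_mul]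
    congr 1
    exact Finset.sum_congr rfl fun u _ =>
      integral_map (measurable_S _).aemeasurable hf.aestronglyMeasurable
  have hc : ∀ n, (0 : ℝ) < (F n).card := fun n => by exact_mod_cast (hF n).card_pos
  obtain ⟨ν, hν, -, l, hl, hl', hlim⟩ := exists_limit μ (fun n => by
    have := hμ n (fun _ => 1) continuous_const
    simp only [integral_const, smul_eq_mul, mul_one, Finset.sum_const, nsmul_eq_mul] at this
    rw [this, mul_div_cancel_left₀ _ (hc n).ne']
    exact hm)
  refine ⟨ν, hν, fun u hu => ⟨measurable_S u, ?_⟩, fun s hs => ?_⟩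
  · apply ext_of_forall_integral_eq_of_IsFiniteMeasure
    intro f
    rw [integral_map (measurable_S _).aemeasurable f.continuous.aestronglyMeasurable]
    have h1 := (hlim _ (f.continuous.comp (continuous_S u))).sub (hlim _ f.continuous)
    have h2 : Tendsto (fun n : ℕ => 2 * ‖f‖ * (1 / ((n : ℝ) + 1))) l (𝓝 (2 * ‖f‖ * 0)) :=
      (tendsto_one_div_add_atTop_nhds_zero_nat.const_mul _).mono_left hl'
    rw [mul_zero] at h2
    have h3 := le_of_tendsto_of_tendsto h1.abs h2 ?_
    · exact sub_eq_zero.1 (abs_nonpos_iff.1 h3)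
    obtain ⟨n0, hn0⟩ := he (Additive.ofMul ⟨u, hu⟩)
    filter_upwards [hl' (eventually_ge_atTop n0)] with n hn
    have h4 := hF' n (e n0) (Finset.mem_image_of_mem _ (Finset.mem_range.2 (Nat.lt_succ_of_le hn)))
    have h5 := abs_sum_translate_sub_le (F n) (hinj (e n0))
      (fun v => ∫ θ, f (S (v.toMul : G) θ) ∂ν0) (C := ‖f‖) (fun v => by
        have := norm_integral_le_of_norm_le_const (μ := ν0)
          (f := fun θ => f (S (v.toMul : G) θ)) (C := ‖f‖)
          (Eventually.of_forall fun θ => f.norm_coe_le_norm _)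
        rw [Real.norm_eq_abs] at this
        exact this.trans (mul_le_of_le_one_right (norm_nonneg _) hm))
    rw [hμ n _ (f.continuous.comp (continuous_S u)), hμ n _ f.continuous, ← sub_div, abs_div,
      abs_of_pos (hc n), div_le_iff₀ (hc n)]
    have h6 : ∀ v : Additive UU, ∫ θ, (f ∘ S u) (S (v.toMul : G) θ) ∂ν0 =
        ∫ θ, f (S ((v + e n0).toMul : G) θ) ∂ν0 := by
      intro v
      simp only [Function.comp, S_S, hn0]
      rfl
    simp only [h6]
    refine h5.trans ?_
    rw [mul_assoc (2 * ‖f‖)]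
    gcongr
  · have h1 := hlim _ (continuous_re_E s)
    rw [← re_phi] at h1
    refine le_of_tendsto' h1 fun n => ?_
    rw [hμ n _ (continuous_re_E s), div_le_iff₀ (hc n)]
    refine (Finset.sum_le_card_nsmul _ _ γ fun u _ => ?_).trans (by simp [mul_comm])
    have := h0 _ (hD _ u.toMul.2 s hs)
    rwa [re_phi] at this

end Pool.Agent.MP_fc94d9_co
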