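import Pool.Agent.MP_fc94d9_co.Basic

set_option autoImplicit false

open MeasureTheory Filter Topology Set

noncomputable section

namespace Pool.Agent.MP_fc94d9_co

instance : Countable GaussianInt :=
  Function.Injective.countable (f := fun w : GaussianInt => (w.re, w.im)) (by
    intro a b h
    simp only [Prod.mk.injEq] at h
    exact Zsqrtd.ext h.1 h.2)

lemma jj_pp_ne : jj pp ≠ 0 := jj_ne_zero pp_ne
lemma jj_qq_ne : jj qq ≠ 0 := jj_ne_zero qq_ne

lemma jj_pq : jj pp * jj qq = 5 := by rw [← map_mul, pp_mul_qq]; exact map_ofNat jj 5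

lemma ne_zero_of_coprime {a : GaussianInt} (h : IsCoprime a qq) : a ≠ 0 := by
  rintro rfl
  exact irreducible_qq.not_isUnit (isCoprime_zero_left.1 h)

/-- `5 ^ (-k)`. -/
def five (k : ℕ) : G := ((5 : G) ^ k)⁻¹

lemma five_eq (k : ℕ) : five k = (jj pp ^ k * jj qq ^ k)⁻¹ := by
  rw [five, ← mul_pow, jj_pq]

/-- Number of cells at depth `k`. -/
def MM (k : ℕ) : ℕ := 2 * 5 ^ k

lemma MM_pos (k : ℕ) : 0 < MM k := by unfold MM; positivity

lemma MM_cast (k : ℕ) : (MM k : ℝ) = 2 * 5 ^ k := by simp [MM]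

/-- The cell of the value at `5 ^ (-k)`. -/
def dig (k : ℕ) (θ : X) : ℕ := ⌊(MM k : ℝ) * L 0 (θ (five k))⌋₊

lemma L0_nonneg (t : T) : 0 ≤ L 0 t := (L_mem 0 t).1
lemma L0_lt (t : T) : L 0 t < 1 := by simpa using (L_mem 0 t).2

lemma dig_lt (k : ℕ) (θ : X) : dig k θ < MM k := by
  have hM : (0 : ℝ) < MM k := by exact_mod_cast MM_pos k
  rw [dig, Nat.floor_lt (mul_nonneg hM.le (L0_nonneg _))]
  nlinarith [L0_lt (θ (five k))]

lemma measurable_dig (k : ℕ) : Measurable (dig k) :=
  Nat.measurable_floor.comp (((measurable_L 0).comp (measurable_eval _)).const_mul _)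

lemma coe_nat_mul (n : ℕ) (x : ℝ) : (((n : ℝ) * x : ℝ) : T) = n • (x : T) := by
  rw [← AddCircle.coe_nsmul, nsmul_eq_mul]

lemma coe_int_eq_zero (n : ℤ) : (((n : ℝ)) : T) = 0 :=
  (AddCircle.coe_eq_zero_iff (1 : ℝ)).2 ⟨n, by simp⟩

lemma L_five (k : ℕ) (θ : X) :
    L 0 (θ (five k)) = (dig k θ + L 0 (θ 2)) / MM k := by
  have hM : (0 : ℝ) < MM k := by exact_mod_cast MM_pos k
  set y : ℝ := (MM k : ℝ) * L 0 (θ (five k)) with hy
  have hy0 : 0 ≤ y := mul_nonneg hM.le (L0_nonneg _)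
  have h1 : (y : T) = θ 2 := by
    rw [hy, coe_nat_mul, coe_L, ← map_nsmul]
    congr 1
    simp only [MM, five, nsmul_eq_mul]
    push_cast
    field_simp
  have h2 : ((Int.fract y : ℝ) : T) = θ 2 := by
    rw [← h1, Int.fract, AddCircle.coe_sub, coe_int_eq_zero, sub_zero]
  have h3 : L 0 (θ 2) = Int.fract y := by
    rw [← h2]
    exact L_coe ⟨Int.fract_nonneg y, by simpa using Int.fract_lt_one y⟩
  have h4 : (dig k θ : ℝ) = (⌊y⌋ : ℝ) := natCast_floor_eq_intCast_floor hy0
  rw [h3, h4, Int.floor_add_fract, hy]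
  field_simp

lemma dig_mod (k : ℕ) (θ : X) : dig k θ = dig (k + 1) θ % MM k := by
  have hM : (0 : ℝ) < MM k := by exact_mod_cast MM_pos k
  set J := dig (k + 1) θ
  set y := L 0 (θ 2)
  have hy0 : 0 ≤ y := L0_nonneg _
  have hy1 : y < 1 := L0_lt _
  have h1 : θ (five k) = 5 • θ (five (k + 1)) := by
    rw [← map_nsmul]
    congr 1
    simp only [five, nsmul_eq_mul]
    push_cast
    field_simp
    ring
  have hJ : (J : ℝ) = (J % MM k : ℕ) + MM k * (J / MM k : ℕ) := by
    exact_mod_cast (Nat.mod_add_div J (MM k)).symm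
  have h2 : θ (five k) = (((((J % MM k : ℕ) : ℝ) + y) / MM k : ℝ) : T) := by
    rw [h1, ← coe_L 0 (θ (five (k + 1))), ← coe_nat_mul, L_five]
    have : ((5 : ℕ) : ℝ) * (((J : ℝ) + y) / (MM (k + 1) : ℝ)) =
        (((J % MM k : ℕ) : ℝ) + y) / MM k + (((J / MM k : ℕ) : ℤ) : ℝ) := by
      rw [Int.cast_natCast]
      have e : (MM (k + 1) : ℝ) = 5 * MM k := by simp only [MM_cast]; ring
      rw [e, hJ]
      simp only [Nat.cast_ofNat]
      field_simp
      rw [← hJ]
      linarith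
    rw [this, AddCircle.coe_add, coe_int_eq_zero, add_zero]
  have hlt : ((J % MM k : ℕ) : ℝ) + 1 ≤ MM k := by
    exact_mod_cast Nat.mod_lt J (MM_pos k)
  have h3 : L 0 (θ (five k)) = (((J % MM k : ℕ) : ℝ) + y) / MM k := by
    rw [h2]
    apply L_coe
    constructor
    · positivity
    · rw [zero_add, div_lt_one hM]; linarith
  rw [L_five, div_left_inj' hM.ne'] at h3
  have : (dig k θ : ℝ) = ((J % MM k : ℕ) : ℝ) := by linarith
  exact_mod_cast this

/-- The additive character of `ℤ / M`. -/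
def om (M c d : ℕ) : ℂ := E ((((c : ℝ) * d / M : ℝ)) : T)

lemma om_orth {M d d' : ℕ} (hd : d < M) (hd' : d' < M) :
    ∑ c ∈ Finset.range M, om M c d * (starRingEnd ℂ) (om M c d') =
      if d = d' then (M : ℂ) else 0 := by
  have hM : (0 : ℝ) < M := by exact_mod_cast (Nat.zero_lt_of_lt hd)
  set t : T := ((((d : ℝ) - d') / M : ℝ) : T) with ht
  have h1 : ∀ c : ℕ, om M c d * (starRingEnd ℂ) (om M c d') = E t ^ c := by
    intro c
    rw [om, om, ← E_neg, ← E_add, ← E_nsmul, ht, ← coe_nat_mul, ← AddCircle.coe_neg,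
      ← AddCircle.coe_add]
    congr 2
    ring
  simp only [h1]
  split_ifs with h
  · subst h; simp [ht]
  · have hne : E t ≠ 1 := by
      intro h1
      have h2 : t = 0 := E_inj (by rw [h1, E_zero])
      have h3 : ((d : ℝ) - d') / M = 0 := by
        apply coe_eq_zero_of_abs_lt h2
        rw [abs_div, abs_of_pos hM, div_lt_one hM, abs_lt]
        have a1 : (d : ℝ) < M := by exact_mod_cast hd
        have a2 : (d' : ℝ) < M := by exact_mod_cast hd'
        have a3 : (0 : ℝ) ≤ d := by positivity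
        have a4 : (0 : ℝ) ≤ d' := by positivity
        constructor <;> linarith
      rw [div_eq_zero_iff] at h3
      rcases h3 with h3 | h3
      · exact h (by exact_mod_cast sub_eq_zero.1 h3)
      · exact hM.ne' h3
    have hpow : E t ^ M = 1 := by
      rw [← E_nsmul, ht, ← coe_nat_mul]
      have : (M : ℝ) * (((d : ℝ) - d') / M) = (((d : ℤ) - d' : ℤ) : ℝ) := by
        push_cast; field_simp
      rw [this, coe_int_eq_zero, E_zero]
    rw [geom_sum_eq hne, hpow]; simp

lemma parseval (M : ℕ) (a : ℕ → ℝ) :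
    ∑ c ∈ Finset.range M, ‖∑ d ∈ Finset.range M, (a d : ℂ) * om M c d‖ ^ 2 =
      M * ∑ d ∈ Finset.range M, a d ^ 2 := by
  have h : ∀ c, ((‖∑ d ∈ Finset.range M, (a d : ℂ) * om M c d‖ ^ 2 : ℝ) : ℂ) =
      ∑ d ∈ Finset.range M, ∑ d' ∈ Finset.range M,
        (a d : ℂ) * a d' * (om M c d * (starRingEnd ℂ) (om M c d')) := by
    intro c
    rw [← Complex.normSq_eq_norm_sq, ← Complex.mul_conj, map_sum, Finset.sum_mul_sum]
    refine Finset.sum_congr rfl fun d _ => Finset.sum_congr rfl fun d' _ => ?_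
    rw [map_mul, Complex.conj_ofReal]; ring
  apply Complex.ofReal_injective
  rw [Complex.ofReal_sum]
  simp only [h]
  rw [Finset.sum_comm]
  push_cast
  rw [Finset.mul_sum]
  refine Finset.sum_congr rfl fun d hd => ?_
  rw [Finset.sum_comm]
  have : ∀ d' ∈ Finset.range M, ∑ c ∈ Finset.range M,
      (a d : ℂ) * a d' * (om M c d * (starRingEnd ℂ) (om M c d')) =
      if d = d' then (a d : ℂ) * a d' * M else 0 := by
    intro d' hd'
    rw [← Finset.mul_sum, om_orth (Finset.mem_range.1 hd) (Finset.mem_range.1 hd')]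
    split_ifs <;> simp
  rw [Finset.sum_congr rfl this, Finset.sum_ite_eq, if_pos hd]
  ring

/-- Fractions with denominator prime to `2 - i`. -/
def Idx : Type := {p : GaussianInt × GaussianInt // IsCoprime p.2 qq}

instance : Countable Idx := inferInstanceAs
  (Countable {p : GaussianInt × GaussianInt // IsCoprime p.2 qq})

/-- The element of `G` given by a fraction. -/
def Idx.el (i : Idx) : G := jj i.1.1 / jj i.1.2

lemma host_identity {z : GaussianInt} (hz : IsCoprime z qq) (k c : ℕ) :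
    ∃ a : GaussianInt, a ≠ 0 ∧ ∃ i : Idx, rot a * jj z = c • five (k + 1) + i.el := by
  set K := k + 1 with hK
  set b : GaussianInt := c * pp ^ K + star z * qq ^ (3 * K) with hb
  have hsb : star b = z * pp ^ (3 * K) + qq * (c * qq ^ k) := by
    simp only [hb, star_add, star_mul, star_pow, star_natCast, star_star, star_pp, star_qq, hK]
    ring
  have hcop : IsCoprime (star b) qq := by
    rw [hsb]
    exact (hz.mul_left coprime_pp_qq.pow_left).add_mul_left_left _
  have hsb0 : star b ≠ 0 := ne_zero_of_coprime hcop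
  have hb0 : b ≠ 0 := by intro h; exact hsb0 (by simp [h])
  refine ⟨pp ^ K * b, mul_ne_zero (pow_ne_zero _ pp_ne) hb0,
    ⟨(z * star z * (pp * qq) ^ (2 * K) - c ^ 2, pp ^ K * star b),
      coprime_pp_qq.pow_left.mul_left hcop⟩, ?_⟩
  have h1 := jj_ne_zero hsb0
  have hP := jj_pp_ne
  have hQ := jj_qq_ne
  have e1 : jj (star b) = jj z * (jj pp ^ K) ^ 3 + c * jj qq ^ K := by
    rw [hsb]; simp only [map_add, map_mul, map_pow, map_natCast, hK]; ring
  have e2 : jj b = c * jj pp ^ K + jj (star z) * (jj qq ^ K) ^ 3 := by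
    rw [hb]; simp only [map_add, map_mul, map_pow, map_natCast]; ring
  have e3 : (jj pp * jj qq) ^ (2 * K) = (jj pp ^ K) ^ 2 * (jj qq ^ K) ^ 2 := by ring
  simp only [rot, Idx.el, five_eq, star_mul, star_pow, star_pp, map_mul, map_pow, map_sub,
    map_natCast, nsmul_eq_mul, e3]
  have hu : jj pp ^ K ≠ 0 := pow_ne_zero _ hP
  have hv : jj qq ^ K ≠ 0 := pow_ne_zero _ hQ
  generalize jj pp ^ K = u at *
  generalize jj qq ^ K = v at *
  field_simp
  rw [e1, e2]
  ring

lemma van_refine {ψ : X} {N : GaussianInt} (hN : IsCoprime N qq) (k : ℕ)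
    (h1 : Van ψ (jj N * jj pp ^ k)⁻¹) (h2 : ψ (five k) = 0) :
    Van ψ ((jj N * jj pp ^ k)⁻¹ / jj qq ^ k) := by
  intro w
  have hc : IsCoprime (pp ^ k * N) (qq ^ k) :=
    (coprime_pp_qq.pow_left.mul_left hN).pow_right
  obtain ⟨x, y, hxy⟩ := hc
  set e := w * x * pp ^ k with he
  have htr : e + star e = ((2 * e.re : ℤ) : GaussianInt) := by
    ext <;> simp [two_mul]
  have hw : w = ((2 * e.re : ℤ) : GaussianInt) * N + qq ^ k * (w * y - star (w * x) * N) := by
    rw [← htr, he, star_mul, star_pow, star_pp]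
    linear_combination (-w) * hxy
  have hN0 := jj_ne_zero (ne_zero_of_coprime hN)
  have hu : jj pp ^ k ≠ 0 := pow_ne_zero _ jj_pp_ne
  have hv : jj qq ^ k ≠ 0 := pow_ne_zero _ jj_qq_ne
  have : (jj N * jj pp ^ k)⁻¹ / jj qq ^ k * jj w =
      (2 * e.re : ℤ) • five k + (jj N * jj pp ^ k)⁻¹ * jj (w * y - star (w * x) * N) := by
    conv_lhs => rw [hw]
    rw [map_add, map_mul, map_mul, map_pow, map_intCast, five_eq, zsmul_eq_mul]
    field_simp
  rw [this, map_add, map_zsmul, h2, h1]; simp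

end Pool.Agent.MP_fc94d9_co
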