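import Pool.Agent.MP_fc94d9_co.ListPred

set_option autoImplicit false

open MeasureTheory Filter Topology Set

noncomputable section

namespace Pool.Agent.MP_fc94d9_co

/-- Characters that are continuous on `m ℤ[i][1/(2-i)]` for some nonzero `m`. -/
def Ycond (θ : X) : Prop :=
  ∃ m : GaussianInt, m ≠ 0 ∧ ∃ ξ : ℂ, ∀ e : ℕ, Van (θ - chi ξ) (jj m / jj qq ^ e)

/-- `1 + j i`. -/
def aa (j : ℕ) : GaussianInt := ⟨1, j⟩

lemma aa_ne (j : ℕ) : aa j ≠ 0 := by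
  intro h; have := congrArg Zsqrtd.re h; simp [aa] at this

lemma star_aa_ne (j : ℕ) : star (aa j) ≠ 0 := by simpa using aa_ne j

/-- `2 (j - j') i`. -/
def mm (j j' : ℕ) : GaussianInt := ⟨0, 2 * ((j : ℤ) - j')⟩

lemma mm_ne {j j' : ℕ} (h : j ≠ j') : mm j j' ≠ 0 := by
  intro h0; have := congrArg Zsqrtd.im h0; simp [mm] at this; omega

lemma rot_aa_sub (j j' : ℕ) :
    rot (aa j) - rot (aa j') = jj (mm j j') / (jj (star (aa j)) * jj (star (aa j'))) := by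
  have h1 := jj_ne_zero (star_aa_ne j)
  have h2 := jj_ne_zero (star_aa_ne j')
  have : mm j j' = aa j * star (aa j') - aa j' * star (aa j) := by
    ext <;> simp [mm, aa] <;> ring
  rw [this, rot, rot, map_sub, map_mul, map_mul]
  field_simp

lemma norm_aa_le {j H : ℕ} (h : j < H) : ‖(aa j : ℂ)‖ ≤ H := by
  have h1 := norm_coe_sq (aa j)
  have h2 : ((aa j).norm : ℝ) = 1 + (j : ℝ) ^ 2 := by simp [aa, Zsqrtd.norm]; ring
  have h3 : (j : ℝ) + 1 ≤ H := by exact_mod_cast h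
  have h4 : (0 : ℝ) ≤ j := by positivity
  apply le_of_sq_le_sq _ (by positivity)
  nlinarith

lemma norm_mm_le {j j' H : ℕ} (h : j < H) (h' : j' < H) : ‖(mm j j' : ℂ)‖ ≤ 2 * H := by
  have h1 := norm_coe_sq (mm j j')
  have h2 : ((mm j j').norm : ℝ) = 4 * ((j : ℝ) - j') ^ 2 := by simp [mm, Zsqrtd.norm]; ring
  have h3 : (j : ℝ) < H := by exact_mod_cast h
  have h3' : (j' : ℝ) < H := by exact_mod_cast h'
  have h4 : (0 : ℝ) ≤ j := by positivity
  have h4' : (0 : ℝ) ≤ j' := by positivity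
  apply le_of_sq_le_sq _ (by positivity)
  nlinarith

lemma S_sub_left (u u' : G) (θ : X) : S (u - u') θ = S u θ - S u' θ := by
  ext z; simp [sub_mul]

lemma van_of_S {θ : X} {u γ : G} {ξ : ℂ} (hu : u ≠ 0) :
    Van (S u θ - chi ξ) γ ↔ Van (θ - chi (ξ / io u)) (u * γ) := by
  rw [← van_S, S_sub, S_chi, div_mul_cancel₀ _ (io_ne_zero hu)]

lemma van_diff {θ : X} {u u' γ : G} {ξ ξ' : ℂ} (hd : u - u' ≠ 0)
    (h : Van (S u θ - chi ξ - (S u' θ - chi ξ')) γ) :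
    Van (θ - chi ((ξ - ξ') / io (u - u'))) ((u - u') * γ) := by
  rw [← van_of_S hd, S_sub_left, chi_sub]
  convert h using 1
  abel

lemma rot_aa_sub_ne {j j' : ℕ} (h : j ≠ j') : rot (aa j) - rot (aa j') ≠ 0 := by
  rw [rot_aa_sub]
  exact div_ne_zero (jj_ne_zero (mm_ne h))
    (mul_ne_zero (jj_ne_zero (star_aa_ne j)) (jj_ne_zero (star_aa_ne j')))

lemma key_disjoint {θ : X} {ξ ξ' : ℂ} {j j' H k r : ℕ} {γ : G} (hγ : γ ≠ 0)
    (hξ : ‖ξ‖ ≤ 1 / 4) (hξ' : ‖ξ'‖ ≤ 1 / 4) (hj : j < H) (hj' : j' < H) (hne : j ≠ j')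
    (hs1 : (H : ℝ) ^ 3 * ‖io (γ * jj qq ^ k)‖ < 1) (hs2 : 4 * H ^ 4 ≤ 5 ^ r)
    (h1 : Van (S (rot (aa j)) θ - chi ξ) (γ * jj qq ^ k))
    (h3 : Van (S (rot (aa j)) θ - chi ξ - (S (rot (aa j')) θ - chi ξ')) (γ / jj qq ^ r)) :
    Van (S (rot (aa j)) θ - chi ξ) γ := by
  set a := aa j with ha
  set a' := aa j' with ha'
  set m := mm j j' with hm
  have ha0 : jj a ≠ 0 := jj_ne_zero (aa_ne j)
  have hb0 : jj (star a) ≠ 0 := jj_ne_zero (star_aa_ne j)
  have hb0' : jj (star a') ≠ 0 := jj_ne_zero (star_aa_ne j')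
  have hm0 : jj m ≠ 0 := jj_ne_zero (mm_ne hne)
  have hq := jj_qq_ne
  have hu : rot a ≠ 0 := div_ne_zero ha0 hb0
  have hd := rot_aa_sub_ne hne
  have V1 := (van_of_S hu).1 h1
  have V2 := van_diff hd h3
  rw [van_of_S hu]
  set ξ1 := ξ / io (rot a) with hξ1
  set ξ2 := (ξ - ξ') / io (rot a - rot a') with hξ2
  rw [rot_aa_sub] at V2
  have hH : (1 : ℝ) ≤ H := by exact_mod_cast (Nat.zero_lt_of_lt hj)
  have na := norm_aa_le hj
  have na' := norm_aa_le hj'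
  have nm := norm_mm_le hj hj'
  have nm1 := one_le_norm_coe (mm_ne hne)
  have heq : ξ2 - ξ1 = 0 := by
    have W1 : Van (θ - chi ξ1) (jj (a * m) * (γ * jj qq ^ k)) :=
      V1.of_eq (star a * m) (by simp only [rot, map_mul]; field_simp)
    have W2 : Van (θ - chi ξ2) (jj (a * m) * (γ * jj qq ^ k)) :=
      V2.of_eq (star a * star a' * a * qq ^ (k + r))
        (by simp only [map_mul, map_pow, ← ha, ← ha', ← hm]; field_simp; ring)
    have W3 : Van (chi (ξ2 - ξ1)) (jj (a * m) * (γ * jj qq ^ k)) := by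
      have := W1.sub W2
      rw [chi_sub]; convert this using 1; abel
    refine W3.chi_eq_zero (mul_ne_zero (jj_ne_zero (mul_ne_zero (aa_ne j) (mm_ne hne)))
      (mul_ne_zero hγ (pow_ne_zero _ hq))) ?_
    have n1 : ‖ξ1‖ ≤ 1 / 4 := by rw [hξ1, norm_div, norm_io_rot (aa_ne j), div_one]; exact hξ
    have n2 : ‖ξ2‖ * ‖(m : ℂ)‖ ≤ 1 / 2 * H ^ 2 := by
      rw [hξ2, rot_aa_sub, norm_div, map_div₀, map_mul, io_jj, io_jj, io_jj, norm_div, norm_mul,
        norm_coe_star, norm_coe_star, div_div_eq_mul_div, div_mul_cancel₀ _ (by linarith)]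
      have : ‖ξ - ξ'‖ ≤ 1 / 2 := (norm_sub_le _ _).trans (by linarith)
      rw [sq]
      gcongr
    rw [map_mul io, norm_mul, io_jj, map_mul, norm_mul]
    have n3 : ‖ξ2 - ξ1‖ * ‖(m : ℂ)‖ ≤ H ^ 2 := by
      have := norm_sub_le ξ2 ξ1
      nlinarith [norm_nonneg ξ1, norm_nonneg ξ2]
    have n4 : ‖ξ2 - ξ1‖ * ‖(m : ℂ)‖ * ‖(a : ℂ)‖ ≤ H ^ 2 * H := by gcongr
    calc ‖ξ2 - ξ1‖ * (‖(a : ℂ)‖ * ‖(m : ℂ)‖ * ‖io (γ * jj qq ^ k)‖)
        = (‖ξ2 - ξ1‖ * ‖(m : ℂ)‖ * ‖(a : ℂ)‖) * ‖io (γ * jj qq ^ k)‖ := by ring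
      _ ≤ (H ^ 2 * H) * ‖io (γ * jj qq ^ k)‖ := by gcongr
      _ < 1 := by rw [← pow_succ]; exact hs1
  rw [sub_eq_zero.1 heq] at V2
  obtain ⟨v, g, hvg, hcop, hv⟩ := exists_factor_qq (mul_ne_zero (star_aa_ne j) (mm_ne hne))
  have hvr : v ≤ r := by
    have e1 : (((star a * m).norm : ℤ) : ℝ) ≤ 4 * H ^ 4 := by
      rw [← norm_coe_sq, map_mul, norm_mul, norm_coe_star]
      calc (‖(a : ℂ)‖ * ‖(m : ℂ)‖) ^ 2 ≤ (H * (2 * H)) ^ 2 := by gcongr
        _ = _ := by ring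
    have e2 : ((5 : ℝ)) ^ v ≤ ((star a * m).norm : ℝ) := by exact_mod_cast hv
    have e3 : (4 : ℝ) * H ^ 4 ≤ 5 ^ r := by exact_mod_cast hs2
    exact (pow_le_pow_iff_right₀ (by norm_num : (1 : ℝ) < 5)).1 (e2.trans (e1.trans e3))
  obtain ⟨t, rfl⟩ := Nat.exists_eq_add_of_le hvr
  refine Van.of_coprime (a := qq ^ k) (b := g) hcop.symm.pow_left ?_ ?_
  · rw [map_pow, mul_assoc]; exact V1
  · refine V2.of_eq (star a' * a * star a * qq ^ t) ?_
    have e : jj g = jj (star a) * jj m / jj qq ^ v := by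
      rw [← map_mul, hvg, map_mul, map_pow]; field_simp
    simp only [rot, map_mul, map_pow, ← ha, ← ha', ← hm, e]
    field_simp
    ring

lemma card_torsion_pairs (n : ℕ) (hn : n ≠ 0) (s : Finset (T × T)) (x0 : T × T)
    (h : ∀ x ∈ s, n • (x - x0) = 0) : s.card ≤ n ^ 2 := by
  classical
  have hfin : {x : T | n • x = 0}.Finite := AddCircle.finite_torsion 1 (Nat.pos_of_ne_zero hn)
  have hcard : hfin.toFinset.card ≤ n := by
    have := AddCircle.card_torsion_le_of_isSMulRegular (1 : ℝ) n hn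
      (by intro x y hxy
          simpa [hn] using hxy)
    rw [hfin.encard_eq_coe_toFinset_card] at this
    exact_mod_cast this
  have : s.card ≤ (hfin.toFinset ×ˢ hfin.toFinset).card := by
    apply Finset.card_le_card_of_injOn (fun x => x - x0)
    · intro x hx
      have := h x hx
      simp only [Finset.coe_product, Set.Finite.coe_toFinset, mem_prod, mem_ofPred_eq]
      exact ⟨congrArg Prod.fst this, congrArg Prod.snd this⟩
    · intro x _ y _ hxy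
      simpa using hxy
  rw [Finset.card_product] at this
  calc _ ≤ _ := this
    _ ≤ n * n := Nat.mul_le_mul hcard hcard
    _ = _ := by ring

/-- The rotation `(2 + i) / (2 - i)`. -/
def tau : G := jj pp / jj qq

lemma tau_ne : tau ≠ 0 := div_ne_zero jj_pp_ne jj_qq_ne

lemma norm_io_tau : ‖io tau‖ = 1 := by
  have := norm_io_rot pp_ne
  rwa [rot, star_pp] at this

lemma norm_io_tau_zpow (j : ℤ) : ‖io (tau ^ j)‖ = 1 := by
  rw [map_zpow₀, norm_zpow, norm_io_tau, one_zpow]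

lemma TInv.tau_zpow {ν : Measure X} (hT : TInv ν) (j : ℤ) :
    MeasurePreserving (S (tau ^ j)) ν ν := by
  rcases Int.eq_nat_or_neg j with ⟨n, rfl | rfl⟩
  · have := hT (pp ^ n) (pow_ne_zero _ pp_ne)
    rwa [rot, star_pow, star_pp, map_pow, map_pow, ← div_pow, ← zpow_natCast] at this
  · have := hT (qq ^ n) (pow_ne_zero _ qq_ne)
    rwa [rot, star_pow, star_qq, map_pow, map_pow, ← div_pow, ← inv_div, inv_pow, ← zpow_natCast,
      ← zpow_neg] at this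

end Pool.Agent.MP_fc94d9_co
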