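import Pool.Agent.MP_fc94d9_co.Digits

set_option autoImplicit false

open MeasureTheory Filter Topology Set

noncomputable section

namespace Pool.Agent.MP_fc94d9_co

/-- Restriction of a character to the local ring at `2 - i`. -/
def res (θ : X) : Idx → T := fun i => θ i.el

lemma continuous_res : Continuous res := continuous_pi fun i => continuous_eval i.el

lemma measurable_res : Measurable res := continuous_res.measurable

/-- The sigma-algebra of the restriction. -/
@[reducible] def mA : MeasurableSpace X := MeasurableSpace.comap res inferInstance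

lemma mA_le : mA ≤ (inferInstance : MeasurableSpace X) := measurable_res.comap_le

lemma measurable_mA_eval (i : Idx) : Measurable[mA] (fun θ : X => θ i.el) :=
  (measurable_pi_apply i).comp (comap_measurable res)

lemma measurable_mA_two : Measurable[mA] (fun θ : X => θ 2) := by
  have := measurable_mA_eval ⟨(2, 1), isCoprime_one_left⟩
  have e : Idx.el ⟨(2, 1), isCoprime_one_left⟩ = 2 := by
    simp only [Idx.el, map_one, div_one]; exact map_ofNat jj 2
  rwa [e] at this

/-- Indicator of a cell. -/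
def ind (k d : ℕ) : X → ℝ := fun θ => if dig k θ = d then 1 else 0

lemma measurable_ind (k d : ℕ) : Measurable (ind k d) :=
  Measurable.ite (measurable_dig k (measurableSet_singleton d)) measurable_const measurable_const

lemma ind_nonneg (k d : ℕ) (θ : X) : 0 ≤ ind k d θ := by unfold ind; split_ifs <;> norm_num

lemma norm_ind_le (k d : ℕ) (θ : X) : ‖ind k d θ‖ ≤ 1 := by unfold ind; split_ifs <;> norm_num

lemma sum_ind_smul {F : Type*} [AddCommGroup F] [Module ℝ F] (k : ℕ) (θ : X) (f : ℕ → F) :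
    ∑ d ∈ Finset.range (MM k), ind k d θ • f d = f (dig k θ) := by
  simp only [ind, ite_smul, one_smul, zero_smul]
  rw [Finset.sum_ite_eq, if_pos (Finset.mem_range.2 (dig_lt k θ))]

variable (ν : Measure X) [IsFiniteMeasure ν]

lemma integrable_ind (k d : ℕ) : Integrable (ind k d) ν :=
  integrable_of_bdd (measurable_ind k d).aestronglyMeasurable 1 (norm_ind_le k d)

/-- Conditional probability of a cell. -/
def ww (k d : ℕ) : X → ℝ := ν[ind k d | mA]

omit [IsFiniteMeasure ν] in
lemma sm_ww (k d : ℕ) : StronglyMeasurable[mA] (ww ν k d) := stronglyMeasurable_condExp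

omit [IsFiniteMeasure ν] in
lemma measurable_ww (k d : ℕ) : Measurable (ww ν k d) :=
  ((sm_ww ν k d).mono mA_le).measurable

omit [IsFiniteMeasure ν] in
lemma ww_nonneg (k d : ℕ) : 0 ≤ᵐ[ν] ww ν k d :=
  condExp_nonneg (Eventually.of_forall (ind_nonneg k d))

lemma sum_ww (k : ℕ) : ∀ᵐ θ ∂ν, ∑ d ∈ Finset.range (MM k), ww ν k d θ = 1 := by
  have h1 := condExp_finsetSum (μ := ν) (s := Finset.range (MM k)) (f := fun d => ind k d)
    (fun d _ => integrable_ind ν k d) mA
  have h2 : (∑ d ∈ Finset.range (MM k), ind k d) = fun _ => (1 : ℝ) := by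
    funext θ
    have := sum_ind_smul k θ (fun _ => (1 : ℝ))
    simpa using this
  rw [h2, condExp_const mA_le] at h1
  filter_upwards [h1] with θ h
  simpa [ww] using h.symm

/-- The full-measure set where the conditional probabilities form a probability vector. -/
def Good (k : ℕ) : Set X :=
  {θ | (∀ d, 0 ≤ ww ν k d θ) ∧ ∑ d ∈ Finset.range (MM k), ww ν k d θ = 1}

lemma ae_good (k : ℕ) : ∀ᵐ θ ∂ν, θ ∈ Good ν k := by
  filter_upwards [ae_all_iff.2 (ww_nonneg ν k), sum_ww ν k] with θ h1 h2 using ⟨h1, h2⟩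

omit [IsFiniteMeasure ν] in
lemma measurableSet_good (k : ℕ) : MeasurableSet (Good ν k) := by
  have h1 : MeasurableSet {θ | ∀ d, 0 ≤ ww ν k d θ} := by
    rw [ofPred_forall]
    exact MeasurableSet.iInter fun d => measurableSet_le measurable_const (measurable_ww ν k d)
  exact h1.inter (measurableSet_eq_fun
    (Finset.measurable_sum _ fun d _ => measurable_ww ν k d) measurable_const)

omit [IsFiniteMeasure ν] in
lemma Good.le_one {k : ℕ} {θ : X} (h : θ ∈ Good ν k) {d : ℕ} (hd : d < MM k) :
    ww ν k d θ ≤ 1 := by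
  rw [← h.2]
  exact Finset.single_le_sum (fun i _ => h.1 i) (Finset.mem_range.2 hd)

lemma norm_ww_le {k d : ℕ} (hd : d < MM k) : ∀ᵐ θ ∂ν, ‖ww ν k d θ‖ ≤ 1 := by
  filter_upwards [ae_good ν k] with θ h
  rw [Real.norm_eq_abs, abs_of_nonneg (h.1 d)]
  exact Good.le_one ν h hd

lemma integral_ind_smul {F : Type*} [NormedAddCommGroup F] [NormedSpace ℝ F] [CompleteSpace F]
    (k d : ℕ) {g : X → F} (hg : StronglyMeasurable[mA] g) (hC : ∀ᵐ θ ∂ν, ‖g θ‖ ≤ 1) :
    ∫ θ, ind k d θ • g θ ∂ν = ∫ θ, ww ν k d θ • g θ ∂ν := by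
  have hi : Integrable (ind k d • g) ν := by
    refine Integrable.of_bound ((measurable_ind k d).aestronglyMeasurable.smul
      (hg.mono mA_le).aestronglyMeasurable) 1 ?_
    filter_upwards [hC] with θ h
    rw [Pi.smul_apply', norm_smul]
    exact mul_le_one₀ (norm_ind_le k d θ) (norm_nonneg _) h
  have h1 := condExp_smul_of_aestronglyMeasurable_right (m := mA) (integrable_ind ν k d) hi
    hg.aestronglyMeasurable
  have h2 := integral_congr_ae h1
  rw [integral_condExp mA_le] at h2
  exact h2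

/-- Conditional probability of the own cell. -/
def WW (k : ℕ) (θ : X) : ℝ := ww ν k (dig k θ) θ

omit [IsFiniteMeasure ν] in
lemma WW_eq (k : ℕ) (θ : X) :
    WW ν k θ = ∑ d ∈ Finset.range (MM k), ind k d θ • ww ν k d θ :=
  (sum_ind_smul k θ (fun d => ww ν k d θ)).symm

omit [IsFiniteMeasure ν] in
lemma measurable_WW (k : ℕ) : Measurable (WW ν k) := by
  have : WW ν k = fun θ => ∑ d ∈ Finset.range (MM k), ind k d θ • ww ν k d θ :=
    funext (WW_eq ν k)
  rw [this]
  exact Finset.measurable_sum _ fun d _ => (measurable_ind k d).smul (measurable_ww ν k d)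

lemma integrable_ww_sq {k d : ℕ} (hd : d < MM k) : Integrable (fun θ => ww ν k d θ ^ 2) ν := by
  refine Integrable.of_bound ((measurable_ww ν k d).pow_const 2).aestronglyMeasurable 1 ?_
  filter_upwards [norm_ww_le ν hd] with θ h
  rw [norm_pow]; exact pow_le_one₀ (norm_nonneg _) h

lemma integral_WW (k : ℕ) :
    ∫ θ, WW ν k θ ∂ν = ∫ θ, ∑ d ∈ Finset.range (MM k), ww ν k d θ ^ 2 ∂ν := by
  simp only [WW_eq]
  rw [integral_finsetSum, integral_finsetSum]
  · refine Finset.sum_congr rfl fun d hd => ?_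
    rw [integral_ind_smul ν k d (sm_ww ν k d) (norm_ww_le ν (Finset.mem_range.1 hd))]
    simp [sq]
  · exact fun d hd => integrable_ww_sq ν (Finset.mem_range.1 hd)
  · intro d hd
    refine Integrable.of_bound ((measurable_ind k d).smul
      (measurable_ww ν k d)).aestronglyMeasurable 1 ?_
    filter_upwards [norm_ww_le ν (Finset.mem_range.1 hd)] with θ h
    rw [norm_smul]
    exact mul_le_one₀ (norm_ind_le k d θ) (norm_nonneg _) h

lemma norm_phi_le_one_c (hT : TInv ν) {z : GaussianInt} (hz : IsCoprime z qq) (k c : ℕ) :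
    ‖phi ν (jj z)‖ ≤ ∫ θ, ‖∑ d ∈ Finset.range (MM (k + 1)),
      (ww ν (k + 1) d θ : ℂ) * om (MM (k + 1)) c d‖ ∂ν := by
  obtain ⟨a, ha, i, hi⟩ := host_identity hz k c
  set K := k + 1
  rw [← phi_mul (hT a ha), hi]
  set g : X → ℂ := fun θ => E (θ i.el) * E ((((c : ℝ) * L 0 (θ 2) / MM K : ℝ)) : T) with hg
  have hgm : Measurable[mA] g := by
    have h1 : Measurable[mA] (fun θ : X => E (θ i.el)) :=
      continuous_E.measurable.comp (measurable_mA_eval i)
    have h2 : Measurable (fun t : T => E ((((c : ℝ) * L 0 t / MM K : ℝ)) : T)) := by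
      refine continuous_E.measurable.comp ((AddCircle.continuous_mk' 1).measurable.comp ?_)
      exact ((measurable_L 0).const_mul _).div_const _
    exact h1.mul (h2.comp measurable_mA_two)
  have hg1 : ∀ θ, ‖g θ‖ = 1 := by intro θ; simp [hg]
  have hom : ∀ d, ‖om (MM K) c d‖ = 1 := by intro d; simp [om]
  have hpt : ∀ θ : X, E (θ (c • five K + i.el)) =
      ∑ d ∈ Finset.range (MM K), ind K d θ • (om (MM K) c d * g θ) := by
    intro θ
    rw [sum_ind_smul K θ (fun d => om (MM K) c d * g θ), map_add, map_nsmul, E_add,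
      ← coe_L 0 (θ (five K)), ← coe_nat_mul, L_five, hg, om]
    have : (c : ℝ) * ((dig K θ + L 0 (θ 2)) / MM K) =
        (c : ℝ) * dig K θ / MM K + (c : ℝ) * L 0 (θ 2) / MM K := by ring
    rw [this, AddCircle.coe_add, E_add]; ring
  have hsm : ∀ d, StronglyMeasurable[mA] (fun θ => om (MM K) c d * g θ) := fun d =>
    (hgm.const_mul _).stronglyMeasurable
  have hb : ∀ d θ, ‖om (MM K) c d * g θ‖ ≤ 1 := by intro d θ; rw [norm_mul, hom, hg1]; simp
  have e : phi ν (c • five K + i.el) =
      ∫ θ, ∑ d ∈ Finset.range (MM K), ww ν K d θ • (om (MM K) c d * g θ) ∂ν := by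
    unfold phi
    simp only [hpt]
    rw [integral_finsetSum, integral_finsetSum]
    · exact Finset.sum_congr rfl fun d _ =>
        integral_ind_smul ν K d (hsm d) (Eventually.of_forall (hb d))
    · intro d hd
      refine Integrable.of_bound ((measurable_ww ν K d).aestronglyMeasurable.smul
        ((hsm d).mono mA_le).aestronglyMeasurable) 1 ?_
      filter_upwards [norm_ww_le ν (Finset.mem_range.1 hd)] with θ h
      rw [norm_smul]
      exact mul_le_one₀ h (norm_nonneg _) (hb d θ)
    · intro d _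
      refine Integrable.of_bound ((measurable_ind K d).aestronglyMeasurable.smul
        ((hsm d).mono mA_le).aestronglyMeasurable) 1 (Eventually.of_forall fun θ => ?_)
      rw [norm_smul]
      exact mul_le_one₀ (norm_ind_le K d θ) (norm_nonneg _) (hb d θ)
  rw [e]
  refine (norm_integral_le_integral_norm _).trans (le_of_eq ?_)
  congr 1
  funext θ
  have : ∑ d ∈ Finset.range (MM K), ww ν K d θ • (om (MM K) c d * g θ) =
      (∑ d ∈ Finset.range (MM K), (ww ν K d θ : ℂ) * om (MM K) c d) * g θ := by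
    rw [Finset.sum_mul]
    refine Finset.sum_congr rfl fun d _ => ?_
    rw [Complex.real_smul]; ring
  rw [this, norm_mul, hg1, mul_one]

lemma host_bound (hT : TInv ν) {z : GaussianInt} (hz : IsCoprime z qq) (k : ℕ) {t : ℝ}
    (ht : 0 < t) :
    ‖phi ν (jj z)‖ ≤ t * ν.real univ / 2 + (∫ θ, WW ν (k + 1) θ ∂ν) / (2 * t) := by
  set K := k + 1
  have hM : (0 : ℝ) < MM K := by exact_mod_cast MM_pos K
  set F : ℕ → X → ℝ := fun c θ =>
    ‖∑ d ∈ Finset.range (MM K), (ww ν K d θ : ℂ) * om (MM K) c d‖ with hF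
  have hFi : ∀ c, Integrable (F c) ν := by
    intro c
    refine Integrable.norm (integrable_finsetSum _ fun d _ => ?_)
    exact (Integrable.ofReal (integrable_condExp)).mul_const _
  have h1 : (MM K : ℝ) * ‖phi ν (jj z)‖ ≤ ∫ θ, ∑ c ∈ Finset.range (MM K), F c θ ∂ν := by
    rw [integral_finsetSum _ fun c _ => hFi c]
    have := Finset.sum_le_sum (s := Finset.range (MM K))
      fun c _ => norm_phi_le_one_c ν hT hz k c
    simpa using this
  have hsq : Integrable (fun θ => ∑ d ∈ Finset.range (MM K), ww ν K d θ ^ 2) ν :=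
    integrable_finsetSum _ fun d hd => integrable_ww_sq ν (Finset.mem_range.1 hd)
  have h2 : ∫ θ, ∑ c ∈ Finset.range (MM K), F c θ ∂ν ≤
      ∫ θ, (MM K * (t / 2) + MM K / (2 * t) * ∑ d ∈ Finset.range (MM K), ww ν K d θ ^ 2) ∂ν := by
    apply integral_mono (integrable_finsetSum _ fun c _ => hFi c)
      ((integrable_const _).add (hsq.const_mul _))
    intro θ
    have hp := parseval (MM K) (fun d => ww ν K d θ)
    have : ∀ c ∈ Finset.range (MM K), F c θ ≤ t / 2 + F c θ ^ 2 / (2 * t) := by
      intro c _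
      have : 0 ≤ (F c θ - t) ^ 2 / (2 * t) := by positivity
      have e : (F c θ - t) ^ 2 / (2 * t) = t / 2 + F c θ ^ 2 / (2 * t) - F c θ := by
        field_simp; ring
      linarith
    refine (Finset.sum_le_sum this).trans (le_of_eq ?_)
    have hp' : ∑ c ∈ Finset.range (MM K), F c θ ^ 2 / (2 * t) =
        (MM K * ∑ d ∈ Finset.range (MM K), ww ν K d θ ^ 2) / (2 * t) := by
      rw [← Finset.sum_div, ← hp]
    rw [Finset.sum_add_distrib, hp']
    simp only [Finset.sum_const, Finset.card_range, nsmul_eq_mul, Pi.add_apply]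
    ring
  rw [integral_add (integrable_const _) (hsq.const_mul _), integral_const, integral_const_mul,
    ← integral_WW] at h2
  have h3 := h1.trans h2
  simp only [smul_eq_mul] at h3
  have : (MM K : ℝ) * ‖phi ν (jj z)‖ ≤
      MM K * (t * ν.real univ / 2 + (∫ θ, WW ν K θ ∂ν) / (2 * t)) := by
    refine h3.trans (le_of_eq ?_); ring
  exact le_of_mul_le_mul_left this hM

lemma WW_mono (k : ℕ) : ∀ᵐ θ ∂ν, WW ν (k + 1) θ ≤ WW ν k θ := by
  have h : ∀ d, ww ν (k + 1) d ≤ᵐ[ν] ww ν k (d % MM k) := by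
    intro d
    refine condExp_mono (integrable_ind ν _ _) (integrable_ind ν _ _)
      (Eventually.of_forall fun θ => ?_)
    unfold ind
    split_ifs with h1 h2 h2
    · exact le_rfl
    · exact absurd (by rw [dig_mod, h1]) h2
    · exact zero_le_one
    · exact le_rfl
  filter_upwards [ae_all_iff.2 h] with θ hθ
  unfold WW
  rw [dig_mod k θ]
  exact hθ _

/-- The set of characters predicted at all depths with conditional probability at least `c`. -/
def E0 (c : ℝ) : Set X := {θ | ∀ k, c ≤ WW ν (k + 1) θ}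

omit [IsFiniteMeasure ν] in
lemma measurableSet_E0 (c : ℝ) : MeasurableSet (E0 ν c) := by
  rw [E0, ofPred_forall]
  exact MeasurableSet.iInter fun k => measurableSet_le measurable_const (measurable_WW ν _)

lemma exists_E0 (hT : TInv ν) {z : GaussianInt} (hz : IsCoprime z qq)
    (hφ : phi ν (jj z) ≠ 0) : ∃ c : ℝ, 0 < c ∧ ν (E0 ν c) ≠ 0 := by
  set m := ν.real univ with hm
  have hm0 : 0 ≤ m := measureReal_nonneg
  have hp : 0 < ‖phi ν (jj z)‖ := norm_pos_iff.2 hφ
  set t := ‖phi ν (jj z)‖ / (m + 1) with ht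
  have ht0 : 0 < t := by positivity
  set a := t * ‖phi ν (jj z)‖ with ha
  have ha0 : 0 < a := by positivity
  have hW : ∀ k, a ≤ ∫ θ, WW ν (k + 1) θ ∂ν := by
    intro k
    have h1 := host_bound ν hT hz k ht0
    have h2 : t * m ≤ ‖phi ν (jj z)‖ := by
      rw [ht, div_mul_eq_mul_div, div_le_iff₀ (by positivity)]; nlinarith
    have h3 : ‖phi ν (jj z)‖ / 2 ≤ (∫ θ, WW ν (k + 1) θ ∂ν) / (2 * t) := by linarith
    rw [div_le_div_iff₀ (by norm_num) (by positivity)] at h3
    nlinarith
  set c := a / (2 * (m + 1)) with hc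
  have hc0 : 0 < c := by positivity
  have hcm : c * m ≤ a / 2 := by
    rw [hc, div_mul_eq_mul_div, div_le_div_iff₀ (by positivity) (by norm_num)]; nlinarith
  have hA : ∀ k, MeasurableSet {θ | c ≤ WW ν (k + 1) θ} := fun k =>
    measurableSet_le measurable_const (measurable_WW ν _)
  have hlow : ∀ k, a / 2 ≤ ν.real {θ | c ≤ WW ν (k + 1) θ} := by
    intro k
    have hb : ∀ᵐ θ ∂ν, ‖WW ν (k + 1) θ‖ ≤ 1 := by
      filter_upwards [ae_good ν (k + 1)] with θ h
      rw [Real.norm_eq_abs, WW, abs_of_nonneg (h.1 _)]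
      exact Good.le_one ν h (dig_lt _ _)
    have h1 : ∫ θ, WW ν (k + 1) θ ∂ν ≤
        ∫ θ, (c + {θ | c ≤ WW ν (k + 1) θ}.indicator 1 θ) ∂ν := by
      apply integral_mono_ae (Integrable.of_bound (measurable_WW ν _).aestronglyMeasurable 1 hb)
        ((integrable_const _).add ((integrable_const 1).indicator (hA k)))
      filter_upwards [hb] with θ h
      by_cases hθ : θ ∈ {θ | c ≤ WW ν (k + 1) θ}
      · simp only [Pi.add_apply, indicator_of_mem hθ]
        have := (le_abs_self _).trans h
        linarith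
      · simp only [Pi.add_apply, indicator_of_notMem hθ]
        have : WW ν (k + 1) θ < c := not_le.1 hθ
        linarith
    rw [integral_add (integrable_const _) ((integrable_const 1).indicator (hA k)),
      integral_const, integral_indicator_one (hA k)] at h1
    have := hW k
    simp only [smul_eq_mul] at h1
    nlinarith
  let Fk : ℕ → Set X := fun n => {θ | ∀ k ≤ n, c ≤ WW ν (k + 1) θ}
  have hFm : ∀ n, MeasurableSet (Fk n) := by
    intro n
    have : Fk n = ⋂ k, ⋂ (_ : k ≤ n), {θ | c ≤ WW ν (k + 1) θ} := by ext; simp [Fk]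
    rw [this]
    exact MeasurableSet.iInter fun k => MeasurableSet.iInter fun _ => hA k
  have hFa : Antitone Fk := fun a b hab θ hθ k hk => hθ k (hk.trans hab)
  have hsub : ∀ n, {θ | c ≤ WW ν (n + 1) θ} ≤ᵐ[ν] Fk n := by
    intro n
    filter_upwards [ae_all_iff.2 (WW_mono ν)] with θ hθ h k hk
    have hanti : Antitone (fun k => WW ν k θ) := antitone_nat_of_succ_le hθ
    exact le_trans h (hanti (Nat.succ_le_succ hk))
  have hlim := tendsto_measure_iInter_atTop (μ := ν) (fun n => (hFm n).nullMeasurableSet) hFa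
    ⟨0, measure_ne_top _ _⟩
  have hlim2 : Tendsto (fun n => ν.real (Fk n)) atTop (𝓝 (ν.real (⋂ n, Fk n))) :=
    (ENNReal.tendsto_toReal (measure_ne_top _ _)).comp hlim
  have hge : a / 2 ≤ ν.real (⋂ n, Fk n) := by
    refine ge_of_tendsto' hlim2 fun n => (hlow n).trans ?_
    exact ENNReal.toReal_mono (measure_ne_top _ _) (measure_mono_ae (hsub n))
  have hE : (⋂ n, Fk n) = E0 ν c := by
    ext θ
    simp only [mem_iInter, Fk, E0, mem_ofPred_eq]
    exact ⟨fun h k => h k k le_rfl, fun h n k _ => h k⟩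
  refine ⟨c, hc0, fun h0 => ?_⟩
  rw [hE, Measure.real, h0] at hge
  simp at hge
  linarith

end Pool.Agent.MP_fc94d9_co
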