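import Pool.Agent.MP_fc94d9_co.Host

set_option autoImplicit false

open MeasureTheory Filter Topology Set

noncomputable section

namespace Pool.Agent.MP_fc94d9_co

/-- List prediction: among more than `l` characters of `K` that agree on `γ ℤ[i]` up to
frequencies that are `η`-close, two agree on `γ' ℤ[i]`. -/
def LP (K : Set X) (γ γ' : G) (η : ℝ) (l : ℕ) : Prop :=
  ∀ (s : Finset (T × T)) (θ : T × T → X) (ξ : T × T → ℂ), (∀ i ∈ s, θ i ∈ K) →
    (∀ i ∈ s, ∀ i' ∈ s, ‖ξ i - ξ i'‖ ≤ η) →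
    (∀ i ∈ s, ∀ i' ∈ s, Van (θ i - chi (ξ i) - (θ i' - chi (ξ i'))) γ) → l < s.card →
    ∃ i ∈ s, ∃ i' ∈ s, i ≠ i' ∧ Van (θ i - chi (ξ i) - (θ i' - chi (ξ i'))) γ'

lemma LP.rotate {K : Set X} {γ γ' : G} {η : ℝ} {l : ℕ} (h : LP K γ γ' η l) {u : G}
    (hu : ‖io u‖ = 1) : LP (S u ⁻¹' K) (u * γ) (u * γ') η l := by
  intro s θ ξ h1 h2 h3 h4
  have e : ∀ i i', S u (θ i) - chi (ξ i * io u) - (S u (θ i') - chi (ξ i' * io u)) =
      S u (θ i - chi (ξ i) - (θ i' - chi (ξ i'))) := by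
    intro i i'; simp only [S_sub, S_chi]
  obtain ⟨i, hi, i', hi', hne, hv⟩ := h s (fun i => S u (θ i)) (fun i => ξ i * io u) h1
    (fun i hi i' hi' => by rw [← sub_mul, norm_mul, hu, mul_one]; exact h2 i hi i' hi')
    (fun i hi i' hi' => by rw [e, van_S]; exact h3 i hi i' hi') h4
  exact ⟨i, hi, i', hi', hne, by rwa [e, van_S] at hv⟩

lemma LP.change {K : Set X} {γ γ' δ δ' : G} {η : ℝ} {l : ℕ} (h : LP K γ γ' η l)
    (h1 : ∀ ψ, Van ψ δ → Van ψ γ) (h2 : ∀ ψ, Van ψ δ → Van ψ γ' → Van ψ δ') :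
    LP K δ δ' η l := by
  intro s θ ξ a1 a2 a3 a4
  obtain ⟨i, hi, i', hi', hne, hv⟩ := h s θ ξ a1 a2
    (fun i hi i' hi' => h1 _ (a3 i hi i' hi')) a4
  exact ⟨i, hi, i', hi', hne, h2 _ (a3 i hi i' hi') hv⟩

lemma LP.iUnion {K : ℕ → Set X} {γ γ' : G} {η : ℝ} {l n : ℕ}
    (h : ∀ j < n, LP (K j) γ γ' η l) : LP (⋃ j ∈ Finset.range n, K j) γ γ' η (n * l) := by
  classical
  intro s θ ξ a1 a2 a3 a4
  have : ∀ i, ∃ j, i ∈ s → j ∈ Finset.range n ∧ θ i ∈ K j := by
    intro i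
    by_cases hi : i ∈ s
    · obtain ⟨j, hj, hj'⟩ := mem_iUnion₂.1 (a1 i hi)
      exact ⟨j, fun _ => ⟨hj, hj'⟩⟩
    · exact ⟨0, fun h => absurd h hi⟩
  choose f hf using this
  obtain ⟨j, hj, hc⟩ := Finset.exists_lt_card_fiber_of_mul_lt_card_of_maps_to
    (s := s) (t := Finset.range n) (f := f) (n := l) (fun i hi => (hf i hi).1) (by simpa using a4)
  have hs : ∀ i ∈ s.filter (fun i => f i = j), i ∈ s := fun i hi => (Finset.mem_filter.1 hi).1
  obtain ⟨i, hi, i', hi', hne, hv⟩ := h j (Finset.mem_range.1 hj) _ θ ξ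
    (fun i hi => by
      have := (hf i (hs i hi)).2
      rwa [(Finset.mem_filter.1 hi).2] at this)
    (fun i hi i' hi' => a2 i (hs i hi) i' (hs i' hi'))
    (fun i hi i' hi' => a3 i (hs i hi) i' (hs i' hi')) hc
  exact ⟨i, hs i hi, i', hs i' hi', hne, hv⟩

lemma pi_unif {U : Set ((Idx → T) × (Idx → T))} (hU : U ∈ uniformity (Idx → T)) :
    ∃ (I : Finset Idx) (t : ℝ), 0 < t ∧
      ∀ x y : Idx → T, (∀ i ∈ I, dist (x i) (y i) < t) → (x, y) ∈ U := by
  classical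
  rw [Pi.uniformity] at hU
  refine iInf_sets_induct hU (p := fun U => ∃ (I : Finset Idx) (t : ℝ), 0 < t ∧
      ∀ x y : Idx → T, (∀ i ∈ I, dist (x i) (y i) < t) → (x, y) ∈ U) ?_ ?_
  · exact ⟨∅, 1, one_pos, fun _ _ _ => mem_univ _⟩
  · rintro i s₁ s₂ h1 ⟨I, t, ht, h⟩
    obtain ⟨V, hV, hVs⟩ := mem_comap.1 h1
    obtain ⟨t', ht', hV'⟩ := Metric.mem_uniformity_dist.1 hV
    refine ⟨insert i I, min t t', lt_min ht ht', fun x y hxy => ⟨hVs ?_, h x y ?_⟩⟩
    · exact hV' ((hxy i (Finset.mem_insert_self _ _)).trans_le (min_le_right _ _))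
    · exact fun j hj => (hxy j (Finset.mem_insert_of_mem hj)).trans_le (min_le_left _ _)

lemma norm_chi_le (ξ : ℂ) (z : G) : ‖chi ξ z‖ ≤ ‖ξ‖ * ‖io z‖ := by
  rw [chi_apply]
  refine QuotientAddGroup.norm_mk_le_norm.trans ?_
  rw [Real.norm_eq_abs, ← norm_mul]
  exact Complex.abs_re_le_norm _

lemma norm_io_five (k : ℕ) : ‖io (five k)‖ = ((5 : ℝ) ^ k)⁻¹ := by
  simp [five, map_ofNat]

lemma same_digit {θ θ' : X} {ξ ξ' : ℂ} {k : ℕ} (hd : dig k θ = dig k θ')
    (hξ : ‖ξ - ξ'‖ ≤ 1 / 4) (h1 : (θ - chi ξ - (θ' - chi ξ')) 1 = 0) :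
    (θ - chi ξ - (θ' - chi ξ')) (five k) = 0 := by
  set ψ := θ - chi ξ - (θ' - chi ξ') with hψ
  have h5 : (0 : ℝ) < 5 ^ k := by positivity
  set s : ℝ := ((ξ - ξ') * io (five k)).re with hs
  have hsb : |s| ≤ 1 / 4 * (5 ^ k)⁻¹ := by
    refine (Complex.abs_re_le_norm _).trans ?_
    rw [norm_mul, norm_io_five]
    gcongr
  set x : ℝ := L 0 (θ (five k)) - L 0 (θ' (five k)) - s with hx
  have e1 : ψ (five k) = (x : T) := by
    rw [hx, AddCircle.coe_sub, AddCircle.coe_sub, coe_L, coe_L, hs, ← chi_apply, chi_sub, hψ]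
    simp only [AddMonoidHom.sub_apply]; abel
  have e2 : ((((5 ^ k : ℕ) : ℝ) * x : ℝ) : T) = 0 := by
    rw [coe_nat_mul, ← e1, ← map_nsmul, ← h1]
    congr 1
    simp [five]
  have e3 : |((5 ^ k : ℕ) : ℝ) * x| < 1 := by
    have a1 := L0_nonneg (θ 2)
    have a2 := L0_lt (θ 2)
    have a3 := L0_nonneg (θ' 2)
    have a4 := L0_lt (θ' 2)
    have : ((5 ^ k : ℕ) : ℝ) * x = (L 0 (θ 2) - L 0 (θ' 2)) / 2 - 5 ^ k * s := by
      rw [hx, L_five, L_five, hd, MM_cast]; push_cast; field_simp; ring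
    rw [this]
    have b1 : |5 ^ k * s| ≤ 1 / 4 := by
      rw [abs_mul, abs_of_pos h5]
      calc (5 : ℝ) ^ k * |s| ≤ 5 ^ k * (1 / 4 * (5 ^ k)⁻¹) := by gcongr
        _ = 1 / 4 := by field_simp
    rw [abs_le] at b1
    rw [abs_lt]; constructor <;> linarith [b1.1, b1.2]
  have e4 := coe_eq_zero_of_abs_lt e2 e3
  have : x = 0 := by
    rcases mul_eq_zero.1 e4 with h | h
    · exact absurd h (by positivity)
    · exact h
  rw [e1, this]; simp

variable (ν : Measure X) [IsFiniteMeasure ν]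

lemma exists_approx (k d : ℕ) {ε : ℝ} (hε : 0 < ε) :
    ∃ g : BoundedContinuousFunction (Idx → T) ℝ,
      ∫ θ, |ww ν k d θ - g (res θ)| ∂ν ≤ ε := by
  obtain ⟨h, hm, hh⟩ := (sm_ww ν k d).exists_eq_measurable_comp
  have hi : Integrable h (ν.map res) := by
    rw [integrable_map_measure hm.aestronglyMeasurable measurable_res.aemeasurable, ← hh]
    exact integrable_condExp
  obtain ⟨g, hg, _⟩ := hi.exists_boundedContinuous_integral_sub_le hε
  refine ⟨g, ?_⟩
  rw [integral_map (f := fun x => ‖h x - g x‖) measurable_res.aemeasurable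
    (hm.aestronglyMeasurable.sub g.continuous.aestronglyMeasurable).norm] at hg
  simpa [hh] using hg

lemma exists_LP (k : ℕ) {c δ : ℝ} (hc : 0 < c) (hδ : 0 < δ) :
    ∃ K : Set X, MeasurableSet K ∧ ν.real (E0 ν c \ K) ≤ δ ∧
      ∃ N : GaussianInt, IsCoprime N qq ∧ ∃ η : ℝ, 0 < η ∧ η ≤ 1 / 4 ∧
        LP K (jj N * jj pp ^ (k + 1))⁻¹ ((jj N * jj pp ^ (k + 1))⁻¹ / jj qq ^ (k + 1)) η
          ⌈2 / c⌉₊ := by
  classical
  set n := k + 1 with hn
  have hM : (0 : ℝ) < MM n := by exact_mod_cast MM_pos n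
  set τ := c / 6 with hτ
  have hτ0 : 0 < τ := by positivity
  choose g hg using fun d => exists_approx ν n d (show 0 < δ / MM n * τ by positivity)
  let Bad : ℕ → Set X := fun d => {θ | τ ≤ |ww ν n d θ - g d (res θ)|}
  have hmeas : ∀ d, Measurable (fun θ => |ww ν n d θ - g d (res θ)|) := fun d =>
    ((measurable_ww ν n d).sub ((g d).continuous.comp continuous_res).measurable).abs
  have hBm : ∀ d, MeasurableSet (Bad d) := fun d => measurableSet_le measurable_const (hmeas d)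
  have hB : ∀ d, ν.real (Bad d) ≤ δ / MM n := by
    intro d
    have hi : Integrable (fun θ => |ww ν n d θ - g d (res θ)|) ν := by
      refine Integrable.abs (Integrable.sub integrable_condExp ?_)
      exact integrable_of_bdd ((g d).continuous.comp continuous_res).aestronglyMeasurable
        ‖g d‖ (fun θ => (g d).norm_coe_le_norm _)
    have := mul_meas_ge_le_integral_of_nonneg
      (Eventually.of_forall fun θ => abs_nonneg _) hi τ
    have h2 := this.trans (hg d)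
    rw [mul_comm] at h2
    exact le_of_mul_le_mul_right h2 hτ0
  let K : Set X := ({θ | c ≤ WW ν n θ} ∩ Good ν n) \ ⋃ d ∈ Finset.range (MM n), Bad d
  have hKm : MeasurableSet K :=
    ((measurableSet_le measurable_const (measurable_WW ν n)).inter (measurableSet_good ν n)).diff
      (Finset.measurableSet_biUnion _ fun d _ => hBm d)
  have hKb : ν.real (E0 ν c \ K) ≤ δ := by
    have hsub : E0 ν c \ K ⊆ (Good ν n)ᶜ ∪ ⋃ d ∈ Finset.range (MM n), Bad d := by
      rintro θ ⟨h1, h2⟩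
      by_contra hcon
      rw [mem_union, not_or] at hcon
      exact h2 ⟨⟨h1 k, not_not.1 hcon.1⟩, hcon.2⟩
    refine (measureReal_mono hsub).trans ((measureReal_union_le _ _).trans ?_)
    have h0 : ν.real (Good ν n)ᶜ = 0 := by
      have : ν (Good ν n)ᶜ = 0 := ae_good ν n
      simp [Measure.real, this]
    rw [h0, zero_add]
    refine (measureReal_biUnion_finset_le _ _).trans ?_
    refine (Finset.sum_le_sum fun d _ => hB d).trans (le_of_eq ?_)
    simp only [Finset.sum_const, Finset.card_range, nsmul_eq_mul]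
    field_simp
  have hU : (⋂ d ∈ Finset.range (MM n), {p : (Idx → T) × (Idx → T) |
      dist (g d p.1) (g d p.2) < τ}) ∈ uniformity (Idx → T) := by
    rw [biInter_finset_mem]
    intro d _
    exact (CompactSpace.uniformContinuous_of_continuous (g d).continuous)
      (Metric.dist_mem_uniformity hτ0)
  obtain ⟨I, t, ht, hI⟩ := pi_unif hU
  set N : GaussianInt := ∏ i ∈ I, i.1.2 with hN
  have hNc : IsCoprime N qq := IsCoprime.prod_left fun i _ => i.2
  have hN0 := jj_ne_zero (ne_zero_of_coprime hNc)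
  have hu : jj pp ^ n ≠ 0 := pow_ne_zero _ jj_pp_ne
  set ρ : ℝ := ∑ i ∈ I, ‖io i.el‖ with hρ
  have hρ0 : 0 ≤ ρ := Finset.sum_nonneg fun _ _ => norm_nonneg _
  refine ⟨K, hKm, hKb, N, hNc, min (1 / 4) (t / (ρ + 1)), lt_min (by norm_num) (by positivity),
    min_le_left _ _, ?_⟩
  intro s θ ξ a1 a2 a3 a4
  by_contra hcon
  push Not at hcon
  have hinj : InjOn (fun i => dig n (θ i)) s := by
    intro i hi i' hi' hd
    by_contra hne
    apply hcon i hi i' hi' hne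
    apply van_refine hNc n (a3 i hi i' hi')
    apply same_digit hd ((a2 i hi i' hi').trans (min_le_left _ _))
    have := a3 i hi i' hi' (N * pp ^ n)
    rwa [map_mul jj, map_pow jj, inv_mul_cancel₀ (mul_ne_zero hN0 hu)] at this
  have hclose : ∀ i ∈ s, ∀ i' ∈ s, ∀ d ∈ Finset.range (MM n),
      dist (g d (res (θ i))) (g d (res (θ i'))) < τ := by
    intro i hi i' hi' d hd
    have : (res (θ i), res (θ i')) ∈ _ := hI _ _ ?_
    · exact mem_iInter₂.1 this d hd
    intro r hr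
    obtain ⟨N', hN'⟩ : r.1.2 ∣ N := Finset.dvd_prod_of_mem _ hr
    have hr0 := jj_ne_zero (ne_zero_of_coprime r.2)
    have hel : r.el = (jj N * jj pp ^ n)⁻¹ * jj (r.1.1 * N' * pp ^ n) := by
      have hN'0 : jj N' ≠ 0 := by
        intro h; apply hN0; rw [hN', map_mul, h, mul_zero]
      rw [hN', Idx.el]; simp only [map_mul, map_pow]; field_simp
    have hv := a3 i hi i' hi' (r.1.1 * N' * pp ^ n)
    rw [← hel] at hv
    have hdiff : θ i r.el - θ i' r.el = chi (ξ i - ξ i') r.el := by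
      rw [chi_sub]
      simp only [AddMonoidHom.sub_apply] at hv ⊢
      rw [← sub_eq_zero, ← hv]; abel
    rw [dist_eq_norm]
    change ‖θ i r.el - θ i' r.el‖ < t
    rw [hdiff]
    refine (norm_chi_le _ _).trans_lt ?_
    have b1 : ‖ξ i - ξ i'‖ ≤ t / (ρ + 1) := (a2 i hi i' hi').trans (min_le_right _ _)
    have b2 : ‖io r.el‖ ≤ ρ := Finset.single_le_sum (f := fun i : Idx => ‖io i.el‖)
      (fun _ _ => norm_nonneg _) hr
    calc _ ≤ t / (ρ + 1) * ρ := by gcongr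
      _ < t := by rw [div_mul_eq_mul_div, div_lt_iff₀ (by positivity)]; nlinarith
  have hpos : 0 < s.card := by omega
  obtain ⟨i0, hi0⟩ := Finset.card_pos.1 hpos
  have hgood := (a1 i0 hi0).1.2
  have hnb : ∀ i ∈ s, ∀ d ∈ Finset.range (MM n), |ww ν n d (θ i) - g d (res (θ i))| < τ := by
    intro i hi d hd
    by_contra h
    exact (a1 i hi).2 (mem_iUnion₂.2 ⟨d, hd, not_lt.1 h⟩)
  have hlow : ∀ i ∈ s, c / 2 ≤ ww ν n (dig n (θ i)) (θ i0) := by
    intro i hi
    have hd := Finset.mem_range.2 (dig_lt n (θ i))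
    have b1 : c ≤ ww ν n (dig n (θ i)) (θ i) := (a1 i hi).1.1
    have b2 := abs_lt.1 (hnb i hi _ hd)
    have b3 := abs_lt.1 (hnb i0 hi0 _ hd)
    have b4 := hclose i hi i0 hi0 _ hd
    rw [Real.dist_eq, abs_lt] at b4
    linarith [b2.1, b2.2, b3.1, b3.2, b4.1, b4.2]
  have hsum : ∑ i ∈ s, ww ν n (dig n (θ i)) (θ i0) ≤ 1 := by
    rw [← Finset.sum_image (f := fun d => ww ν n d (θ i0)) hinj, ← hgood.2]
    apply Finset.sum_le_sum_of_subset_of_nonneg
    · intro d hd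
      obtain ⟨i, _, rfl⟩ := Finset.mem_image.1 hd
      exact Finset.mem_range.2 (dig_lt _ _)
    · exact fun d _ _ => hgood.1 d
  have h1 : (s.card : ℝ) * (c / 2) ≤ 1 := by
    refine le_trans ?_ hsum
    have := Finset.card_nsmul_le_sum s _ _ hlow
    simpa using this
  have h2 : 2 / c < s.card := lt_of_le_of_lt (Nat.le_ceil _) (by exact_mod_cast a4)
  rw [div_lt_iff₀ hc] at h2
  linarith

end Pool.Agent.MP_fc94d9_co
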