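import Pool.Agent.MP_fc94d9_co.Struct
import Pool.Agent.MP_fc94d9_co.Construct

set_option autoImplicit false

open MeasureTheory Filter Topology Set

noncomputable section

namespace Pool.Agent.MP_fc94d9_co

theorem mono_gaussian {k : ℕ} (c : EuclideanSpace ℝ (Fin 2) → Fin k) :
    ∃ ρ : ℝ, ∀ z : GaussianInt, z ≠ 0 → ρ ≤ ‖(z : ℂ)‖ →
      ∃ x y : EuclideanSpace ℝ (Fin 2), dist x y = ‖(z : ℂ)‖ ∧ c x = c y := by
  let P := Complex.orthonormalBasisOneI.repr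
  let c' : G → Fin k := fun x => c (P (io x))
  let D : Set G := {s | ∀ x y : EuclideanSpace ℝ (Fin 2), dist x y = ‖io s‖ → c x ≠ c y}
  have hk : (0 : ℝ) < 1 / k := by
    have := (c 0).pos
    positivity
  obtain ⟨ν0, hν0, hm, h0⟩ := exists_stage_one c' D (fun x s hs => hs _ _ (by
    rw [P.dist_map, dist_eq_norm, map_add]; simp))
  obtain ⟨ν, hν, hU, h1⟩ := exists_stage_two ν0 hm D (fun u hu s hs x y hxy => hs x y (by
    rwa [map_mul, norm_mul, hu, one_mul] at hxy)) h0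
  obtain ⟨ρ, hρ⟩ := re_phi_eventually ν hU hk
  refine ⟨ρ, fun z hz hzρ => ?_⟩
  by_contra hcon
  push Not at hcon
  have h2 : jj z ∈ D := fun x y hxy => hcon x y (by rwa [io_jj] at hxy)
  exact absurd (hρ z hz hzρ) (not_lt.2 (h1 _ h2))

theorem mono_nat {k : ℕ} (c : EuclideanSpace ℝ (Fin 2) → Fin k) :
    ∃ N : ℕ, ∀ n : ℕ, N ≤ n → ∃ x y : EuclideanSpace ℝ (Fin 2), dist x y = n ∧ c x = c y := by
  obtain ⟨ρ, hρ⟩ := mono_gaussian c
  refine ⟨⌈ρ⌉₊ + 1, fun n hn => ?_⟩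
  have h1 : ‖((n : GaussianInt) : ℂ)‖ = n := by simp
  obtain ⟨x, y, hxy, hc⟩ := hρ n (by exact_mod_cast (by omega : n ≠ 0)) (by
    rw [h1]; exact (Nat.le_ceil ρ).trans (by exact_mod_cast (by omega : ⌈ρ⌉₊ ≤ n)))
  exact ⟨x, y, hxy.trans h1, hc⟩

theorem no_colouring :
    ¬ (∃ k : ℕ, ∃ c : EuclideanSpace ℝ (Fin 2) → Fin k,
      ∀ x y : EuclideanSpace ℝ (Fin 2), ∀ n : ℕ,
        dist x y = (2 : ℝ) ^ n → c x ≠ c y) := by
  rintro ⟨k, c, h⟩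
  obtain ⟨N, hN⟩ := mono_nat c
  obtain ⟨x, y, hxy, hc⟩ := hN (2 ^ N) (Nat.lt_pow_self (by norm_num)).le
  exact h x y N (by rw [hxy]; push_cast; rfl) hc

end Pool.Agent.MP_fc94d9_co
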