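import Pool.Agent.Mg.Ffc94d9.Gad060b

/-! Arbitrary real distances: definitions and steps. -/

set_option autoImplicit false

noncomputable section

namespace Pool.Agent.MP_fc94d9_co.Ms

section

open MeasureTheory Filter Topology Set

/-- a random fractional colouring of the index set `I` -/
structure Frac {k : ℕ} {I Ω : Type} [MeasurableSpace Ω] (a : Fin k → I → Ω → ℝ) : Prop where
  meas : ∀ j x, Measurable (a j x)
  nonneg : ∀ j x ω, 0 ≤ a j x ω
  le_one : ∀ j x ω, a j x ω ≤ 1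
  sum : ∀ x ω, ∑ j, a j x ω = 1

theorem isAlgebraic_io (x : G) : IsAlgebraic ℚ (io x) := (mem_algebraicClosure_iff).1 x.2

/-- an invariant measure in the closed convex hull of an orbit -/
def SAvg : Prop :=
  ∀ (Ω H : Type) [TopologicalSpace Ω] [CompactSpace Ω] [TopologicalSpace.MetrizableSpace Ω]
    [MeasurableSpace Ω] [BorelSpace Ω] [AddCommMonoid H] [Countable H] (a : H → Ω → Ω),
    (∀ s : H, Function.Injective fun x : H => x + s) → (∀ s, Continuous (a s)) →
    (∀ s t ω, a (s + t) ω = a t (a s ω)) →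
    ∀ (ν₀ : Measure Ω) [IsFiniteMeasure ν₀], ν₀.real univ ≤ 1 →
    ∃ ν : Measure Ω, IsFiniteMeasure ν ∧ (∀ s, MeasurePreserving (a s) ν ν) ∧
      ∀ f : Ω → ℝ, Continuous f → ∀ γ : ℝ, (∀ s, ∫ ω, f (a s ω) ∂ν₀ ≤ γ) → ∫ ω, f ω ∂ν ≤ γ

/-- passage to the limit and choice of a sample -/
def SLim : Prop :=
  ∀ (k : ℕ) (Ω : Type) [MeasurableSpace Ω] (μ : Measure Ω) [IsProbabilityMeasure μ]
    (b : Fin k → ℕ → ℂ × Ω → ℝ) (D : Set ℂ), Frac b → D.Countable →
    (∀ ε : ℝ, 0 < ε → ∃ n₀ : ℕ, ∀ n m, n₀ ≤ n → n₀ ≤ m → ∀ j x,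
      ∫ ω, (b j n (x, ω) - b j m (x, ω)) ^ 2 ∂μ ≤ ε) →
    (∀ j x, ∀ z ∈ D, Tendsto (fun n => ∫ ω, b j n (x, ω) * b j n (x + z, ω) ∂μ) atTop (𝓝 0)) →
    ∃ B : Fin k → Set ℂ, (∀ j, MeasurableSet (B j)) ∧ (∀ x, ∃ j, x ∈ B j) ∧
      ∀ j, ∀ z ∈ D, volume {x | x ∈ B j ∧ x + z ∈ B j} = 0

/-- from an almost proper cover to a proper measurable colouring -/
def SLift : Prop :=
  ∀ (k : ℕ) (B : Fin k → Set ℂ) (D : Set ℂ), (∀ j, MeasurableSet (B j)) → (∀ x, ∃ j, x ∈ B j) →
    (∀ j, ∀ z ∈ D, volume {x | x ∈ B j ∧ x + z ∈ B j} = 0) →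
    ∃ c : ℂ → Fin k, (∀ j, NullMeasurableSet (c ⁻¹' {j}) volume) ∧
      ∀ x, ∀ z ∈ closure D, c x ≠ c (x + z)

end

section

open MeasureTheory Filter Topology Set Polynomial

/-- a subfield of the complex numbers with enough elements -/
class Big (K : Type) [Field K] where
  jo' : K →+* ℂ
  em' : G →+* K
  jo_em' : ∀ g, jo' (em' g) = io g
  conj' : ∀ x, ∃ y, jo' y = (starRingEnd ℂ) (jo' x)
  sqrt' : ∀ x : K, ∃ y, y * y = x

/-- the embedding into the complex numbers -/
def jo {K : Type} [Field K] [Big K] : K →+* ℂ := Big.jo'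

/-- the embedding of the algebraic numbers -/
def em {K : Type} [Field K] [Big K] : G →+* K := Big.em'

theorem jo_em {K : Type} [Field K] [Big K] (g : G) : jo (em g : K) = io g := Big.jo_em' g

theorem exists_conjK {K : Type} [Field K] [Big K] (x : K) :
    ∃ y : K, jo y = (starRingEnd ℂ) (jo x) := Big.conj' x

theorem exists_sqrtK {K : Type} [Field K] [Big K] (x : K) : ∃ y : K, y * y = x := Big.sqrt' x

section dual

variable {K : Type} [Field K]

instance (priority := 10) topK : TopologicalSpace (K →+ T) :=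
  TopologicalSpace.induced (fun θ : K →+ T => (θ : K → T)) inferInstance

theorem embK : IsEmbedding (fun θ : K →+ T => (θ : K → T)) := ⟨⟨rfl⟩, DFunLike.coe_injective⟩

theorem continuous_evalK (z : K) : Continuous (fun θ : K →+ T => θ z) :=
  (continuous_apply z).comp embK.continuous

theorem continuous_XK {Y : Type*} [TopologicalSpace Y] {f : Y → K →+ T}
    (h : ∀ z, Continuous (fun y => f y z)) : Continuous f :=
  embK.continuous_iff.2 (continuous_pi h)

theorem closedEmbK : IsClosedEmbedding (fun θ : K →+ T => (θ : K → T)) := by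
  refine ⟨embK, ?_⟩
  have : range (fun θ : K →+ T => (θ : K → T)) =
      ⋂ x : K, ⋂ y : K, {f : K → T | f (x + y) = f x + f y} := by
    ext f
    simp only [mem_range, mem_iInter, mem_ofPred_eq]
    exact ⟨by rintro ⟨θ, rfl⟩ x y; exact θ.map_add x y, fun h => ⟨AddMonoidHom.mk' f h, rfl⟩⟩
  rw [this]
  exact isClosed_iInter fun x => isClosed_iInter fun y => isClosed_eq (continuous_apply _)
    ((continuous_apply x).add (continuous_apply y))

instance (priority := 10) : CompactSpace (K →+ T) := closedEmbK.compactSpace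
instance (priority := 10) : T2Space (K →+ T) := embK.t2Space
instance (priority := 10) [Countable K] : SecondCountableTopology (K →+ T) :=
  embK.secondCountableTopology
instance (priority := 10) [Countable K] : TopologicalSpace.MetrizableSpace (K →+ T) :=
  embK.metrizableSpace
instance (priority := 10) : IsTopologicalAddGroup (K →+ T) where
  continuous_add := continuous_XK fun z =>
    ((continuous_evalK z).comp continuous_fst).add ((continuous_evalK z).comp continuous_snd)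
  continuous_neg := continuous_XK fun z => (continuous_evalK z).neg
instance (priority := 10) : MeasurableSpace (K →+ T) := borel _
instance (priority := 10) : BorelSpace (K →+ T) := ⟨rfl⟩

/-- multiplication by `u` acting on characters -/
def SK (u : K) (θ : K →+ T) : K →+ T := θ.comp (AddMonoidHom.mulLeft u)

@[simp] theorem SK_apply (u : K) (θ : K →+ T) (z : K) : SK u θ z = θ (u * z) := rfl

theorem continuous_SK (u : K) : Continuous (SK u) := continuous_XK fun z => continuous_evalK (u * z)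

theorem measurable_SK (u : K) : Measurable (SK u) := (continuous_SK u).measurable

theorem SK_SK (u v : K) (θ : K →+ T) : SK u (SK v θ) = SK (v * u) θ := by
  ext z
  simp [mul_assoc]

theorem SK_one (θ : K →+ T) : SK 1 θ = θ := by
  ext z
  simp

/-- Fourier transform -/
def phiK (ν : Measure (K →+ T)) (z : K) : ℂ := ∫ θ, E (θ z) ∂ν

theorem continuous_E_evalK (z : K) : Continuous (fun θ : K →+ T => E (θ z)) :=
  continuous_E.comp (continuous_evalK z)

theorem integrable_E_evalK (ν : Measure (K →+ T)) [IsFiniteMeasure ν] (z : K) :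
    Integrable (fun θ : K →+ T => E (θ z)) ν :=
  integrable_of_bdd (continuous_E_evalK z).aestronglyMeasurable 1 (fun _ => by simp)

variable [Big K]

theorem jo_inj : Function.Injective (jo : K →+* ℂ) := (jo : K →+* ℂ).injective

instance (priority := 10) : CharZero K := (jo : K →+* ℂ).charZero_iff jo_inj |>.2 inferInstance

/-- restriction to the algebraic numbers -/
def rs (θ : K →+ T) : X := θ.comp (em : G →+* K).toAddMonoidHom

@[simp] theorem rs_apply (θ : K →+ T) (g : G) : rs θ g = θ (em g) := rfl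

theorem measurable_rs : Measurable (rs : (K →+ T) → X) :=
  (continuous_X fun z => continuous_evalK (em z : K)).measurable

theorem S_rs (g : G) (θ : K →+ T) : S g (rs θ) = rs (SK (em g) θ) := by
  ext z
  simp

/-- invariance under the rotations in `K` -/
def UK (ν : Measure (K →+ T)) : Prop := ∀ u : K, ‖jo u‖ = 1 → MeasurePreserving (SK u) ν ν

theorem UK.rs {ν : Measure (K →+ T)} (h : UK ν) (x : K) : UInv (ν.map fun θ => rs (SK x θ)) := by
  have m : Measurable fun θ : K →+ T => Ms.rs (SK x θ) := measurable_rs.comp (measurable_SK x)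
  refine fun u hu => ⟨measurable_S u, ?_⟩
  rw [Measure.map_map (measurable_S _) m]
  conv_rhs => rw [← (h (em u) (by rwa [jo_em])).map_eq, Measure.map_map m (measurable_SK _)]
  congr 1
  funext θ
  simp only [Function.comp, S_rs, SK_SK, mul_comm]

variable (K) in
/-- the rotations in `K` -/
def UUK : Submonoid K where
  carrier := {u | ‖jo u‖ = 1}
  one_mem' := by simp
  mul_mem' := by
    intro a b ha hb
    simp only [mem_ofPred_eq] at ha hb ⊢
    rw [map_mul, norm_mul, ha, hb, one_mul]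

theorem uuK_inj (s : Additive (UUK K)) :
    Function.Injective (fun x : Additive (UUK K) => x + s) := by
  intro x y hxy
  have h1 : (x.toMul : K) * (s.toMul : K) = (y.toMul : K) * (s.toMul : K) :=
    congrArg (fun t : Additive (UUK K) => (t.toMul : K)) hxy
  have h2 : (s.toMul : K) ≠ 0 := by
    intro h
    have : ‖jo (s.toMul : K)‖ = 1 := s.toMul.2
    rw [h] at this
    simp at this
  exact Subtype.ext (mul_right_cancel₀ h2 h1)

variable (K) in
/-- the Gaussian rationals in `K` -/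
def FF : Subfield K := Subfield.closure (range fun w : GaussianInt => (em (jj w) : K))

/-- uniform continuity away from zero -/
def UCK (φ : K → ℝ) : Prop :=
  ∀ ε : ℝ, 0 < ε → ∃ δ : ℝ, 0 < δ ∧
    ∀ x y : K, x ≠ 0 → y ≠ 0 → ‖jo x - jo y‖ < δ → |φ x - φ y| < ε

end dual

/-- a big countable field containing given reals -/
def KBig : Prop :=
  ∀ A : Set ℝ, A.Countable → ∃ (K : Type) (_ : Field K) (_ : Countable K) (_ : Big K),
    ∀ d ∈ A, ∃ s : K, jo s = d

/-- short vectors are sums of two rotated copies -/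
def KTwo : Prop :=
  ∀ (K : Type) [Field K] [Big K] (g z : K), g ≠ 0 → ‖jo z‖ ≤ 2 * ‖jo g‖ →
    ∃ u u' : K, ‖jo u‖ = 1 ∧ ‖jo u'‖ = 1 ∧ z = u * g + u' * g

/-- the invariant random colouring -/
def KMeas : Prop :=
  ∀ (K : Type) [Field K] [Countable K] [Big K] (k : ℕ) (c : K → Fin k) (D : Set K),
    (∀ x, ∀ s ∈ D, c x ≠ c (x + s)) → (∀ u : K, ‖jo u‖ = 1 → ∀ s ∈ D, u * s ∈ D) →
    ∃ (μ : Measure (K → Fin k)) (a : Fin k → K → (K → Fin k) → ℝ) (φ : Fin k → K → ℝ),
      IsProbabilityMeasure μ ∧ Frac a ∧ (∀ j x y, ∫ ω, a j x ω * a j y ω ∂μ = φ j (y - x)) ∧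
      (∀ j u s, ‖jo u‖ = 1 → φ j (u * s) = φ j s) ∧ (∀ j, ∀ s ∈ D, φ j s = 0) ∧
      ∀ j x, ∫ ω, a j x ω ∂μ = φ j 0

/-- the spectral measure of a correlation function -/
def KHerg : Prop :=
  ∀ (K : Type) [Field K] [Countable K] [Big K] (Ω : Type) [MeasurableSpace Ω] (μ : Measure Ω)
    [IsProbabilityMeasure μ] (a : K → Ω → ℝ) (φ : K → ℝ), (∀ x, Measurable (a x)) →
    (∀ x ω, |a x ω| ≤ 1) → (∀ x y, ∫ ω, a x ω * a y ω ∂μ = φ (y - x)) →
    (∀ u s, ‖jo u‖ = 1 → φ (u * s) = φ s) →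
    ∃ ν : Measure (K →+ T), IsFiniteMeasure ν ∧ UK ν ∧ ∀ s, (phiK ν s).re = φ s

/-- structured characters are structured on every line -/
def KSub : Prop :=
  ∀ (K : Type) [Field K] [Countable K] [Big K] (ν : Measure (K →+ T)) [IsFiniteMeasure ν],
    UK ν → ∀ x : K, ∀ᵐ θ ∂ν, Ycond (rs θ) → Ycond (rs (SK x θ))

/-- invariant positive definite functions are uniformly continuous away from zero -/
def KCont : Prop :=
  ∀ (K : Type) [Field K] [Countable K] [Big K] (ν : Measure (K →+ T)) [IsFiniteMeasure ν],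
    UK ν → UCK fun s => (phiK ν s).re

/-- step function approximations -/
def KApx : Prop :=
  ∀ (K : Type) [Field K] [Countable K] [Big K] (k : ℕ) (Ω : Type) [MeasurableSpace Ω]
    (μ : Measure Ω) [IsProbabilityMeasure μ] (a : Fin k → K → Ω → ℝ) (φ : Fin k → K → ℝ),
    Frac a → (∀ j x y, ∫ ω, a j x ω * a j y ω ∂μ = φ j (y - x)) → (∀ j, UCK (φ j)) →
    ∃ b : Fin k → ℕ → ℂ × Ω → ℝ, Frac b ∧
      (∀ ε : ℝ, 0 < ε → ∃ n₀ : ℕ, ∀ n m, n₀ ≤ n → n₀ ≤ m → ∀ j x,
        ∫ ω, (b j n (x, ω) - b j m (x, ω)) ^ 2 ∂μ ≤ ε) ∧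
      ∀ j s x, s ≠ 0 →
        Tendsto (fun n => ∫ ω, b j n (x, ω) * b j n (x + jo s, ω) ∂μ) atTop (𝓝 (φ j s))

/-- the dimension of `(X - a) W₀ + (X - b) W₁` -/
def dm {F : Type} [Field F] (W₀ W₁ : Submodule F F[X]) (a b : F) : ℕ :=
  Module.finrank F ↥(W₀.map (LinearMap.mulLeft F (Polynomial.X - C a)) ⊔
    W₁.map (LinearMap.mulLeft F (Polynomial.X - C b)))

/-- the dimension drops at finitely many points of a line -/
def POpen : Prop :=
  ∀ (F : Type) [Field F] (W₀ W₁ : Submodule F F[X]) [FiniteDimensional F W₀]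
    [FiniteDimensional F W₁] (a b α β : F),
    {s : F | dm W₀ W₁ (a + s * α) (b + s * β) < dm W₀ W₁ a b}.Finite

/-- minimal growth forces a space of multiples -/
def PExc : Prop :=
  ∀ (F : Type) [Field F] [Infinite F] (W₀ W₁ : Submodule F F[X]) [FiniteDimensional F W₀]
    [FiniteDimensional F W₁], W₀ ≠ ⊥ → Module.finrank F W₀ = Module.finrank F W₁ →
    (∀ a b, dm W₀ W₁ a b ≤ Module.finrank F W₀ + 1) →
    ∃ (g : F[X]) (n : ℕ), g.natDegree + Module.finrank F W₀ ≤ n + 1 ∧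
      ∀ f, f ∈ W₀ ↔ g ∣ f ∧ f.natDegree ≤ n

/-- a conjugate pair that is good for finitely many pairs of spaces -/
def PGen : Prop :=
  ∀ (F : Type) [Field F] [CharZero F] (I : F), I ≠ 0 → ∀ (L : Set (Submodule F F[X])) (B : Set F),
    L.Finite → B.Finite → (∀ W ∈ L, FiniteDimensional F W) →
    ∃ x τ : ℚ, τ ≠ 0 ∧ (x : F) + τ * I ∉ B ∧ (x : F) - τ * I ∉ B ∧ ∀ W₀ ∈ L, ∀ W₁ ∈ L, W₀ ≠ ⊥ →
      Module.finrank F W₀ = Module.finrank F W₁ →
      dm W₀ W₁ (x + τ * I) (x - τ * I) ≤ Module.finrank F W₀ + 1 →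
      ∃ (g : F[X]) (n : ℕ), g.natDegree + Module.finrank F W₀ ≤ n + 1 ∧
        ∀ f, f ∈ W₀ ↔ g ∣ f ∧ f.natDegree ≤ n

/-- dense subsets of a generic cube span all multiples of a polynomial of bounded degree -/
def PCube : Prop :=
  ∀ (F : Type) [Field F] [CharZero F] (I : F), I ≠ 0 → ∀ (nr : F[X] →* ℝ),
    (∀ x τ : ℚ, τ ≠ 0 → nr (Polynomial.X - C (x + τ * I)) = nr (Polynomial.X - C (x - τ * I)) ∧
      nr (Polynomial.X - C (x + τ * I)) ≠ 0) → ∀ (b₀ : F) (h : ℕ),
    ∃ (Q : Finset F[X]) (ρ : ℝ), ρ ≠ 0 ∧ Q.card = 2 ^ h ∧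
      (∀ f ∈ Q, f.natDegree = h ∧ nr f = ρ ∧ f.eval b₀ ≠ 0) ∧
      ∀ Z ⊆ Q, ∀ k : ℕ, (2 : ℝ) ^ h * (7 / 8) ^ k < Z.card →
        ∃ g : F[X], g.natDegree ≤ k ∧ (∃ f ∈ Z, g ∣ f) ∧
          ∀ p, (g * p).natDegree ≤ h → g * p ∈ Submodule.span F (Z : Set F[X])

open Classical in
/-- a family of units that no subspace cuts often -/
def PMain : Prop :=
  ∀ (K : Type) [Field K] [Big K] (u : K), ‖jo u‖ = 1 → ∀ δ : ℝ, 0 < δ →
    ∃ (ι : Type) (s : Finset ι) (p : ι → K), s.Nonempty ∧ (∀ i ∈ s, ‖jo (p i)‖ = 1) ∧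
      ∀ V : Submodule (FF K) K, ((s.filter fun i => p i ∈ V ∧ u * p i ∉ V).card : ℝ) ≤ δ * s.card

end

end Pool.Agent.MP_fc94d9_co.Ms
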