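import Pool.Agent.MP_fc94d9_co.RealA

/-! Arbitrary real distances: the polynomial lemmas and the structure of invariant measures. -/

set_option autoImplicit false

noncomputable section

namespace Pool.Agent.MP_fc94d9_co.Ms

section

open MeasureTheory Filter Topology Set Polynomial

theorem pencil_POpen {F N M : Type} [Field F] [AddCommGroup N] [Module F N] [AddCommGroup M]
    [Module F M] [FiniteDimensional F N] (A B : N →ₗ[F] M) :
    {s : F | Module.finrank F (LinearMap.range (A + s • B)) <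
      Module.finrank F (LinearMap.range A)}.Finite := by
  obtain ⟨σ, hσ⟩ := A.rangeRestrict.exists_rightInverse_of_surjective A.range_rangeRestrict
  obtain ⟨L, hL⟩ := (LinearMap.range A).subtype.exists_leftInverse_of_injective
    (Submodule.ker_subtype _)
  have e : ∀ v, L (A (σ v)) = v := fun v => by
    have h1 : A.rangeRestrict (σ v) = v := LinearMap.congr_fun hσ v
    have h2 : L (v : M) = v := LinearMap.congr_fun hL v
    have h3 : A (σ v) = (v : M) := congrArg Subtype.val h1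
    rw [h3, h2]
  refine ((Module.End.finite_hasEigenvalue
    (L ∘ₗ B ∘ₗ σ : Module.End F (LinearMap.range A))).image fun μ => -μ⁻¹).subset fun s hs => ?_
  by_contra hn
  rw [mem_ofPred_eq] at hs
  refine absurd hs (not_lt.2 ?_)
  refine LinearMap.finrank_le_finrank_of_injective (f := (A + s • B).rangeRestrict ∘ₗ σ) ?_
  rw [← LinearMap.ker_eq_bot, LinearMap.ker_eq_bot']
  intro v hv
  by_contra h0
  have h1 : (A + s • B) (σ v) = 0 := congrArg Subtype.val hv
  have h2 := congrArg L h1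
  rw [LinearMap.add_apply, LinearMap.smul_apply, map_add, map_smul, e, map_zero] at h2
  have s0 : s ≠ 0 := fun m => h0 (by rwa [m, zero_smul, add_zero] at h2)
  refine hn ⟨-s⁻¹, Module.End.hasEigenvalue_of_hasEigenvector (x := v) ⟨?_, h0⟩, by simp⟩
  rw [Module.End.mem_eigenspace_iff]
  change L (B (σ v)) = _
  rw [← eq_neg_iff_add_eq_zero] at h2
  conv_rhs => rw [h2]
  rw [smul_neg, neg_smul, neg_neg, smul_smul, inv_mul_cancel₀ s0, one_smul]

/-- the map `(f, g) ↦ p f + q g` -/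
def phi_POpen {F : Type} [Field F] (W₀ W₁ : Submodule F F[X]) (p q : F[X]) :
    W₀ × W₁ →ₗ[F] F[X] :=
  (LinearMap.mulLeft F p ∘ₗ W₀.subtype).coprod (LinearMap.mulLeft F q ∘ₗ W₁.subtype)

theorem range_POpen {F : Type} [Field F] (W₀ W₁ : Submodule F F[X]) (p q : F[X]) :
    LinearMap.range (phi_POpen W₀ W₁ p q) =
      W₀.map (LinearMap.mulLeft F p) ⊔ W₁.map (LinearMap.mulLeft F q) := by
  rw [phi_POpen, LinearMap.range_coprod, LinearMap.range_comp, LinearMap.range_comp,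
    Submodule.range_subtype, Submodule.range_subtype]

theorem pOpen : POpen := by
  intro F _ W₀ W₁ _ _ a b α β
  have h := pencil_POpen (phi_POpen W₀ W₁ (Polynomial.X - C a) (Polynomial.X - C b))
    (phi_POpen W₀ W₁ (-C α) (-C β))
  refine h.subset fun s hs => ?_
  have e : phi_POpen W₀ W₁ (Polynomial.X - C a) (Polynomial.X - C b) +
      s • phi_POpen W₀ W₁ (-C α) (-C β) =
      phi_POpen W₀ W₁ (Polynomial.X - C (a + s * α)) (Polynomial.X - C (b + s * β)) := by
    refine LinearMap.ext fun v => ?_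
    simp only [phi_POpen, LinearMap.add_apply, LinearMap.smul_apply, LinearMap.coprod_apply,
      LinearMap.comp_apply, LinearMap.mulLeft_apply, smul_eq_C_mul, map_add, map_mul]
    ring
  rw [mem_ofPred_eq, e, range_POpen, range_POpen]
  exact hs

end

section

open MeasureTheory Filter Topology Set Polynomial

section
variable {F : Type} [Field F]

theorem inj_PExc {p : F[X]} (hp : p ≠ 0) : Function.Injective (LinearMap.mulLeft F p) :=
  fun _ _ h => mul_left_cancel₀ hp h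

theorem map_PExc {p : F[X]} (hp : p ≠ 0) (W : Submodule F F[X]) :
    Module.finrank F (W.map (LinearMap.mulLeft F p)) = Module.finrank F W :=
  (Submodule.equivMapOfInjective _ (inj_PExc hp) W).finrank_eq.symm

/-- quotients by a linear factor -/
def D_PExc (W : Submodule F F[X]) (c : F) : Submodule F F[X] :=
  W.comap (LinearMap.mulLeft F (Polynomial.X - C c))

instance fin_PExc (W : Submodule F F[X]) [FiniteDimensional F W] (c : F) :
    FiniteDimensional F (D_PExc W c) := by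
  have : FiniteDimensional F ((D_PExc W c).map (LinearMap.mulLeft F (Polynomial.X - C c))) :=
    Submodule.finiteDimensional_of_le (Submodule.map_comap_le _ W)
  exact (Submodule.equivMapOfInjective _ (inj_PExc (X_sub_C_ne_zero c)) _).symm.finiteDimensional

theorem lt_PExc {W : Submodule F F[X]} [FiniteDimensional F W] {c : F} {f : F[X]} (hf : f ∈ W)
    (hc : f.eval c ≠ 0) : Module.finrank F (D_PExc W c) < Module.finrank F W := by
  rw [← map_PExc (X_sub_C_ne_zero c)]
  refine Submodule.finrank_lt_finrank_of_lt (lt_of_le_of_ne (Submodule.map_comap_le _ W) fun h => ?_)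
  obtain ⟨q, -, rfl⟩ := h.ge hf
  simp at hc

theorem inf_PExc (W₀ W₁ : Submodule F F[X]) [FiniteDimensional F W₀] [FiniteDimensional F W₁]
    {a b : F} (hab : a ≠ b) : Module.finrank F W₀ + Module.finrank F W₁ ≤
      dm W₀ W₁ a b + Module.finrank F ↥(D_PExc W₀ b ⊓ D_PExc W₁ a) := by
  have h1 := Submodule.finrank_sup_add_finrank_inf_eq
    (W₀.map (LinearMap.mulLeft F (Polynomial.X - C a)))
    (W₁.map (LinearMap.mulLeft F (Polynomial.X - C b)))
  rw [map_PExc (X_sub_C_ne_zero a), map_PExc (X_sub_C_ne_zero b)] at h1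
  rw [← h1, ← map_PExc (mul_ne_zero (X_sub_C_ne_zero a) (X_sub_C_ne_zero b))
    (D_PExc W₀ b ⊓ D_PExc W₁ a)]
  refine Nat.add_le_add_left (Submodule.finrank_mono ?_) _
  rintro _ ⟨⟨f, hf, rfl⟩, g, hg, e⟩
  simp only [LinearMap.mulLeft_apply] at e
  have h2 : f.IsRoot b := by
    have := congrArg (eval b) e
    simp only [eval_mul, eval_sub, eval_X, eval_C, sub_self, zero_mul] at this
    exact (mul_eq_zero.1 this.symm).resolve_left (sub_ne_zero.2 hab.symm)
  obtain ⟨h, rfl⟩ := dvd_iff_isRoot.2 h2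
  have h3 : g = (Polynomial.X - C a) * h :=
    mul_left_cancel₀ (X_sub_C_ne_zero b) (e.trans (mul_left_comm _ _ _))
  exact ⟨h, ⟨hf, show _ * h ∈ W₁ from h3 ▸ hg⟩, mul_assoc _ _ _⟩

theorem str_PExc {W H : Submodule F F[X]} [FiniteDimensional F W] (h0 : W ≠ ⊥) (h1 : H ≤ W)
    (h2 : ∀ h ∈ H, Polynomial.X * h ∈ W) (h3 : Module.finrank F W ≤ Module.finrank F H + 1) :
    ∃ (g : F[X]) (n : ℕ), g.natDegree + Module.finrank F W ≤ n + 1 ∧
      ∀ f, f ∈ W ↔ g ∣ f ∧ f.natDegree ≤ n := by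
  classical
  obtain ⟨s, hs, e⟩ := Submodule.fg_def.1 ((Submodule.fg_iff_finiteDimensional W).2 inferInstance)
  obtain ⟨t, ht, hm⟩ := exists_degree_le_of_mem_span_of_finite hs
    (nonempty_iff_ne_empty.2 fun h => h0 (by rw [← e, h, Submodule.span_empty]))
  have ht' : t ∈ W := e ▸ Submodule.subset_span ht
  rw [e] at hm
  have hn : ∀ f ∈ W, f.natDegree ≤ t.natDegree := fun f hf => natDegree_le_natDegree (hm f hf)
  obtain ⟨f₀, hf₀, n₀⟩ := Submodule.exists_mem_ne_zero_of_ne_bot h0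
  have t0 : t ≠ 0 := fun h => n₀ (by simpa [h] using hm f₀ hf₀)
  have a1 : H ≤ W ⊓ degreeLT F t.natDegree := fun h hh => ⟨h1 hh, mem_degreeLT.2 (by
    rcases eq_or_ne h 0 with rfl | n
    · simp
    · have := hn _ (h2 h hh)
      rw [natDegree_X_mul n] at this
      exact (natDegree_lt_iff_degree_lt n).1 this)⟩
  have a2 : W ⊓ degreeLT F t.natDegree < W := lt_of_le_of_ne inf_le_left fun h =>
    absurd (mem_degreeLT.1 (h.ge ht').2) (by rw [degree_eq_natDegree t0]; exact lt_irrefl _)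
  have a3 := Submodule.finrank_lt_finrank_of_lt a2
  have a4 := Submodule.eq_of_le_of_finrank_le a1 (by omega)
  have hex : ∃ m, ∃ g ∈ W, g ≠ 0 ∧ g.natDegree = m := ⟨_, f₀, hf₀, n₀, rfl⟩
  obtain ⟨g, hg, g0, gm⟩ := Nat.find_spec hex
  have b1 : ∀ i, g.natDegree + i ≤ t.natDegree → Polynomial.X ^ i * g ∈ W := fun i => by
    induction i with
    | zero => intro _; simpa using hg
    | succ i ih =>
      intro hi
      rw [pow_succ', mul_assoc]
      refine h2 _ (a4.ge ⟨ih (by omega), mem_degreeLT.2 ?_⟩)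
      refine (natDegree_lt_iff_degree_lt (mul_ne_zero (pow_ne_zero _ X_ne_zero) g0)).1 ?_
      rw [natDegree_X_pow_mul _ g0]
      omega
  have b2 : ∀ q, (g * q).natDegree ≤ t.natDegree → g * q ∈ W := fun q hq => by
    rcases eq_or_ne q 0 with rfl | q0
    · simp
    rw [natDegree_mul g0 q0] at hq
    rw [q.as_sum_range_C_mul_X_pow, Finset.mul_sum]
    refine W.sum_mem fun i hi => ?_
    have := Finset.mem_range.1 hi
    rw [mul_comm, mul_assoc, ← smul_eq_C_mul]
    exact W.smul_mem _ (b1 i (by omega))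
  have b3 : ∀ f ∈ W, g ∣ f := fun f hf => by
    have c1 := degree_mod_lt f g0
    have c2 : g * (f / g) = f - f % g := eq_sub_of_add_eq (EuclideanDomain.div_add_mod f g)
    have c3 : f % g ∈ W := by
      have := W.sub_mem hf (b2 (f / g) (by
        rw [c2]
        exact (natDegree_sub_le _ _).trans
          (max_le (hn f hf) ((natDegree_le_natDegree c1.le).trans (hn g hg)))))
      rwa [c2, sub_sub_cancel] at this
    refine EuclideanDomain.mod_eq_zero.1 (by_contra fun n => ?_)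
    exact Nat.find_min hex (gm ▸ natDegree_lt_natDegree n c1) ⟨_, c3, n, rfl⟩
  refine ⟨g, t.natDegree, ?_, fun f => ⟨fun hf => ⟨b3 f hf, hn f hf⟩, ?_⟩⟩
  · have c1 : W ≤ (degreeLT F (t.natDegree + 1 - g.natDegree)).map (LinearMap.mulLeft F g) := by
      intro f hf
      obtain ⟨q, rfl⟩ := b3 f hf
      refine ⟨q, mem_degreeLT.2 ?_, rfl⟩
      rcases eq_or_ne q 0 with rfl | q0
      · simp
      · have := hn _ hf
        rw [natDegree_mul g0 q0] at this
        exact (natDegree_lt_iff_degree_lt q0).1 (by omega)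
    have := (degreeLTEquiv F (t.natDegree + 1 - g.natDegree)).symm.finiteDimensional
    have c2 := Submodule.finrank_mono c1
    rw [map_PExc g0, (degreeLTEquiv F _).finrank_eq, Module.finrank_fin_fun] at c2
    have := hn g hg
    omega
  · rintro ⟨⟨q, rfl⟩, hq⟩
    exact b2 q hq

end

theorem pExc : PExc := by
  classical
  intro F _ _ W₀ W₁ _ _ h0 hw hd
  have h1 : W₁ ≠ ⊥ := fun h => h0 (Submodule.finrank_eq_zero.1 (by rw [hw, h, finrank_bot]))
  obtain ⟨f₀, hf₀, n₀⟩ := Submodule.exists_mem_ne_zero_of_ne_bot h0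
  obtain ⟨f₁, hf₁, n₁⟩ := Submodule.exists_mem_ne_zero_of_ne_bot h1
  obtain ⟨a, ha⟩ := Infinite.exists_notMem_finset f₁.roots.toFinset
  obtain ⟨b, hb⟩ := Infinite.exists_notMem_finset (insert a f₀.roots.toFinset)
  obtain ⟨b', hb'⟩ := Infinite.exists_notMem_finset (insert b (insert a f₀.roots.toFinset))
  simp only [Finset.mem_insert, Multiset.mem_toFinset, mem_roots n₀, mem_roots n₁, not_or,
    IsRoot.def] at ha hb hb'
  have l1 := lt_PExc hf₁ ha
  have key : ∀ c, c ≠ a → f₀.eval c ≠ 0 → D_PExc W₀ c = D_PExc W₁ a ∧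
      Module.finrank F W₀ ≤ Module.finrank F (D_PExc W₀ c) + 1 := fun c hc hc' => by
    have l2 := lt_PExc hf₀ hc'
    have l3 := inf_PExc W₀ W₁ hc.symm
    have l4 := hd a c
    have e1 := Submodule.eq_of_le_of_finrank_le
      (inf_le_left : D_PExc W₀ c ⊓ D_PExc W₁ a ≤ _) (by omega)
    have e2 := Submodule.eq_of_le_of_finrank_le
      (inf_le_right : D_PExc W₀ c ⊓ D_PExc W₁ a ≤ _) (by omega)
    rw [e1] at l3
    exact ⟨e1.symm.trans e2, by omega⟩
  obtain ⟨e1, e2⟩ := key b hb.1 hb.2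
  obtain ⟨e3, -⟩ := key b' hb'.2.1 hb'.2.2
  have h2 : D_PExc W₀ b ≤ W₀ := fun h hh => by
    have c1 : (Polynomial.X - C b) * h ∈ W₀ := hh
    have c2 : (Polynomial.X - C b') * h ∈ W₀ := (e1.trans e3.symm).le hh
    have c3 := W₀.sub_mem c1 c2
    rw [show (Polynomial.X - C b) * h - (Polynomial.X - C b') * h = (b' - b) • h by
      rw [smul_eq_C_mul, C_sub]; ring] at c3
    exact (W₀.smul_mem_iff (sub_ne_zero.2 hb'.1)).1 c3
  refine str_PExc h0 h2 (fun h hh => ?_) e2
  have c1 : (Polynomial.X - C b) * h ∈ W₀ := hh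
  have c2 := W₀.add_mem c1 (W₀.smul_mem b (h2 hh))
  rwa [smul_eq_C_mul, ← add_mul, sub_add_cancel] at c2

end

section

open MeasureTheory Filter Topology Set Polynomial

theorem pre_PGen {F : Type} [Field F] [CharZero F] {B : Set F} (hB : B.Finite) (c : F) :
    {x : ℚ | (x : F) + c ∈ B}.Finite :=
  hB.preimage (f := fun x : ℚ => (x : F) + c) fun _ _ _ _ e =>
    Rat.cast_injective (α := F) (add_right_cancel e)

theorem tau_PGen (hO : POpen) {F : Type} [Field F] [CharZero F] {I : F} (hI : I ≠ 0)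
    (W₀ W₁ : Submodule F F[X]) [FiniteDimensional F W₀] [FiniteDimensional F W₁] (r : ℕ)
    (h : ∃ a b, r < dm W₀ W₁ a b) :
    {τ : ℚ | ¬ ∃ a, r < dm W₀ W₁ a (a - 2 * τ * I)}.Finite := by
  obtain ⟨a, b, h⟩ := h
  refine (pre_PGen (hO F W₀ W₁ a b I (-I)) (-((a - b) / (2 * I)))).subset fun τ hτ => ?_
  simp only [mem_ofPred_eq] at hτ ⊢
  by_contra hn
  refine hτ ⟨a + (τ + -((a - b) / (2 * I))) * I, ?_⟩
  have e : a + (τ + -((a - b) / (2 * I))) * I - 2 * τ * I =
      b + (τ + -((a - b) / (2 * I))) * -I := by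
    field_simp
    ring
  rw [e]
  omega

theorem x_PGen (hO : POpen) {F : Type} [Field F] [CharZero F] (I : F)
    (W₀ W₁ : Submodule F F[X]) [FiniteDimensional F W₀] [FiniteDimensional F W₁] (r : ℕ) (τ : ℚ)
    (h : ∃ a, r < dm W₀ W₁ a (a - 2 * τ * I)) :
    {x : ℚ | dm W₀ W₁ (x + τ * I) (x - τ * I) ≤ r}.Finite := by
  obtain ⟨a, h⟩ := h
  refine (pre_PGen (hO F W₀ W₁ a (a - 2 * τ * I) 1 1) (τ * I - a)).subset fun x hx => ?_
  simp only [mem_ofPred_eq] at hx ⊢
  have e1 : a + (x + (τ * I - a)) * 1 = x + τ * I := by ring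
  have e2 : a - 2 * τ * I + (x + (τ * I - a)) * 1 = x - τ * I := by ring
  rw [e1, e2]
  omega

theorem pGen (hO : POpen) (hE : PExc) : PGen := by
  intro F _ _ I hI L B hL hB hfd
  set P : Submodule F F[X] × Submodule F F[X] → Prop := fun p =>
    ∃ a b, Module.finrank F p.1 + 1 < dm p.1 p.2 a b with hP
  have f1 : (⋃ p ∈ L ×ˢ L, {τ : ℚ | P p ∧
      ¬ ∃ a, Module.finrank F p.1 + 1 < dm p.1 p.2 a (a - 2 * τ * I)}).Finite := by
    refine (hL.prod hL).biUnion fun p hp => ?_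
    have := hfd p.1 hp.1
    have := hfd p.2 hp.2
    by_cases h : P p
    · exact (tau_PGen hO hI p.1 p.2 _ h).subset fun τ hτ => hτ.2
    · exact finite_empty.subset fun τ hτ => h hτ.1
  obtain ⟨τ, hτ⟩ := (f1.insert 0).exists_notMem
  rw [mem_insert_iff, not_or] at hτ
  have f2 : (⋃ p ∈ L ×ˢ L, {x : ℚ | P p ∧
      dm p.1 p.2 (x + τ * I) (x - τ * I) ≤ Module.finrank F p.1 + 1}).Finite := by
    refine (hL.prod hL).biUnion fun p hp => ?_
    have := hfd p.1 hp.1
    have := hfd p.2 hp.2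
    by_cases h : P p
    · refine (x_PGen hO I p.1 p.2 _ τ ?_).subset fun x hx => hx.2
      by_contra hn
      exact hτ.2 (mem_biUnion hp ⟨h, hn⟩)
    · exact finite_empty.subset fun τ hτ => h hτ.1
  obtain ⟨x, hx⟩ := ((f2.union (pre_PGen hB (τ * I))).union (pre_PGen hB (-(τ * I)))).exists_notMem
  simp only [mem_union, not_or, mem_ofPred_eq] at hx
  refine ⟨x, τ, hτ.1, hx.1.2, by rw [sub_eq_add_neg]; exact hx.2, fun W₀ h0 W₁ h1 hb he hd => ?_⟩
  have := hfd W₀ h0
  have := hfd W₁ h1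
  have : Infinite F := Infinite.of_injective _ Nat.cast_injective
  refine hE F W₀ W₁ hb he fun a b => ?_
  by_contra hn
  exact hx.1.1 (mem_biUnion (x := (W₀, W₁)) ⟨h0, h1⟩ ⟨⟨a, b, not_le.1 hn⟩, hd⟩)

end

section

open MeasureTheory Filter Topology Set Polynomial

section

variable {F : Type} [Field F]

/-- the span holds all multiples of a polynomial of degree at most `k` -/
def Gd_PCube (h : ℕ) (Z : Finset F[X]) (k : ℕ) : Prop :=
  ∃ g : F[X], g.natDegree ≤ k ∧ (∃ f ∈ Z, g ∣ f) ∧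
    ∀ p, (g * p).natDegree ≤ h → g * p ∈ Submodule.span F (Z : Set F[X])

/-- the invariant -/
def Iv_PCube (h : ℕ) (Z : Finset F[X]) : Prop :=
  ∀ c, Module.finrank F (Submodule.span F (Z : Set F[X])) + c = h + 1 →
    (Z.card : ℝ) ≤ 2 ^ h * (1 / 2) ^ c ∧
      ∀ k, Gd_PCube h Z k ∨ (Z.card : ℝ) ≤ 2 ^ h * (7 / 8) ^ k * (3 / 4) ^ c

theorem le_PCube {h : ℕ} {Z : Finset F[X]} (hZ : ∀ f ∈ Z, f.natDegree = h) :
    Submodule.span F (Z : Set F[X]) ≤ degreeLT F (h + 1) :=
  Submodule.span_le.2 fun f hf => mem_degreeLT.2 (degree_le_natDegree.trans_lt (by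
    rw [hZ f hf]; exact_mod_cast h.lt_succ_self))

theorem dim_PCube {h : ℕ} {Z : Finset F[X]} (hZ : ∀ f ∈ Z, f.natDegree = h) :
    ∃ c, Module.finrank F (Submodule.span F (Z : Set F[X])) + c = h + 1 := by
  have e := (degreeLTEquiv F (h + 1)).finrank_eq
  rw [Module.finrank_fin_fun] at e
  have := Submodule.finrank_mono (le_PCube hZ)
  exact ⟨_, Nat.add_sub_of_le (e ▸ this)⟩

theorem map_PCube (W : Submodule F F[X]) (a : F) :
    Module.finrank F (W.map (LinearMap.mulLeft F (Polynomial.X - C a))) = Module.finrank F W :=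
  (Submodule.equivMapOfInjective _ (mul_right_injective₀ (X_sub_C_ne_zero a)) W).finrank_eq.symm

theorem dm_PCube (W₀ W₁ : Submodule F F[X]) [FiniteDimensional F W₀] [FiniteDimensional F W₁]
    {a b : F} (hab : a ≠ b) {f : F[X]} (hf : f ∈ W₁) (h0 : f.eval a ≠ 0) :
    Module.finrank F W₀ + 1 ≤ dm W₀ W₁ a b := by
  rw [← map_PCube W₀ a]
  refine Submodule.finrank_lt_finrank_of_lt (lt_of_le_of_ne le_sup_left fun e => ?_)
  obtain ⟨g, -, hg⟩ := e.ge (Submodule.mem_sup_right (Submodule.mem_map_of_mem hf))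
  have := congrArg (eval a) hg
  simp [h0, sub_eq_zero, hab] at this

theorem lift_PCube {h k : ℕ} {Z Z' : Finset F[X]} (a : F)
    (hZ : ∀ f ∈ Z, (Polynomial.X - C a) * f ∈ Z') (hg : Gd_PCube h Z k) :
    Gd_PCube (h + 1) Z' (k + 1) := by
  obtain ⟨g, h1, ⟨f, h2, h3⟩, h4⟩ := hg
  refine ⟨(Polynomial.X - C a) * g, natDegree_mul_le.trans (by rw [natDegree_X_sub_C]; omega),
    ⟨_, hZ f h2, mul_dvd_mul_left _ h3⟩, fun p hp => ?_⟩
  rw [mul_assoc] at hp ⊢
  by_cases h0 : g * p = 0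
  · rw [h0, mul_zero]; exact Submodule.zero_mem _
  rw [natDegree_mul (X_sub_C_ne_zero a) h0, natDegree_X_sub_C] at hp
  refine (Submodule.map_span_le (LinearMap.mulLeft F (Polynomial.X - C a)) _ _).2
    (fun f hf => Submodule.subset_span (hZ f hf)) ⟨_, h4 p (by omega), rfl⟩

theorem zero_PCube {x : ℝ} {h c : ℕ} (hx : x ≤ 2 ^ h * (1 / 2) ^ c) :
    x ≤ 2 ^ h * (7 / 8) ^ 0 * (3 / 4) ^ c := by
  rw [pow_zero, mul_one]
  exact hx.trans (mul_le_mul_of_nonneg_left (pow_le_pow_left₀ (by norm_num) (by norm_num) c)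
    (by positivity))

theorem one_PCube {h : ℕ} {Z Z' : Finset F[X]} (a : F) (hd : ∀ f ∈ Z, f.natDegree = h)
    (hZ : ∀ f ∈ Z, (Polynomial.X - C a) * f ∈ Z') (hc : Z'.card ≤ Z.card)
    (hs : Submodule.span F (Z' : Set F[X]) =
      (Submodule.span F (Z : Set F[X])).map (LinearMap.mulLeft F (Polynomial.X - C a)))
    (hI : Iv_PCube h Z) : Iv_PCube (h + 1) Z' := by
  intro c e
  obtain ⟨c₀, e₀⟩ := dim_PCube hd
  rw [hs, map_PCube] at e
  obtain rfl : c = c₀ + 1 := by omega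
  obtain ⟨h1, h2⟩ := hI c₀ e₀
  have hc' : (Z'.card : ℝ) ≤ Z.card := by exact_mod_cast hc
  have h3 : (Z'.card : ℝ) ≤ 2 ^ (h + 1) * (1 / 2) ^ (c₀ + 1) := by
    rw [pow_succ, pow_succ]; linarith
  refine ⟨h3, fun k => ?_⟩
  cases k with
  | zero => exact Or.inr (zero_PCube h3)
  | succ k =>
    refine (h2 k).imp (lift_PCube a hZ) fun h4 => ?_
    have : (0 : ℝ) ≤ 2 ^ h * (7 / 8) ^ k * (3 / 4) ^ c₀ := by positivity
    rw [pow_succ, pow_succ, pow_succ]; linarith

theorem two_PCube {h : ℕ} {Z₀ Z₁ Z : Finset F[X]} {a b : F} (hab : a ≠ b)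
    (d₀ : ∀ f ∈ Z₀, f.natDegree = h ∧ f.eval b ≠ 0) (d₁ : ∀ f ∈ Z₁, f.natDegree = h ∧ f.eval a ≠ 0)
    (m₀ : ∀ f ∈ Z₀, (Polynomial.X - C a) * f ∈ Z) (m₁ : ∀ f ∈ Z₁, (Polynomial.X - C b) * f ∈ Z)
    (hc : Z.card ≤ Z₀.card + Z₁.card)
    (hs : Submodule.span F (Z : Set F[X]) =
      (Submodule.span F (Z₀ : Set F[X])).map (LinearMap.mulLeft F (Polynomial.X - C a)) ⊔
      (Submodule.span F (Z₁ : Set F[X])).map (LinearMap.mulLeft F (Polynomial.X - C b)))
    (hG : Submodule.span F (Z₀ : Set F[X]) ≠ ⊥ →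
      Module.finrank F (Submodule.span F (Z₀ : Set F[X])) =
        Module.finrank F (Submodule.span F (Z₁ : Set F[X])) →
      dm (Submodule.span F (Z₀ : Set F[X])) (Submodule.span F (Z₁ : Set F[X])) a b ≤
        Module.finrank F (Submodule.span F (Z₀ : Set F[X])) + 1 →
      ∃ (g : F[X]) (n : ℕ), g.natDegree + Module.finrank F (Submodule.span F (Z₀ : Set F[X])) ≤
        n + 1 ∧ ∀ f, f ∈ Submodule.span F (Z₀ : Set F[X]) ↔ g ∣ f ∧ f.natDegree ≤ n)
    (i₀ : Iv_PCube h Z₀) (i₁ : Iv_PCube h Z₁) : Iv_PCube (h + 1) Z := by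
  rcases Z₁.eq_empty_or_nonempty with rfl | ⟨f₁, hf₁⟩
  · exact one_PCube a (fun f hf => (d₀ f hf).1) m₀ (by simpa using hc) (by simpa using hs) i₀
  rcases Z₀.eq_empty_or_nonempty with rfl | ⟨f₀, hf₀⟩
  · exact one_PCube b (fun f hf => (d₁ f hf).1) m₁ (by simpa using hc) (by simpa using hs) i₁
  intro c e
  obtain ⟨c₀, e₀⟩ := dim_PCube fun f hf => (d₀ f hf).1
  obtain ⟨c₁, e₁⟩ := dim_PCube fun f hf => (d₁ f hf).1
  have k₀ := dm_PCube (Submodule.span F (Z₀ : Set F[X])) _ hab (Submodule.subset_span hf₁)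
    (d₁ f₁ hf₁).2
  have k₁ := dm_PCube (Submodule.span F (Z₁ : Set F[X])) _ hab.symm (Submodule.subset_span hf₀)
    (d₀ f₀ hf₀).2
  rw [dm, sup_comm, ← hs] at k₁
  rw [dm, ← hs] at k₀ hG
  obtain ⟨a₀, b₀⟩ := i₀ c₀ e₀
  obtain ⟨a₁, b₁⟩ := i₁ c₁ e₁
  have hc' : (Z.card : ℝ) ≤ Z₀.card + Z₁.card := by exact_mod_cast hc
  have p2 : ∀ {r : ℝ} {i j : ℕ} (x : ℝ), 0 ≤ x → 0 ≤ r → r ≤ 1 → i ≤ j → x * r ^ j ≤ x * r ^ i :=
    fun x hx h0 h1 hij => mul_le_mul_of_nonneg_left (pow_le_pow_of_le_one h0 h1 hij) hx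
  have h3 : (Z.card : ℝ) ≤ 2 ^ (h + 1) * (1 / 2) ^ c := by
    have := p2 (r := 1 / 2) (i := c) (j := c₀) (2 ^ h) (by positivity) (by norm_num) (by norm_num)
      (by omega)
    have := p2 (r := 1 / 2) (i := c) (j := c₁) (2 ^ h) (by positivity) (by norm_num) (by norm_num)
      (by omega)
    rw [pow_succ]; linarith
  refine ⟨h3, fun k => ?_⟩
  cases k with
  | zero => exact Or.inr (zero_PCube h3)
  | succ k =>
    rcases b₀ k with g₀ | g₀
    · exact Or.inl (lift_PCube a m₀ g₀)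
    rcases b₁ k with g₁ | g₁
    · exact Or.inl (lift_PCube b m₁ g₁)
    have p3 := fun i j => p2 (r := 3 / 4) (i := i) (j := j) (2 ^ h * (7 / 8) ^ k) (by positivity)
      (by norm_num) (by norm_num)
    rcases lt_or_ge c c₀ with l₀ | l₀
    · have := p3 _ _ l₀
      have := p3 c c₁ (by omega)
      right; rw [pow_succ] at *; rw [pow_succ]; linarith
    rcases lt_or_ge c c₁ with l₁ | l₁
    · have := p3 _ _ l₁
      have := p3 c c₀ (by omega)
      right; rw [pow_succ] at *; rw [pow_succ]; linarith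
    have hf : f₀ ≠ 0 := fun e => (d₀ f₀ hf₀).2 (by rw [e, eval_zero])
    obtain ⟨g, n, q₁, q₂⟩ := hG (fun e => hf ((Submodule.span_eq_bot.1 e) f₀ hf₀)) (by omega)
      (by omega)
    obtain ⟨q₃, q₄⟩ := (q₂ f₀).1 (Submodule.subset_span hf₀)
    have q₅ := natDegree_le_of_dvd q₃ hf
    rw [(d₀ f₀ hf₀).1] at q₄ q₅
    have hg : g ≠ 0 := ne_zero_of_dvd_ne_zero hf q₃
    have q₆ : (g * Polynomial.X ^ (n - g.natDegree)).natDegree = n := by
      rw [natDegree_mul_X_pow _ hg]; omega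
    have q₇ := mem_degreeLT.1 (le_PCube (fun f hf => (d₀ f hf).1)
      ((q₂ _).2 ⟨dvd_mul_right _ _, q₆.le⟩))
    rw [degree_eq_natDegree (mul_ne_zero hg (pow_ne_zero _ X_ne_zero)), q₆, Nat.cast_lt] at q₇
    rcases le_or_gt c k with l | l
    · exact Or.inl (lift_PCube a m₀ ⟨g, by omega, ⟨f₀, hf₀, q₃⟩, fun p hp =>
        (q₂ _).2 ⟨dvd_mul_right _ _, hp.trans q₄⟩⟩)
    · refine Or.inr (h3.trans ?_)
      rw [mul_assoc]
      refine mul_le_mul_of_nonneg_left ?_ (by positivity)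
      calc ((1 : ℝ) / 2) ^ c ≤ (7 / 8 * (3 / 4)) ^ c :=
          pow_le_pow_left₀ (by norm_num) (by norm_num) c
        _ = (7 / 8) ^ c * (3 / 4) ^ c := mul_pow _ _ _
        _ ≤ _ := mul_le_mul_of_nonneg_right
          (pow_le_pow_of_le_one (by norm_num) (by norm_num) l) (by positivity)

end

theorem pCube (hG : PGen) : PCube := by
  classical
  intro F _ _ I hI nr hn b₀ h
  suffices H : ∃ (Q : Finset F[X]) (ρ : ℝ), ρ ≠ 0 ∧ Q.card = 2 ^ h ∧
      (∀ f ∈ Q, f.natDegree = h ∧ nr f = ρ ∧ f.eval b₀ ≠ 0) ∧ ∀ Z ⊆ Q, Iv_PCube h Z by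
    obtain ⟨Q, ρ, h1, h2, h3, h4⟩ := H
    refine ⟨Q, ρ, h1, h2, h3, fun Z hZ k hk => ?_⟩
    obtain ⟨c, e⟩ := dim_PCube fun f hf => (h3 f (hZ hf)).1
    refine ((h4 Z hZ c e).2 k).resolve_right (not_le.2 (lt_of_le_of_lt ?_ hk))
    exact mul_le_of_le_one_right (by positivity) (pow_le_one₀ (by norm_num) (by norm_num))
  induction h with
  | zero =>
    refine ⟨{1}, 1, one_ne_zero, rfl, by simp, fun Z hZ c e => ?_⟩
    rcases Finset.subset_singleton_iff.1 hZ with rfl | rfl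
    · exact ⟨by simp, fun k => Or.inr (by simp only [Finset.card_empty, Nat.cast_zero]; positivity)⟩
    · rw [Finset.coe_singleton, finrank_span_singleton one_ne_zero] at e
      obtain rfl : c = 0 := by omega
      refine ⟨by simp, fun k => Or.inl ⟨1, by simp, by simp, fun p hp => ?_⟩⟩
      rw [eq_C_of_natDegree_le_zero hp, Finset.coe_singleton, Submodule.mem_span_singleton]
      exact ⟨_, by rw [smul_eq_C_mul, mul_one]⟩
  | succ h ih =>
    obtain ⟨Q, ρ, h1, h2, h3, h4⟩ := ih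
    have h0 : ∀ f ∈ Q, f ≠ 0 := fun f hf e => (h3 f hf).2.2 (by rw [e, eval_zero])
    obtain ⟨x, τ, hτ, ha, hb, hg⟩ := hG F I hI
      ((fun Z : Finset F[X] => Submodule.span F (Z : Set F[X])) '' Q.powerset)
      ((insert b₀ (Q.biUnion fun f => f.roots.toFinset) : Finset F) : Set F)
      ((Finset.finite_toSet _).image _) (Finset.finite_toSet _)
      (by rintro _ ⟨Z, -, rfl⟩; infer_instance)
    obtain ⟨n1, n2⟩ := hn x τ hτ
    have hab : (x : F) + τ * I ≠ x - τ * I := fun e => mul_ne_zero (Rat.cast_ne_zero.2 hτ) hI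
      (mul_left_cancel₀ (two_ne_zero' F) (by linear_combination e))
    generalize (x : F) + τ * I = a at *
    generalize (x : F) - τ * I = b at *
    have key : ∀ a : F, a ∉ ((insert b₀ (Q.biUnion fun f => f.roots.toFinset) : Finset F) : Set F) →
        b₀ - a ≠ 0 ∧ ∀ f ∈ Q, f.eval a ≠ 0 := fun a ha =>
      ⟨fun e => ha (by simp [sub_eq_zero.1 e]), fun f hf e => ha (Finset.mem_insert_of_mem
        (Finset.mem_biUnion.2 ⟨f, hf, Multiset.mem_toFinset.2 ((mem_roots (h0 f hf)).2 e)⟩))⟩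
    obtain ⟨a1, a2⟩ := key a ha
    obtain ⟨b1, b2⟩ := key b hb
    refine ⟨Q.image ((Polynomial.X - C a) * ·) ∪ Q.image ((Polynomial.X - C b) * ·),
      nr (Polynomial.X - C a) * ρ, mul_ne_zero n2 h1, ?_, fun f hf => ?_, fun Z hZ => ?_⟩
    · rw [Finset.card_union_of_disjoint, Finset.card_image_of_injective _
        (mul_right_injective₀ (X_sub_C_ne_zero a)), Finset.card_image_of_injective _
        (mul_right_injective₀ (X_sub_C_ne_zero b)), h2, pow_succ, mul_two]
      refine Finset.disjoint_left.2 fun f hf hf' => ?_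
      obtain ⟨f₀, -, rfl⟩ := Finset.mem_image.1 hf
      obtain ⟨f₁, hf₁, e⟩ := Finset.mem_image.1 hf'
      have := congrArg (eval a) e
      simp [a2 f₁ hf₁, sub_eq_zero, hab] at this
    · rcases Finset.mem_union.1 hf with hf | hf <;> obtain ⟨g, hq, rfl⟩ := Finset.mem_image.1 hf <;>
        rw [natDegree_mul (X_sub_C_ne_zero _) (h0 g hq), natDegree_X_sub_C, map_mul] <;>
        simp [h3 g hq, a1, b1, n1, add_comm]
    · have e : Z = (Q.filter fun f => (Polynomial.X - C a) * f ∈ Z).image ((Polynomial.X - C a) * ·) ∪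
          (Q.filter fun f => (Polynomial.X - C b) * f ∈ Z).image ((Polynomial.X - C b) * ·) := by
        rw [← Finset.filter_image (p := (· ∈ Z)), ← Finset.filter_image (p := (· ∈ Z)),
          ← Finset.filter_union, Finset.filter_mem_eq_inter, Finset.inter_eq_right.2 hZ]
      refine two_PCube (Z₀ := Q.filter fun f => (Polynomial.X - C a) * f ∈ Z)
        (Z₁ := Q.filter fun f => (Polynomial.X - C b) * f ∈ Z) hab
        (fun f hf => ⟨(h3 f (Finset.mem_filter.1 hf).1).1, b2 f (Finset.mem_filter.1 hf).1⟩)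
        (fun f hf => ⟨(h3 f (Finset.mem_filter.1 hf).1).1, a2 f (Finset.mem_filter.1 hf).1⟩)
        (fun f hf => (Finset.mem_filter.1 hf).2) (fun f hf => (Finset.mem_filter.1 hf).2) ?_ ?_
        (hg _ ⟨_, Finset.mem_powerset.2 (Finset.filter_subset _ _), rfl⟩ _
          ⟨_, Finset.mem_powerset.2 (Finset.filter_subset _ _), rfl⟩) (h4 _ (Finset.filter_subset _ _))
        (h4 _ (Finset.filter_subset _ _))
      · conv_lhs => rw [e]
        exact (Finset.card_union_le _ _).trans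
          (add_le_add Finset.card_image_le Finset.card_image_le)
      · conv_lhs => rw [e]
        rw [Finset.coe_union, Submodule.span_union, Finset.coe_image, Finset.coe_image,
          Submodule.map_span, Submodule.map_span]
        rfl

end

section

open MeasureTheory Filter Topology Set Polynomial

theorem bez_PMain {F : Type} [Field F] [CharZero F] {I : F} (hI : I ≠ 0) {e k h : ℕ}
    {g1 q g2 : F[X]} (h2 : g2.eval (-I) ≠ 0) (hq : (g1 * q).natDegree ≤ h)
    (k1 : g1.natDegree ≤ k) (k2 : g2.natDegree ≤ k) (hd : e + 1 + 2 * k ≤ h) :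
    ∃ α β : F[X], (Polynomial.X - C I) * (Polynomial.X + C I) ^ e * (g1 * q) =
      (Polynomial.X + C I) ^ (e + 1) * (g1 * α) +
        (Polynomial.X - C I) ^ (e + 1) * (g2 * (g1 * β)) ∧
      (g1 * α).natDegree ≤ h ∧ (g2 * (g1 * β)).natDegree ≤ h := by
  have mA : ((Polynomial.X + C I) ^ (e + 1) : F[X]).Monic := (monic_X_add_C I).pow _
  have dA : ((Polynomial.X + C I) ^ (e + 1) : F[X]).natDegree = e + 1 := by
    rw [(monic_X_add_C I).natDegree_pow, natDegree_X_add_C, mul_one]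
  have dB : ((Polynomial.X - C I) ^ (e + 1) : F[X]).natDegree = e + 1 := by
    rw [(monic_X_sub_C I).natDegree_pow, natDegree_X_sub_C, mul_one]
  have hc : IsCoprime (Polynomial.X + C I : F[X]) ((Polynomial.X - C I) ^ (e + 1) * g2) := by
    have e1 : (Polynomial.X + C I : F[X]) = Polynomial.X - C (-I) := by rw [C_neg, sub_neg_eq_add]
    rw [e1, (irreducible_X_sub_C (-I)).coprime_iff_not_dvd, dvd_iff_isRoot, IsRoot, eval_mul,
      eval_pow, eval_sub, eval_X, eval_C]
    refine mul_ne_zero (pow_ne_zero _ fun e2 => hI ?_) h2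
    linear_combination (-1 / 2 : F) * e2
  obtain ⟨a, b, hab⟩ := hc.pow_left (m := e + 1)
  set A : F[X] := (Polynomial.X + C I) ^ (e + 1) with hA
  set B : F[X] := (Polynomial.X - C I) ^ (e + 1) with hB
  set y : F[X] := (Polynomial.X - C I) * (Polynomial.X + C I) ^ e with hy
  have dy : y.natDegree ≤ e + 1 := by
    refine natDegree_mul_le.trans ?_
    rw [(monic_X_add_C I).natDegree_pow, natDegree_X_add_C, natDegree_X_sub_C]
    omega
  have hm := modByMonic_add_div (b * (y * q)) A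
  have dβ : ((b * (y * q)) %ₘ A).natDegree ≤ e + 1 := (natDegree_modByMonic_le _ mA).trans dA.le
  have d2 : (g2 * (g1 * ((b * (y * q)) %ₘ A))).natDegree ≤ h := by
    have a1 := natDegree_mul_le (p := g2) (q := g1 * ((b * (y * q)) %ₘ A))
    have a2 := natDegree_mul_le (p := g1) (q := (b * (y * q)) %ₘ A)
    omega
  have key : y * (g1 * q) = A * (g1 * (a * (y * q) + B * g2 * ((b * (y * q)) /ₘ A))) +
      B * (g2 * (g1 * ((b * (y * q)) %ₘ A))) := by
    linear_combination (-(g1 * y * q)) * hab - (g1 * B * g2) * hm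
  refine ⟨_, _, key, ?_, d2⟩
  by_cases h0 : g1 * (a * (y * q) + B * g2 * ((b * (y * q)) /ₘ A)) = 0
  · rw [h0, natDegree_zero]
    exact Nat.zero_le _
  have a1 := mA.natDegree_mul' h0
  rw [← sub_eq_iff_eq_add.2 key] at a1
  have a2 := natDegree_sub_le (y * (g1 * q)) (B * (g2 * (g1 * ((b * (y * q)) %ₘ A))))
  have a3 := natDegree_mul_le (p := y) (q := g1 * q)
  have a4 := natDegree_mul_le (p := B) (q := g2 * (g1 * ((b * (y * q)) %ₘ A)))
  omega

theorem cnt_PMain {a : ℕ → ℝ} {N c : ℝ} {M : ℕ} (hN : ∀ m, a m ≤ N) (hN0 : 0 ≤ N) (hc : 0 ≤ c)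
    (h : ∀ m e, m + (e + 1) < M → c < a m → c < a (m + (e + 1)) → False) :
    ∑ m ∈ Finset.range M, a m ≤ N + M * c := by
  obtain ⟨m0, h0⟩ : ∃ m0, ∀ m < M, m ≠ m0 → a m ≤ c := by
    by_cases h1 : ∃ m0 < M, c < a m0
    · obtain ⟨m0, h2, h3⟩ := h1
      refine ⟨m0, fun m hm hne => le_of_not_gt fun h4 => ?_⟩
      rcases lt_or_gt_of_ne hne with h5 | h5
      · obtain ⟨e, rfl⟩ := Nat.exists_eq_add_of_lt h5
        exact h m e h2 h4 h3
      · obtain ⟨e, rfl⟩ := Nat.exists_eq_add_of_lt h5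
        exact h m0 e hm h3 h4
    · exact ⟨0, fun m hm _ => le_of_not_gt fun h4 => h1 ⟨m, hm, h4⟩⟩
  calc ∑ m ∈ Finset.range M, a m ≤ ∑ m ∈ Finset.range M, ((if m = m0 then N else 0) + c) := by
        refine Finset.sum_le_sum fun m hm => ?_
        split_ifs with h1
        · linarith [hN m]
        · linarith [h0 m (Finset.mem_range.1 hm) h1]
    _ ≤ N + M * c := by
        rw [Finset.sum_add_distrib, Finset.sum_ite_eq', Finset.sum_const, Finset.card_range,
          nsmul_eq_mul]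
        split_ifs <;> linarith

theorem card_PMain {α β : Type} (s : Finset α) (Q : Finset β) (P : α × β → Prop)
    [DecidablePred P] :
    (((s ×ˢ Q).filter P).card : ℝ) = ∑ m ∈ s, ((Q.filter fun f => P (m, f)).card : ℝ) := by
  rw [← Nat.cast_sum]
  simp only [Finset.card_filter, Finset.sum_product]

theorem real_PMain {z : ℂ} (h : ‖z + Complex.I‖ = ‖z - Complex.I‖) : z.im = 0 := by
  have h1 : ‖z + Complex.I‖ ^ 2 = ‖z - Complex.I‖ ^ 2 := by rw [h]
  rw [Complex.sq_norm, Complex.sq_norm, Complex.normSq_apply, Complex.normSq_apply] at h1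
  simp only [Complex.add_re, Complex.add_im, Complex.sub_re, Complex.sub_im, Complex.I_re,
    Complex.I_im] at h1
  linarith

theorem ev_PMain {F K : Type} [Field F] [Field K] [Algebra F K] {I : F} {t u : K}
    (ht : t - algebraMap F K I = u * (t + algebraMap F K I)) (ht0 : t + algebraMap F K I ≠ 0)
    {e : ℕ} {y a b : F[X]} (h : (Polynomial.X - C I) * (Polynomial.X + C I) ^ e * y =
      (Polynomial.X + C I) ^ (e + 1) * a + (Polynomial.X - C I) ^ (e + 1) * b) :
    u * aeval t y = aeval t a + u ^ (e + 1) * aeval t b := by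
  have h1 := congrArg (aeval t) h
  simp only [map_add, map_mul, map_pow, map_sub, aeval_X, aeval_C, ht, mul_pow] at h1
  refine mul_left_cancel₀ (pow_ne_zero (e + 1) ht0) ?_
  linear_combination h1

open Classical in
theorem pMain (hC : PCube) : PMain := by
  intro K _ _ u hu δ hδ
  by_cases h1 : u = 1
  · refine ⟨Unit, {()}, fun _ => 1, Finset.singleton_nonempty _, fun _ _ => by simp, fun V => ?_⟩
    rw [Finset.filter_false_of_mem fun _ _ h => h.2 (by simpa [h1] using h.1)]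
    simpa using hδ.le
  obtain ⟨I, hI⟩ : ∃ I : FF K, jo (I : K) = Complex.I := by
    refine ⟨⟨em (jj ⟨0, 1⟩), Subfield.subset_closure ⟨_, rfl⟩⟩, ?_⟩
    simp [jo_em, jj_apply, io_IG]
  have hi0 : (I : K) ≠ 0 := fun e => Complex.I_ne_zero (by rw [← hI, e, map_zero])
  have hI0 : I ≠ 0 := fun e => hi0 (by rw [e]; rfl)
  obtain ⟨t, ht, ht0⟩ : ∃ t : K, t - I = u * (t + I) ∧ t + I ≠ 0 := by
    have h2 : 1 - u ≠ 0 := sub_ne_zero.2 (Ne.symm h1)
    refine ⟨I * (1 + u) / (1 - u), by field_simp; ring, ?_⟩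
    have e : (I : K) * (1 + u) / (1 - u) + I = 2 * I / (1 - u) := by field_simp; ring
    rw [e]
    exact div_ne_zero (mul_ne_zero two_ne_zero hi0) h2
  have hT : (jo t).im = 0 := real_PMain (by
    rw [← hI, ← map_add, ← map_sub, ht, map_mul, norm_mul, hu, one_mul])
  let nr : (FF K)[X] →* ℝ :=
    { toFun := fun f => ‖jo (aeval t f)‖
      map_one' := by simp
      map_mul' := fun f g => by simp }
  have hnr : ∀ f, nr f = ‖jo (aeval t f)‖ := fun _ => rfl
  obtain ⟨k, hk⟩ := exists_pow_lt_of_lt_one (half_pos hδ) (show (7 / 8 : ℝ) < 1 by norm_num)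
  obtain ⟨M, hM⟩ := exists_nat_gt (2 / δ)
  have hM0 : (0 : ℝ) < M := lt_trans (by positivity) hM
  rw [div_lt_iff₀ hδ] at hM
  obtain ⟨Q, ρ, hρ, hQc, hQ, hZ⟩ := hC (FF K) I hI0 nr (fun x τ hτ => by
    have hI' : jo (algebraMap (FF K) K I) = Complex.I := hI
    simp only [hnr, map_sub, map_add, map_mul, aeval_X, aeval_C, map_ratCast, hI']
    refine ⟨?_, norm_ne_zero_iff.2 fun e => hτ ?_⟩
    · rw [← Complex.norm_conj]
      congr 1
      apply Complex.ext <;> simp [hT]
    · simpa [hT] using congrArg Complex.im e) (-I) (M + 2 * k)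
  obtain ⟨f0, hf0⟩ : Q.Nonempty := Finset.card_pos.1 (by rw [hQc]; positivity)
  have hc0 := (hQ f0 hf0).2.1
  rw [hnr] at hc0
  refine ⟨ℕ × (FF K)[X], Finset.range M ×ˢ Q, fun x => u ^ x.1 / aeval t f0 * aeval t x.2,
    ⟨(0, f0), Finset.mk_mem_product (Finset.mem_range.2 (by exact_mod_cast hM0)) hf0⟩,
    fun x hx => ?_, fun V => ?_⟩
  · have h2 := (hQ x.2 (Finset.mem_product.1 hx).2).2.1
    rw [hnr] at h2
    rw [map_mul, map_div₀, map_pow, norm_mul, norm_div, norm_pow, hu, hc0, h2, one_pow,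
      one_div_mul_cancel hρ]
  rw [card_PMain, Finset.card_product, Finset.card_range, hQc]
  refine (cnt_PMain (N := 2 ^ (M + 2 * k)) (c := 2 ^ (M + 2 * k) * (7 / 8) ^ k) (fun m => ?_)
    (by positivity) (by positivity) fun m e hm a1 a2 => ?_).trans ?_
  · exact_mod_cast (Finset.card_filter_le _ _).trans hQc.le
  · have hsp : ∀ (j : ℕ) (Z : Finset (FF K)[X]), (∀ f ∈ Z, u ^ j / aeval t f0 * aeval t f ∈ V) →
        ∀ f ∈ Submodule.span (FF K) (Z : Set (FF K)[X]), u ^ j / aeval t f0 * aeval t f ∈ V :=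
      fun j Z hz f hf => (Submodule.span_le (p := V.comap ((LinearMap.mulLeft (FF K)
        (u ^ j / aeval t f0)).comp (aeval t).toLinearMap))).2 (fun g hg => hz g hg) hf
    obtain ⟨g1, d1, ⟨f1, m1, q, rfl⟩, s1⟩ := hZ _ (Finset.filter_subset _ _) k a1
    obtain ⟨g2, d2, ⟨f2, m2, q2, rfl⟩, s2⟩ := hZ _ (Finset.filter_subset _ _) k a2
    have b1 := (hQ _ (Finset.mem_filter.1 m2).1).2.2
    rw [eval_mul] at b1
    obtain ⟨α, β, b2, b3, b4⟩ := bez_PMain (e := e) hI0 (left_ne_zero_of_mul b1)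
      (hQ _ (Finset.mem_filter.1 m1).1).1.le d1 d2 (by omega)
    have c1 := hsp m _ (fun f hf => (Finset.mem_filter.1 hf).2.1) _ (s1 α b3)
    have c2 := hsp (m + (e + 1)) _ (fun f hf => (Finset.mem_filter.1 hf).2.1) _ (s2 _ b4)
    refine (Finset.mem_filter.1 m1).2.2 ?_
    have b6 := ev_PMain (I := I) ht ht0 b2
    have b7 : u * (u ^ m / aeval t f0 * aeval t (g1 * q)) =
        u ^ m / aeval t f0 * aeval t (g1 * α) +
          u ^ (m + (e + 1)) / aeval t f0 * aeval t (g2 * (g1 * β)) := by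
      linear_combination (u ^ m / aeval t f0) * b6
    exact b7 ▸ V.add_mem c1 c2
  · have h2 : (0 : ℝ) < 2 ^ (M + 2 * k) := by positivity
    have h3 := mul_le_mul_of_nonneg_left hk.le (mul_pos hM0 h2).le
    have h4 := mul_le_mul_of_nonneg_left hM.le h2.le
    push_cast
    linarith

end

section

open MeasureTheory Filter Topology Set Polynomial

theorem countable_KBig (L : IntermediateField ℚ ℝ) [Countable L] :
    Countable (algebraicClosure L ℂ) := by
  have h : Set.Countable {x : ℂ | IsAlgebraic L x} := Algebraic.countable L ℂ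
  exact (h.mono fun x hx => (mem_algebraicClosure_iff).1 hx :
    (algebraicClosure L ℂ : Set ℂ).Countable).to_subtype

/-- the complex numbers algebraic over a real field -/
@[reducible] def big_KBig (L : IntermediateField ℚ ℝ) : Big (algebraicClosure L ℂ) where
  jo' := (algebraicClosure L ℂ).val.toRingHom
  em' := io.codRestrict (algebraicClosure L ℂ) fun g =>
    (mem_algebraicClosure_iff).2 ((isAlgebraic_io g).tower_top L)
  jo_em' _ := rfl
  conj' x := ⟨⟨_, (mem_algebraicClosure_iff).2 (((mem_algebraicClosure_iff).1 x.2).algHom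
    ((Complex.conjAe : ℂ →ₐ[ℝ] ℂ).restrictScalars L))⟩, rfl⟩
  sqrt' x := by
    obtain ⟨y, hy⟩ := IsAlgClosed.exists_eq_mul_self (x : ℂ)
    refine ⟨⟨y, (mem_algebraicClosure_iff).2 (IsAlgebraic.of_pow (n := 2) two_pos ?_)⟩,
      Subtype.ext hy.symm⟩
    rw [sq, ← hy]
    exact (mem_algebraicClosure_iff).1 x.2

theorem kBig : KBig := by
  intro A hA
  have : Countable (IntermediateField.adjoin ℚ A) := by
    rw [← Cardinal.mk_le_aleph0_iff]
    refine (IntermediateField.cardinalMk_adjoin_le ℚ A).trans ?_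
    exact max_le (max_le Cardinal.mk_le_aleph0 hA.le_aleph0) le_rfl
  refine ⟨_, inferInstance, countable_KBig (IntermediateField.adjoin ℚ A), big_KBig _,
    fun d hd => ⟨algebraMap (IntermediateField.adjoin ℚ A) _
      ⟨d, IntermediateField.subset_adjoin ℚ A hd⟩, rfl⟩⟩

theorem split_KBig {K : Type} [Field K] [Big K] (w : K) (hw : ‖jo w‖ ≤ 2) :
    ∃ u u' : K, ‖jo u‖ = 1 ∧ ‖jo u'‖ = 1 ∧ w = u + u' := by
  by_cases h0 : w = 0
  · exact ⟨1, -1, by simp, by simp, by simp [h0]⟩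
  have hpos : 0 < ‖jo w‖ := norm_pos_iff.2 ((_root_.map_ne_zero jo).2 h0)
  obtain ⟨w', hw'⟩ := exists_conjK w
  have hw2 : jo w * jo w' = ((‖jo w‖ ^ 2 : ℝ) : ℂ) := by
    rw [hw', ← Complex.normSq_eq_norm_sq, ← Complex.mul_conj]
  have ht : 0 ≤ 1 / ‖jo w‖ ^ 2 - 1 / 4 := by
    have h1 : ‖jo w‖ ^ 2 ≤ 4 := by nlinarith
    have h2 := one_div_le_one_div_of_le (by positivity) h1
    linarith
  set r := Real.sqrt (1 / ‖jo w‖ ^ 2 - 1 / 4) with hr
  have hr2 : r ^ 2 = 1 / ‖jo w‖ ^ 2 - 1 / 4 := Real.sq_sqrt ht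
  obtain ⟨ρ, hρ⟩ := exists_sqrtK (1 / (w * w') - 1 / 4)
  have e : jo ρ * jo ρ = (r : ℂ) * r := by
    rw [← map_mul, hρ, map_sub, map_div₀, map_div₀, map_mul, hw2, map_one, map_ofNat, ← sq,
      ← Complex.ofReal_pow, hr2]
    push_cast
    ring
  obtain ⟨s, hs, hs2⟩ : ∃ s : ℝ, jo ρ = s ∧ s ^ 2 = r ^ 2 := by
    rcases mul_self_eq_mul_self_iff.1 e with k | k
    · exact ⟨r, k, rfl⟩
    · exact ⟨-r, by rw [k, Complex.ofReal_neg], by ring⟩
  have key : ∀ s : ℝ, s ^ 2 = r ^ 2 → ‖jo w * (1 / 2 + Complex.I * s)‖ = 1 := by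
    intro s hs
    have h1 : ‖(1 / 2 + Complex.I * s : ℂ)‖ ^ 2 = 1 / ‖jo w‖ ^ 2 := by
      rw [← Complex.normSq_eq_norm_sq, Complex.normSq_apply]
      simp
      nlinarith [hr2, one_div (‖jo w‖ ^ 2)]
    have h2 : ‖jo w * (1 / 2 + Complex.I * s)‖ ^ 2 = 1 := by
      rw [norm_mul, mul_pow, h1]
      field_simp
    exact (pow_eq_one_iff_of_nonneg (norm_nonneg _) two_ne_zero).1 h2
  refine ⟨w * (1 / 2 + em IG * ρ), w * (1 / 2 - em IG * ρ), ?_, ?_, by ring⟩
  · have h := key s hs2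
    rwa [map_mul, map_add, map_mul, jo_em, io_IG, hs, map_div₀, map_one, map_ofNat]
  · have h := key (-s) (by rw [← hs2]; ring)
    rw [map_mul, map_sub, map_mul, jo_em, io_IG, hs, map_div₀, map_one, map_ofNat]
    rwa [Complex.ofReal_neg, mul_neg, ← sub_eq_add_neg] at h

theorem kTwo : KTwo := by
  intro K _ _ g z hg h
  have hpos : 0 < ‖jo g‖ := norm_pos_iff.2 ((_root_.map_ne_zero jo).2 hg)
  obtain ⟨u, u', hu, hu', e⟩ := split_KBig (z / g) (by
    rw [map_div₀, norm_div, div_le_iff₀ hpos]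
    exact h)
  exact ⟨u, u', hu, hu', by rw [← add_mul, ← e, div_mul_cancel₀ _ hg]⟩

end

section

open MeasureTheory Filter Topology Set

theorem ycond_jj' {θ : X} (h : Ycond θ) (a : GaussianInt) : Ycond (S (jj a) θ) := by
  obtain ⟨m, hm, ξ, h⟩ := h
  refine ⟨m, hm, ξ * io (jj a), fun e => ?_⟩
  rw [← S_chi, ← S_sub, van_S]
  exact (h e).of_eq a (mul_comm _ _)

theorem ycond_inv' {θ : X} (h : Ycond θ) {a : GaussianInt} (ha : a ≠ 0) :
    Ycond (S (jj a)⁻¹ θ) := by
  obtain ⟨m, hm, ξ, h⟩ := h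
  refine ⟨a * m, mul_ne_zero ha hm, ξ * io (jj a)⁻¹, fun e => ?_⟩
  rw [← S_chi, ← S_sub, van_S, map_mul, mul_div_assoc, inv_mul_cancel_left₀ (jj_ne_zero ha)]
  exact h e

variable {K : Type} [Field K] [Big K]

theorem ff_repr {x : K} (h : x ∈ FF K) : ∃ a b : GaussianInt, x = em (jj a) / em (jj b) := by
  obtain ⟨y, hy, z, hz, rfl⟩ := Subfield.mem_closure_iff.1 h
  have e : Subring.closure (range fun w : GaussianInt => (em (jj w) : K)) ≤
      ((em : G →+* K).comp jj).range := Subring.closure_le.2 (by rintro _ ⟨w, rfl⟩; exact ⟨w, rfl⟩)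
  obtain ⟨a, rfl⟩ := e hy
  obtain ⟨b, rfl⟩ := e hz
  exact ⟨a, b, rfl⟩

/-- the lines on which a character is structured -/
def VK (θ : K →+ T) : Submodule (FF K) K where
  carrier := {x | Ycond (rs (SK x θ))}
  zero_mem' := ⟨1, one_ne_zero, 0, fun e w => by simp [chi_zero]⟩
  add_mem' := by
    rintro x y ⟨m, hm, ξ, h⟩ ⟨m', hm', ξ', h'⟩
    refine ⟨m * m', mul_ne_zero hm hm', ξ + ξ', fun e => ?_⟩
    have : rs (SK (x + y) θ) - chi (ξ + ξ') =
        (rs (SK x θ) - chi ξ) + (rs (SK y θ) - chi ξ') := by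
      ext z
      simp [chi_apply, add_mul]
      abel
    rw [this]
    exact ((h e).of_eq m' (by rw [map_mul]; ring)).add ((h' e).of_eq m (by rw [map_mul]; ring))
  smul_mem' := by
    rintro ⟨q, hq⟩ x h
    obtain ⟨a, b, rfl⟩ := ff_repr hq
    by_cases hb : b = 0
    · refine ⟨1, one_ne_zero, 0, fun e w => ?_⟩
      simp [chi_zero, hb, Subfield.smul_def]
    have := ycond_inv' (ycond_jj' h a) hb
    rw [S_rs, S_rs, SK_SK, SK_SK, map_inv₀, ← mul_assoc, ← div_eq_mul_inv, mul_div_assoc,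
      mul_comm] at this
    exact this

theorem mem_VK {θ : K →+ T} {x : K} : x ∈ VK θ ↔ Ycond (rs (SK x θ)) := Iff.rfl

theorem measurableSet_VK (x : K) : MeasurableSet {θ : K →+ T | x ∈ VK θ} :=
  (measurable_rs.comp (measurable_SK x)) measurableSet_Y

theorem unit_Sub (hM : PMain) (ν : Measure (K →+ T)) [IsFiniteMeasure ν] (hU : UK ν) {u : K}
    (hu : ‖jo u‖ = 1) : ∀ᵐ θ ∂ν, (1 : K) ∈ VK θ → u ∈ VK θ := by
  classical
  let A : Set (K →+ T) := {θ | (1 : K) ∈ VK θ ∧ u ∉ VK θ}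
  have hA : MeasurableSet A := (measurableSet_VK 1).inter (measurableSet_VK u).compl
  have key : ∀ δ : ℝ, 0 < δ → ν.real A ≤ δ * ν.real univ := fun δ hδ => by
    obtain ⟨ι, s, p, hs, hp, h⟩ := hM K u hu δ hδ
    have c : (0 : ℝ) < s.card := Nat.cast_pos.2 hs.card_pos
    have m : ∀ i, MeasurableSet (SK (p i) ⁻¹' A) := fun i => measurable_SK _ hA
    have e1 : ∑ i ∈ s, ∫ θ, (SK (p i) ⁻¹' A).indicator (1 : (K →+ T) → ℝ) θ ∂ν =
        s.card * ν.real A := by
      rw [Finset.sum_congr rfl (g := fun _ => ν.real A) fun i hi => by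
        rw [integral_indicator_one (m i),
          (hU _ (hp i hi)).measureReal_preimage hA.nullMeasurableSet]]
      simp
    have i1 : ∀ i ∈ s, Integrable ((SK (p i) ⁻¹' A).indicator (1 : (K →+ T) → ℝ)) ν :=
      fun i _ => (integrable_const 1).indicator (m i)
    rw [← integral_finsetSum _ i1] at e1
    have e2 := integral_mono (integrable_finsetSum s i1) (integrable_const (δ * s.card))
      fun θ => le_trans (le_of_eq (by
        simp only [indicator, Finset.card_filter, Nat.cast_sum]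
        refine Finset.sum_congr rfl fun i _ => ?_
        have : θ ∈ SK (p i) ⁻¹' A ↔ p i ∈ VK θ ∧ u * p i ∉ VK θ := by
          simp only [A, mem_preimage, mem_ofPred_eq, mem_VK, SK_SK, mul_one, mul_comm]
        simp only [this]
        split_ifs <;> simp)) (h (VK θ))
    rw [e1, integral_const, smul_eq_mul] at e2
    nlinarith
  have z : ν.real A = 0 := le_antisymm (le_of_forall_pos_le_add fun ε hε => by
    have p := measureReal_nonneg (μ := ν) (s := univ)
    refine (key (ε / (ν.real univ + 1)) (by positivity)).trans ?_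
    rw [zero_add, div_mul_eq_mul_div, div_le_iff₀ (by positivity)]
    nlinarith) measureReal_nonneg
  filter_upwards [measure_eq_zero_iff_ae_notMem.1 ((measureReal_eq_zero_iff).1 z)] with θ h h1
  exact by_contra fun h2 => h ⟨h1, h2⟩

theorem kSub (hM : PMain) (hT : KTwo) : KSub := by
  intro K _ _ _ ν _ hU x
  obtain ⟨N, hN⟩ := exists_nat_ge ‖jo x‖
  obtain ⟨u, u', hu, hu', e⟩ := hT K (N + 1 : ℕ) x (Nat.cast_ne_zero.2 N.succ_ne_zero) (by
    rw [map_natCast, Complex.norm_natCast]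
    push_cast
    linarith [Nat.cast_nonneg (α := ℝ) N])
  filter_upwards [unit_Sub hM ν hU hu, unit_Sub hM ν hU hu'] with θ a b h
  have h : (1 : K) ∈ VK θ := by rwa [mem_VK, SK_one]
  rw [← mem_VK, e, mul_comm u, mul_comm u', ← nsmul_eq_mul, ← nsmul_eq_mul]
  exact add_mem (nsmul_mem (a h) _) (nsmul_mem (b h) _)

end

section

open MeasureTheory Filter Topology Set Polynomial

theorem le_two_KCont (t : T) : ‖‖E t - 1‖‖ ≤ 2 := by
  rw [norm_norm]
  refine (norm_sub_le _ _).trans ?_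
  rw [norm_E, norm_one]
  norm_num

theorem cont_KCont (g : G) : Continuous fun θ : X => ‖E (θ g) - 1‖ :=
  ((continuous_E_eval g).sub continuous_const).norm

theorem tends_KCont (ν : Measure X) [IsFiniteMeasure ν] (m : ℕ) :
    Tendsto (fun e => ∫ θ in Ym m, ‖E (θ (gam m e)) - 1‖ ∂ν) atTop (𝓝 0) := by
  have h2 : ‖(qq : ℂ)‖ ^ 2 = 5 := by rw [norm_coe_sq, norm_qq]; norm_num
  have h3 : 1 < ‖(qq : ℂ)‖ := by nlinarith [norm_nonneg (qq : ℂ)]
  have hlim : Tendsto (fun e => io (gam m e)) atTop (𝓝 0) := by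
    rw [tendsto_zero_iff_norm_tendsto_zero]
    refine ((tendsto_pow_atTop_atTop_of_one_lt h3).const_div_atTop (m : ℝ)).congr fun e => ?_
    rw [gam, map_div₀, map_pow, io_jj, norm_div, norm_pow, map_natCast, Complex.norm_natCast]
  have h := tendsto_integral_of_dominated_convergence (μ := ν.restrict (Ym m))
    (F := fun e θ => ‖E (θ (gam m e)) - 1‖) (f := fun _ => (0 : ℝ)) (fun _ => 2)
    (fun e => (cont_KCont _).aestronglyMeasurable) (integrable_const _)
    (fun e => Eventually.of_forall fun θ => le_two_KCont _)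
    (by
      filter_upwards [ae_restrict_mem (measurableSet_Ym m)] with θ hθ
      have hc : Continuous fun z : ℂ => ‖E ((((Xi m θ * z).re : ℝ) : T)) - 1‖ :=
        ((continuous_E.comp ((AddCircle.continuous_mk' 1).comp (by fun_prop))).sub
          continuous_const).norm
      have h4 := (hc.tendsto 0).comp hlim
      simp only [mul_zero, Complex.zero_re, QuotientAddGroup.mk_zero, E_zero, sub_self,
        norm_zero] at h4
      refine h4.congr fun e => ?_
      have h5 := hθ e 1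
      rw [map_one, mul_one, AddMonoidHom.sub_apply, sub_eq_zero, chi_apply] at h5
      simp only [Function.comp, h5])
  simpa using h

theorem small_KCont (ν : Measure X) [IsFiniteMeasure ν] {ε : ℝ} (hε : 0 < ε) :
    ∃ g : G, g ≠ 0 ∧ ∫ θ in {θ | Ycond θ}, ‖E (θ g) - 1‖ ∂ν < ε := by
  have hlim : Tendsto (fun n : ℕ => ν.real (Ym n.factorial)) atTop
      (𝓝 (ν.real {θ | Ycond θ})) := by
    have h := tendsto_measure_iUnion_atTop (μ := ν) Ym_mono
    rw [iUnion_Ym] at h
    exact (ENNReal.tendsto_toReal (measure_ne_top _ _)).comp h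
  obtain ⟨n, hn⟩ := (hlim.eventually (lt_mem_nhds
    (show ν.real {θ | Ycond θ} - ε / 4 < ν.real {θ | Ycond θ} by linarith))).exists
  have hsub : Ym n.factorial ⊆ {θ | Ycond θ} :=
    iUnion_Ym ▸ subset_iUnion (fun n : ℕ => Ym n.factorial) n
  have hm := Nat.factorial_ne_zero n
  generalize n.factorial = m at hn hsub hm
  have hd : ν.real ({θ | Ycond θ} \ Ym m) < ε / 4 := by
    rw [measureReal_sdiff hsub (measurableSet_Ym m)]
    linarith
  obtain ⟨e, he⟩ := ((tends_KCont ν m).eventually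
    (gt_mem_nhds (show 0 < ε / 2 by linarith))).exists
  refine ⟨gam m e, div_ne_zero (by exact_mod_cast hm) (pow_ne_zero _ jj_qq_ne), ?_⟩
  have d2 := integral_inter_add_sdiff (s := {θ | Ycond θ}) (measurableSet_Ym m)
    (integrable_of_bdd (ν := ν) (cont_KCont (gam m e)).aestronglyMeasurable 2
      fun θ => le_two_KCont _).integrableOn
  rw [inter_eq_right.2 hsub] at d2
  have p2 : ‖∫ θ in {θ | Ycond θ} \ Ym m, ‖E (θ (gam m e)) - 1‖ ∂ν‖ ≤
      2 * ν.real ({θ | Ycond θ} \ Ym m) :=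
    norm_setIntegral_le_of_norm_le_const (measure_lt_top _ _) fun θ _ => le_two_KCont _
  have p3 := (le_abs_self _).trans p2
  rw [← d2]
  linarith

variable {K : Type} [Field K] [Big K]

theorem map_KCont {ν : Measure (K →+ T)} (hU : UK ν) (x : K) : UK (ν.map (SK x)) := by
  intro u hu
  refine ⟨measurable_SK u, ?_⟩
  rw [Measure.map_map (measurable_SK u) (measurable_SK x)]
  have e : SK u ∘ SK x = SK x ∘ SK u := by
    funext θ
    simp only [Function.comp, SK_SK, mul_comm]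
  rw [e, ← Measure.map_map (measurable_SK x) (measurable_SK u), (hU u hu).map_eq]

theorem iff_KCont [Countable K] (hS : KSub) (ν : Measure (K →+ T)) [IsFiniteMeasure ν]
    (hU : UK ν) {x : K} (hx : x ≠ 0) : ∀ᵐ θ ∂ν, Ycond (rs (SK x θ)) ↔ Ycond (rs θ) := by
  have h1 := ae_of_ae_map (measurable_SK x).aemeasurable
    (hS K (ν.map (SK x)) (map_KCont hU x) x⁻¹)
  filter_upwards [h1, hS K ν hU x] with θ h2 h3
  refine ⟨fun h => ?_, h3⟩
  have h4 := h2 h
  rwa [SK_SK, mul_inv_cancel₀ hx, SK_one] at h4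

theorem restrict_KCont {ν : Measure (K →+ T)} (hU : UK ν) {A : Set (K →+ T)}
    (hA : MeasurableSet A) (h : ∀ u : K, u ≠ 0 → ∀ᵐ θ ∂ν, SK u θ ∈ A ↔ θ ∈ A) :
    UK (ν.restrict A) := by
  intro u hu
  have h1 : SK u ⁻¹' A =ᵐ[ν] A := by
    filter_upwards [h u (by rintro rfl; simp at hu)] with θ hθ
    exact propext hθ
  have h2 := (hU u hu).restrict_preimage hA
  rwa [Measure.restrict_congr_set h1] at h2

omit [Big K] in
theorem contK_KCont (g : K) : Continuous fun θ : K →+ T => ‖E (θ g) - 1‖ :=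
  ((continuous_E_evalK g).sub continuous_const).norm

omit [Big K] in
theorem int_KCont (μ : Measure (K →+ T)) [IsFiniteMeasure μ] (g : K) :
    Integrable (fun θ : K →+ T => ‖E (θ g) - 1‖) μ :=
  integrable_of_bdd (contK_KCont g).aestronglyMeasurable 2 fun _ => le_two_KCont _

theorem rot_KCont {μ : Measure (K →+ T)} (hU : UK μ) {u : K} (hu : ‖jo u‖ = 1) (g : K) :
    ∫ θ, ‖E (θ (u * g)) - 1‖ ∂μ = ∫ θ, ‖E (θ g) - 1‖ ∂μ := by
  have h := integral_map (μ := μ) (measurable_SK u).aemeasurable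
    (f := fun θ : K →+ T => ‖E (θ g) - 1‖) (contK_KCont g).aestronglyMeasurable
  rw [(hU u hu).map_eq] at h
  exact h.symm

theorem diff_KCont (hT : KTwo) (μ : Measure (K →+ T)) [IsFiniteMeasure μ] (hU : UK μ) {g : K}
    (hg : g ≠ 0) (x y : K) (h : ‖jo x - jo y‖ ≤ 2 * ‖jo g‖) :
    ‖phiK μ x - phiK μ y‖ ≤ 2 * ∫ θ, ‖E (θ g) - 1‖ ∂μ := by
  obtain ⟨u, u', hu, hu', e⟩ := hT K g (x - y) hg (by rwa [map_sub])
  have e1 : x = y + (u * g + u' * g) := by rw [← e, add_sub_cancel]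
  rw [phiK, phiK, ← integral_sub (integrable_E_evalK μ x) (integrable_E_evalK μ y), two_mul]
  nth_rewrite 1 [← rot_KCont hU hu g]
  rw [← rot_KCont hU hu' g, ← integral_add (int_KCont μ _) (int_KCont μ _)]
  refine norm_integral_le_of_norm_le ((int_KCont μ _).add (int_KCont μ _))
    (Eventually.of_forall fun θ => ?_)
  have e2 : E (θ x) - E (θ y) = E (θ y) * (E (θ (u' * g)) * (E (θ (u * g)) - 1) +
      (E (θ (u' * g)) - 1)) := by
    rw [e1, map_add, map_add, E_add, E_add]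
    ring
  rw [e2, norm_mul, norm_E, one_mul]
  refine (norm_add_le _ _).trans ?_
  rw [norm_mul, norm_E, one_mul]

theorem kCont (hT : KTwo) (hS : KSub) : KCont := by
  intro K _ _ _ ν _ hU ε hε
  have mY : MeasurableSet {θ : K →+ T | Ycond (rs θ)} := measurable_rs measurableSet_Y
  have hY : UK (ν.restrict {θ | Ycond (rs θ)}) :=
    restrict_KCont hU mY fun u hu => iff_KCont hS ν hU hu
  have hYc : UK (ν.restrict {θ | Ycond (rs θ)}ᶜ) :=
    restrict_KCont hU mY.compl fun u hu => (iff_KCont hS ν hU hu).mono fun θ h => not_congr h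
  have hphi : ∀ s : K, s ≠ 0 → phiK ν s = phiK (ν.restrict {θ | Ycond (rs θ)}) s := by
    intro s hs
    have m : Measurable fun θ : K →+ T => rs (SK s θ) := measurable_rs.comp (measurable_SK s)
    have h1 := rigid _ (hYc.rs s).tInv (by
      rw [Measure.map_apply m measurableSet_Y, Measure.restrict_apply (m measurableSet_Y),
        measure_eq_zero_iff_ae_notMem]
      filter_upwards [iff_KCont hS ν hU hs] with θ h hθ
      exact hθ.2 (h.1 hθ.1)) (one_ne_zero (α := GaussianInt))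
    rw [phi, integral_map m.aemeasurable (continuous_E_eval _).aestronglyMeasurable] at h1
    simp only [map_one, rs_apply, SK_apply, mul_one] at h1
    rw [phiK, phiK, ← integral_add_compl mY (integrable_E_evalK ν s), h1, add_zero]
  obtain ⟨g, hg, h2⟩ := small_KCont (ν.map rs) (half_pos hε)
  rw [setIntegral_map measurableSet_Y (cont_KCont g).aestronglyMeasurable
    measurable_rs.aemeasurable] at h2
  have hg' : (em g : K) ≠ 0 := (_root_.map_ne_zero _).2 hg
  refine ⟨2 * ‖jo (em g : K)‖, mul_pos two_pos (norm_pos_iff.2 ((_root_.map_ne_zero _).2 hg')),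
    fun x y hx hy hxy => ?_⟩
  have h1 := diff_KCont hT _ hY hg' x y hxy.le
  show |(phiK ν x).re - (phiK ν y).re| < ε
  rw [hphi x hx, hphi y hy, ← Complex.sub_re]
  refine (Complex.abs_re_le_norm _).trans_lt (h1.trans_lt ?_)
  have h3 : ∫ θ in {θ : K →+ T | Ycond (rs θ)}, ‖E (θ (em g)) - 1‖ ∂ν < ε / 2 := h2
  linarith

end

theorem kCont' : KCont := kCont kTwo (kSub (pMain (pCube (pGen pOpen pExc))) kTwo)

end Pool.Agent.MP_fc94d9_co.Ms
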