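import Pool.Agent.MP_fc94d9_co.RealA

/-! Arbitrary real distances: random colourings, spectral measures and the two reductions. -/

set_option autoImplicit false

noncomputable section

namespace Pool.Agent.MP_fc94d9_co.Ms

section

open MeasureTheory Filter Topology Set

lemma exists_limit_Avg {Ω : Type} [TopologicalSpace Ω] [CompactSpace Ω]
    [TopologicalSpace.MetrizableSpace Ω] [MeasurableSpace Ω] [BorelSpace Ω]
    (μ : ℕ → Measure Ω) [∀ n, IsFiniteMeasure (μ n)] (hμ : ∀ n, (μ n).real univ ≤ 1) :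
    ∃ ν : Measure Ω, IsFiniteMeasure ν ∧ ∃ l : Filter ℕ, l.NeBot ∧ l ≤ atTop ∧
      ∀ f : Ω → ℝ, Continuous f → Tendsto (fun n => ∫ θ, f θ ∂(μ n)) l (𝓝 (∫ θ, f θ ∂ν)) := by
  let μ' : ℕ → FiniteMeasure Ω := fun n => ⟨μ n, inferInstance⟩
  have hc := isCompact_setOfPred_finiteMeasure_le_of_compactSpace Ω 1
  obtain ⟨ν, -, hlim⟩ := hc.ultrafilter_le_nhds' ((Ultrafilter.of atTop).map μ') (by
    rw [Ultrafilter.mem_map]
    exact univ_mem' fun n => hμ n)
  refine ⟨ν, inferInstance, (Ultrafilter.of (atTop : Filter ℕ) : Filter ℕ), inferInstance,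
    Ultrafilter.of_le _, fun f hf => ?_⟩
  exact FiniteMeasure.tendsto_iff_forall_integral_tendsto.1 hlim
    (BoundedContinuousFunction.mkOfCompact ⟨f, hf⟩)

theorem sAvg : SAvg := by
  intro Ω H _ _ _ _ _ _ _ a hinj hcont hadd ν0 _ hm
  classical
  obtain ⟨e, he⟩ := exists_surjective_nat H
  choose F hF hF' using fun n : ℕ => exists_foelner ((Finset.range (n + 1)).image e)
    (fun s _ => hinj s) (show (0 : ℝ) < 1 / ((n : ℝ) + 1) by positivity)
  let μ : ℕ → Measure Ω := fun n => (((F n).card : NNReal)⁻¹) • ∑ u ∈ F n, ν0.map (a u)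
  have hμ : ∀ n (f : Ω → ℝ), Continuous f → ∫ θ, f θ ∂(μ n) =
      (∑ u ∈ F n, ∫ θ, f (a u θ) ∂ν0) / (F n).card := by
    intro n f hf
    simp only [μ]
    rw [integral_smul_nnreal_measure, integral_finsetSum_measure fun u _ =>
      hf.integrable_of_hasCompactSupport (HasCompactSupport.of_compactSpace _)]
    rw [NNReal.smul_def, smul_eq_mul, div_eq_inv_mul]
    congr 1
    exact Finset.sum_congr rfl fun u _ =>
      integral_map (hcont u).measurable.aemeasurable hf.aestronglyMeasurable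
  have hc : ∀ n, (0 : ℝ) < (F n).card := fun n => by exact_mod_cast (hF n).card_pos
  obtain ⟨ν, hν, l, hl, hl', hlim⟩ := exists_limit_Avg μ (fun n => by
    have := hμ n (fun _ => 1) continuous_const
    simp only [integral_const, smul_eq_mul, mul_one, Finset.sum_const, nsmul_eq_mul] at this
    rw [this, mul_div_cancel_left₀ _ (hc n).ne']
    exact hm)
  refine ⟨ν, hν, fun u => ⟨(hcont u).measurable, ?_⟩, fun f hf γ h0 => ?_⟩
  · apply ext_of_forall_integral_eq_of_IsFiniteMeasure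
    intro f
    rw [integral_map (hcont u).measurable.aemeasurable f.continuous.aestronglyMeasurable]
    have h1 := (hlim _ (f.continuous.comp (hcont u))).sub (hlim _ f.continuous)
    have h2 : Tendsto (fun n : ℕ => 2 * ‖f‖ * (1 / ((n : ℝ) + 1))) l (𝓝 (2 * ‖f‖ * 0)) :=
      (tendsto_one_div_add_atTop_nhds_zero_nat.const_mul _).mono_left hl'
    rw [mul_zero] at h2
    have h3 := le_of_tendsto_of_tendsto h1.abs h2 ?_
    · exact sub_eq_zero.1 (abs_nonpos_iff.1 h3)
    obtain ⟨n0, rfl⟩ := he u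
    filter_upwards [hl' (eventually_ge_atTop n0)] with n hn
    have h4 := hF' n (e n0) (Finset.mem_image_of_mem _ (Finset.mem_range.2 (Nat.lt_succ_of_le hn)))
    have h5 := abs_sum_translate_sub_le (F n) (hinj (e n0))
      (fun v => ∫ θ, f (a v θ) ∂ν0) (C := ‖f‖) (fun v => by
        have := norm_integral_le_of_norm_le_const (μ := ν0)
          (f := fun θ => f (a v θ)) (C := ‖f‖)
          (Eventually.of_forall fun θ => f.norm_coe_le_norm _)
        rw [Real.norm_eq_abs] at this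
        exact this.trans (mul_le_of_le_one_right (norm_nonneg _) hm))
    rw [hμ n _ (f.continuous.comp (hcont (e n0))), hμ n _ f.continuous, ← sub_div, abs_div,
      abs_of_pos (hc n), div_le_iff₀ (hc n)]
    have h6 : ∀ v : H, ∫ θ, (f ∘ a (e n0)) (a v θ) ∂ν0 = ∫ θ, f (a (v + e n0) θ) ∂ν0 := by
      intro v
      simp only [Function.comp, hadd]
    simp only [h6]
    refine h5.trans ?_
    rw [mul_assoc (2 * ‖f‖)]
    gcongr
  · refine le_of_tendsto' (hlim _ hf) fun n => ?_
    rw [hμ n _ hf, div_le_iff₀ (hc n)]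
    exact (Finset.sum_le_card_nsmul _ _ γ fun u _ => h0 u).trans (by simp [mul_comm])

end

section

open MeasureTheory Filter Topology Set Polynomial

/-- indicator of a colour at a point -/
def ind_KMeas {K : Type} {k : ℕ} (j : Fin k) (x : K) (w : K → Fin k) : ℝ := if w x = j then 1 else 0

theorem cont_KMeas {K : Type} {k : ℕ} (j : Fin k) (x : K) : Continuous (ind_KMeas j x) :=
  (continuous_of_discreteTopology (f := fun i : Fin k => if i = j then (1 : ℝ) else 0)).comp
    (continuous_apply x)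

theorem frac_KMeas {K : Type} [Countable K] {k : ℕ} : Frac (ind_KMeas (K := K) (k := k)) := by
  refine ⟨fun j x => (cont_KMeas j x).measurable, fun j x ω => ?_, fun j x ω => ?_, fun x ω => ?_⟩
  · unfold ind_KMeas; split_ifs <;> norm_num
  · unfold ind_KMeas; split_ifs <;> norm_num
  · simp [ind_KMeas]

theorem hull_KMeas {Ω H : Type} [TopologicalSpace Ω] [MeasurableSpace Ω] {a : H → Ω → Ω}
    {ν₀ ν : Measure Ω}
    (h : ∀ f : Ω → ℝ, Continuous f → ∀ γ : ℝ, (∀ s, ∫ ω, f (a s ω) ∂ν₀ ≤ γ) → ∫ ω, f ω ∂ν ≤ γ)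
    {f : Ω → ℝ} (hf : Continuous f) {γ : ℝ} (hγ : ∀ s, ∫ ω, f (a s ω) ∂ν₀ = γ) :
    ∫ ω, f ω ∂ν = γ := by
  have h1 := h f hf γ (fun s => (hγ s).le)
  have h2 := h (fun ω => -f ω) hf.neg (-γ) (fun s => by rw [integral_neg, hγ s])
  rw [integral_neg] at h2
  linarith

theorem inv_KMeas {Ω : Type} [TopologicalSpace Ω] [MeasurableSpace Ω] [OpensMeasurableSpace Ω]
    {μ : Measure Ω} {T : Ω → Ω} (hT : MeasurePreserving T μ μ) {g : Ω → ℝ} (hg : Continuous g) :
    ∫ ω, g (T ω) ∂μ = ∫ ω, g ω ∂μ := by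
  rw [← integral_map hT.measurable.aemeasurable hg.measurable.aestronglyMeasurable, hT.map_eq]

theorem prob_KMeas {Ω : Type} [MeasurableSpace Ω] {μ : Measure Ω}
    (h : ∫ _ω, (1 : ℝ) ∂μ = 1) : IsProbabilityMeasure μ := by
  rw [integral_const, smul_eq_mul, mul_one, Measure.real, ENNReal.toReal_eq_one_iff] at h
  exact ⟨h⟩

theorem kMeas (hA : SAvg) : KMeas := by
  intro K _ _ _ k c D hc hD
  have c2 : ∀ (j : Fin k) (x y : K), Continuous fun ω => ind_KMeas j x ω * ind_KMeas j y ω :=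
    fun j x y => (cont_KMeas j x).mul (cont_KMeas j y)
  obtain ⟨μ1, f1, t1, h1⟩ := hA (K → Fin k) K (fun z w => fun x => w (x + z))
    (fun s => add_left_injective s) (fun s => continuous_pi fun x => continuous_apply _)
    (fun s t ω => funext fun x => congrArg ω (by ring)) (Measure.dirac c) (by simp)
  have p1 : IsProbabilityMeasure μ1 :=
    prob_KMeas (hull_KMeas h1 (f := fun _ => (1 : ℝ)) continuous_const (fun s => by simp))
  have z1 : ∀ j, ∀ s ∈ D, ∫ ω, ind_KMeas j 0 ω * ind_KMeas j s ω ∂μ1 = 0 := fun j s hs => by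
    refine hull_KMeas h1 (c2 j 0 s) (fun z => ?_)
    rw [integral_dirac]
    have := hc z s hs
    unfold ind_KMeas
    simp only [zero_add, add_comm s z]
    split_ifs with e1 e2
    · exact absurd (e1.trans e2.symm) this
    all_goals simp
  have q1 : ∀ j x y, ∫ ω, ind_KMeas j x ω * ind_KMeas j y ω ∂μ1 =
      ∫ ω, ind_KMeas j 0 ω * ind_KMeas j (y - x) ω ∂μ1 := fun j x y => by
    rw [← inv_KMeas (t1 x) (c2 j 0 (y - x))]
    simp only [ind_KMeas, zero_add, sub_add_cancel]
  have : Countable (Additive (UUK K)) := inferInstanceAs (Countable (UUK K))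
  obtain ⟨μ, f2, t2, h2⟩ := hA (K → Fin k) (Additive (UUK K)) (fun u w => fun x => w (u.toMul * x))
    uuK_inj (fun s => continuous_pi fun x => continuous_apply _)
    (fun s t ω => funext fun x => congrArg ω (mul_assoc (s.toMul : K) (t.toMul : K) x)) μ1
    (by simp)
  have i1 : ∀ (ν : Measure (K → Fin k)) [IsFiniteMeasure ν] (j : Fin k) (x y : K),
      Integrable (fun ω => ind_KMeas j x ω * ind_KMeas j y ω) ν := fun ν _ j x y =>
    (c2 j x y).integrable_of_hasCompactSupport (HasCompactSupport.of_compactSpace _)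
  have hcor : ∀ j x y, ∫ ω, ind_KMeas j x ω * ind_KMeas j y ω ∂μ =
      ∫ ω, ind_KMeas j 0 ω * ind_KMeas j (y - x) ω ∂μ := fun j x y => by
    rw [← sub_eq_zero, ← integral_sub (i1 μ j x y) (i1 μ j 0 (y - x))]
    refine hull_KMeas h2 ((c2 j x y).sub (c2 j 0 (y - x))) (fun u => ?_)
    have e := integral_sub (i1 μ1 j (u.toMul * x) (u.toMul * y))
      (i1 μ1 j (u.toMul * 0) (u.toMul * (y - x)))
    rw [q1 j (u.toMul * x), q1 j (u.toMul * 0), mul_zero, sub_zero, ← mul_sub, sub_self] at e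
    simpa only [ind_KMeas, mul_zero, Pi.sub_apply] using e
  refine ⟨μ, ind_KMeas, fun j s => ∫ ω, ind_KMeas j 0 ω * ind_KMeas j s ω ∂μ,
    prob_KMeas (hull_KMeas h2 (f := fun _ => (1 : ℝ)) continuous_const (fun s => by simp)),
    frac_KMeas, hcor, fun j u s hu => ?_, fun j s hs => ?_,
    fun j x => ?_⟩
  · have e := inv_KMeas (t2 (Additive.ofMul ⟨u, hu⟩)) (c2 j 0 s)
    simpa only [ind_KMeas, mul_zero, toMul_ofMul] using e
  · refine hull_KMeas h2 (c2 j 0 s) (fun u => ?_)
    have e := z1 j _ (hD u.toMul u.toMul.2 s hs)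
    simpa only [ind_KMeas, mul_zero] using e
  · have e := hcor j x x
    rw [sub_self] at e
    refine Eq.trans ?_ e
    congr 1
    funext ω
    unfold ind_KMeas
    split_ifs <;> norm_num

end

section

open MeasureTheory Filter Topology Set Polynomial

theorem exists_limit_KHerg {Y : Type} [TopologicalSpace Y] [CompactSpace Y]
    [TopologicalSpace.MetrizableSpace Y] [MeasurableSpace Y] [BorelSpace Y]
    (μ : ℕ → Measure Y) [∀ n, IsFiniteMeasure (μ n)] (hμ : ∀ n, (μ n).real univ ≤ 1) :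
    ∃ ν : Measure Y, IsFiniteMeasure ν ∧ ν.real univ ≤ 1 ∧ ∃ l : Filter ℕ, l.NeBot ∧ l ≤ atTop ∧
      ∀ f : Y → ℝ, Continuous f → Tendsto (fun n => ∫ θ, f θ ∂(μ n)) l (𝓝 (∫ θ, f θ ∂ν)) := by
  let μ' : ℕ → FiniteMeasure Y := fun n => ⟨μ n, inferInstance⟩
  have hc := isCompact_setOfPred_finiteMeasure_le_of_compactSpace Y 1
  obtain ⟨ν, hν, hlim⟩ := hc.ultrafilter_le_nhds' ((Ultrafilter.of atTop).map μ') (by
    rw [Ultrafilter.mem_map]
    exact univ_mem' fun n => hμ n)
  refine ⟨ν, inferInstance, hν, (Ultrafilter.of (atTop : Filter ℕ) : Filter ℕ), inferInstance,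
    Ultrafilter.of_le _, fun f hf => ?_⟩
  exact FiniteMeasure.tendsto_iff_forall_integral_tendsto.1 hlim
    (BoundedContinuousFunction.mkOfCompact ⟨f, hf⟩)

section

variable {K : Type} [Field K]

theorem re_phi_KHerg (ν : Measure (K →+ T)) [IsFiniteMeasure ν] (s : K) :
    (phiK ν s).re = ∫ θ, (E (θ s)).re ∂ν :=
  (integral_re (integrable_E_evalK ν s)).symm

theorem cont_re_KHerg (s : K) : Continuous (fun θ : K →+ T => (E (θ s)).re) :=
  Complex.continuous_re.comp (continuous_E_evalK s)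

variable (K) in
/-- Haar probability measure on the dual group. -/
def haar_KHerg : Measure (K →+ T) := Measure.addHaarMeasure ⊤

instance inv_KHerg : (haar_KHerg K).IsAddLeftInvariant := by unfold haar_KHerg; infer_instance

instance prob_KHerg : IsProbabilityMeasure (haar_KHerg K) :=
  ⟨Measure.addHaarMeasure_self (K₀ := ⊤)⟩

/-- The continuous character of frequency `ξ`. -/
def chi_KHerg [Big K] (ξ : ℂ) : K →+ T where
  toFun z := (((ξ * jo z).re : ℝ) : T)
  map_zero' := by simp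
  map_add' x y := by simp [mul_add]

open Classical in
theorem phi_haar_KHerg [Countable K] [Big K] (z : K) :
    phiK (haar_KHerg K) z = if z = 0 then 1 else 0 := by
  split_ifs with hz
  · simp [phiK, hz]
  · have h1 := integral_add_left_eq_self (μ := haar_KHerg K) (fun θ : K →+ T => E (θ z))
      (chi_KHerg (1 / 2 / jo z))
    have h2 : E (chi_KHerg (1 / 2 / jo z) z) = -1 := by
      change E (((1 / 2 / jo z * jo z).re : ℝ) : T) = -1
      rw [div_mul_cancel₀ _ ((_root_.map_ne_zero jo).2 hz), E_coe, ← Complex.exp_pi_mul_I]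
      congr 1
      norm_num
      ring
    simp only [AddMonoidHom.add_apply, E_add, h2, integral_const_mul] at h1
    unfold phiK
    linear_combination (-1 / 2) * h1

end

section

variable {K : Type} [Field K] {Ω : Type} [MeasurableSpace Ω] (μ : Measure Ω) (a : K → Ω → ℝ)

/-- The mean periodogram on a finite set. -/
def dens_KHerg (F : Finset K) (θ : K →+ T) : ℝ :=
  (∫ ω, ‖∑ x ∈ F, (a x ω : ℂ) * E (θ x)‖ ^ 2 ∂μ) / F.card

theorem nonneg_KHerg (F : Finset K) (θ : K →+ T) : 0 ≤ dens_KHerg μ a F θ :=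
  div_nonneg (integral_nonneg fun _ => by positivity) (by positivity)

/-- The spectral measure on a finite set. -/
def spec_KHerg (F : Finset K) : Measure (K →+ T) :=
  (haar_KHerg K).withDensity (fun θ => ENNReal.ofReal (dens_KHerg μ a F θ))

variable {μ a} [IsProbabilityMeasure μ] {φ : K → ℝ} (hm : ∀ x, Measurable (a x))
  (hb : ∀ x ω, |a x ω| ≤ 1) (hφ : ∀ x y, ∫ ω, a x ω * a y ω ∂μ = φ (y - x))

include hb in
theorem bd_KHerg (x y : K) (ω : Ω) : ‖a x ω * a y ω‖ ≤ 1 := by
  rw [Real.norm_eq_abs, abs_mul]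
  exact mul_le_one₀ (hb x ω) (abs_nonneg _) (hb y ω)

include hb hφ in
theorem abs_KHerg (s : K) : |φ s| ≤ 1 := by
  have h := norm_integral_le_of_norm_le_const (μ := μ) (f := fun ω => a 0 ω * a s ω) (C := 1)
    (Eventually.of_forall fun ω => bd_KHerg hb 0 s ω)
  rw [hφ, sub_zero, Real.norm_eq_abs] at h
  simpa using h

include hm hb hφ

theorem coe_KHerg (F : Finset K) (θ : K →+ T) : (dens_KHerg μ a F θ : ℂ) =
    (∑ x ∈ F, ∑ y ∈ F, (φ (y - x) : ℂ) * E (θ (x - y))) / F.card := by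
  have hi : ∀ x y, Integrable (fun ω => ((a x ω * a y ω : ℝ) : ℂ) * E (θ (x - y))) μ := fun x y =>
    (integrable_of_bdd ((hm x).mul (hm y)).aestronglyMeasurable 1
      (bd_KHerg hb x y)).ofReal.mul_const _
  have h1 : ∀ ω, ((‖∑ x ∈ F, (a x ω : ℂ) * E (θ x)‖ ^ 2 : ℝ) : ℂ) =
      ∑ x ∈ F, ∑ y ∈ F, ((a x ω * a y ω : ℝ) : ℂ) * E (θ (x - y)) := by
    intro ω
    rw [← Complex.normSq_eq_norm_sq, ← Complex.mul_conj, map_sum, Finset.sum_mul_sum]
    refine Finset.sum_congr rfl fun x _ => Finset.sum_congr rfl fun y _ => ?_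
    rw [map_mul, Complex.conj_ofReal, ← E_neg, map_sub, sub_eq_add_neg, E_add]
    push_cast
    ring
  rw [dens_KHerg, Complex.ofReal_div, Complex.ofReal_natCast, ← integral_complex_ofReal]
  congr 1
  simp only [h1]
  rw [integral_finsetSum _ fun x _ => integrable_finsetSum _ fun y _ => hi x y]
  refine Finset.sum_congr rfl fun x _ => ?_
  rw [integral_finsetSum _ fun y _ => hi x y]
  refine Finset.sum_congr rfl fun y _ => ?_
  rw [integral_mul_const, integral_complex_ofReal, hφ]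

theorem cont_KHerg (F : Finset K) : Continuous (dens_KHerg μ a F) := by
  have : dens_KHerg μ a F = fun θ =>
      ((∑ x ∈ F, ∑ y ∈ F, (φ (y - x) : ℂ) * E (θ (x - y))) / F.card).re := by
    funext θ
    rw [← coe_KHerg hm hb hφ, Complex.ofReal_re]
  rw [this]
  exact Complex.continuous_re.comp ((continuous_finsetSum _ fun x _ => continuous_finsetSum _
    fun y _ => continuous_const.mul (continuous_E_evalK _)).div_const _)

theorem fin_KHerg (F : Finset K) : IsFiniteMeasure (spec_KHerg μ a F) :=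
  isFiniteMeasure_withDensity_ofReal
    ((cont_KHerg hm hb hφ F).integrable_of_hasCompactSupport
      (HasCompactSupport.of_compactSpace _)).hasFiniteIntegral

open Classical in
theorem phi_KHerg [Countable K] [Big K] (F : Finset K) (s : K) : phiK (spec_KHerg μ a F) s =
    ((φ s * (F.filter fun x => x + s ∈ F).card / F.card : ℝ) : ℂ) := by
  rw [phiK, spec_KHerg, integral_withDensity_eq_integral_toReal_smul
    (cont_KHerg hm hb hφ F).measurable.ennreal_ofReal (Eventually.of_forall fun _ => by simp)]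
  have h1 : ∀ θ : K →+ T, (ENNReal.ofReal (dens_KHerg μ a F θ)).toReal • E (θ s) =
      (∑ x ∈ F, ∑ y ∈ F, (φ (y - x) : ℂ) * E (θ (x + s - y))) / F.card := by
    intro θ
    rw [ENNReal.toReal_ofReal (nonneg_KHerg μ a F θ), Complex.real_smul, coe_KHerg hm hb hφ,
      div_mul_eq_mul_div, Finset.sum_mul]
    congr 1
    refine Finset.sum_congr rfl fun x _ => ?_
    rw [Finset.sum_mul]
    refine Finset.sum_congr rfl fun y _ => ?_
    rw [mul_assoc, ← E_add, ← map_add, sub_add_eq_add_sub]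
  simp only [h1]
  rw [integral_div, integral_finsetSum _ fun x _ => integrable_finsetSum _ fun y _ =>
    (integrable_E_evalK (haar_KHerg K) _).const_mul _, Complex.ofReal_div, Complex.ofReal_natCast,
    Finset.card_filter]
  congr 1
  push_cast
  rw [Finset.mul_sum]
  refine Finset.sum_congr rfl fun x _ => ?_
  rw [integral_finsetSum _ fun y _ => (integrable_E_evalK (haar_KHerg K) _).const_mul _]
  have h2 : ∀ y, ∫ θ : K →+ T, (φ (y - x) : ℂ) * E (θ (x + s - y)) ∂(haar_KHerg K) =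
      if x + s = y then (φ s : ℂ) else 0 := by
    intro y
    rw [integral_const_mul]
    change _ * phiK (haar_KHerg K) _ = _
    rw [phi_haar_KHerg]
    simp only [sub_eq_zero]
    split_ifs with h
    · rw [← h, add_sub_cancel_left, mul_one]
    · rw [mul_zero]
  simp only [h2]
  rw [Finset.sum_ite_eq]
  split_ifs <;> simp

theorem one_KHerg [Countable K] [Big K] : ∃ ν : Measure (K →+ T), IsFiniteMeasure ν ∧ ν.real univ ≤ 1 ∧
    ∀ s, (phiK ν s).re = φ s := by
  classical
  obtain ⟨e, he⟩ := exists_surjective_nat K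
  choose F hF hF' using fun n : ℕ => exists_foelner ((Finset.range (n + 1)).image e)
    (fun s _ => add_left_injective s) (show (0 : ℝ) < 1 / ((n : ℝ) + 1) by positivity)
  have hc : ∀ n, (0 : ℝ) < (F n).card := fun n => by exact_mod_cast (hF n).card_pos
  have hf := fun n => fin_KHerg hm hb hφ (F n)
  obtain ⟨ν, hν, hmass, l, hl, hl', hlim⟩ := exists_limit_KHerg (fun n => spec_KHerg μ a (F n))
    (fun n => by
      have h1 := re_phi_KHerg (spec_KHerg μ a (F n)) 0
      rw [phi_KHerg hm hb hφ, Complex.ofReal_re] at h1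
      simp only [map_zero, E_zero, Complex.one_re, integral_const, smul_eq_mul, mul_one,
        add_zero, Finset.filter_mem_eq_inter, Finset.inter_self] at h1
      rw [← h1, mul_div_cancel_right₀ _ (hc n).ne']
      exact (le_abs_self _).trans (abs_KHerg hb hφ 0))
  refine ⟨ν, hν, hmass, fun s => ?_⟩
  obtain ⟨n0, rfl⟩ := he s
  have h1 := hlim _ (cont_re_KHerg (e n0))
  rw [← re_phi_KHerg] at h1
  have h2 : Tendsto (fun n : ℕ => 1 / ((n : ℝ) + 1)) l (𝓝 0) :=
    tendsto_one_div_add_atTop_nhds_zero_nat.mono_left hl'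
  have h3 := le_of_tendsto_of_tendsto (h1.sub_const (φ (e n0))).abs h2 ?_
  · exact sub_eq_zero.1 (abs_nonpos_iff.1 h3)
  filter_upwards [hl' (eventually_ge_atTop n0)] with n hn
  have h4 := hF' n (e n0) (Finset.mem_image_of_mem _ (Finset.mem_range.2 (Nat.lt_succ_of_le hn)))
  have h5 : (((F n).filter (fun x => x + e n0 ∈ F n)).card : ℝ) +
      ((F n).filter (fun x => x + e n0 ∉ F n)).card = (F n).card := by
    exact_mod_cast Finset.card_filter_add_card_filter_not _
  rw [← re_phi_KHerg, phi_KHerg hm hb hφ, Complex.ofReal_re, div_sub' (hc n).ne', abs_div,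
    abs_of_pos (hc n), div_le_iff₀ (hc n), mul_comm ((F n).card : ℝ), ← mul_sub, abs_mul,
    ← h5, sub_add_cancel_left, abs_neg, Nat.abs_cast, h5]
  exact (mul_le_of_le_one_left (Nat.cast_nonneg _) (abs_KHerg hb hφ _)).trans (by convert h4)

end

theorem kHerg (hA : SAvg) : KHerg := by
  intro K _ _ _ Ω _ μ _ a φ hm hb hφ hu
  obtain ⟨ν₀, hν₀, hmass, h0⟩ := one_KHerg hm hb hφ
  have : Countable (Additive (UUK K)) := inferInstanceAs (Countable (UUK K))
  obtain ⟨ν, hν, hp, hh⟩ := hA (K →+ T) (Additive (UUK K)) (fun u => SK (u.toMul : K)) uuK_inj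
    (fun u => continuous_SK _) (fun s t θ => (SK_SK _ _ θ).symm) ν₀ hmass
  have key : ∀ (s : K) (u : Additive (UUK K)),
      ∫ θ, (E (SK (u.toMul : K) θ s)).re ∂ν₀ = φ s := fun s u => by
    simp only [SK_apply]
    rw [← re_phi_KHerg, h0, hu _ _ u.toMul.2]
  refine ⟨ν, hν, fun u h => hp (Additive.ofMul ⟨u, h⟩), fun s => le_antisymm ?_ ?_⟩
  · rw [re_phi_KHerg]
    exact hh _ (cont_re_KHerg s) _ fun u => (key s u).le
  · have h1 := hh (fun θ => -(E (θ s)).re) (cont_re_KHerg s).neg (-φ s) fun u => by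
      rw [integral_neg, key]
    rw [integral_neg, ← re_phi_KHerg] at h1
    exact neg_le_neg_iff.1 h1

end

section

open MeasureTheory Filter Topology Set

theorem dense_circleK {K : Type} [Field K] [Big K] {D : Set K}
    (hD : ∀ u : K, ‖jo u‖ = 1 → ∀ s ∈ D, u * s ∈ D) {g : K} (hg : g ∈ D) {z : ℂ}
    (hz : ‖jo g‖ = ‖z‖) : z ∈ closure (jo '' D) := by
  have hi : Isometry fun x : ℂ => io tau * x := Isometry.of_dist_eq fun x y => by
    rw [dist_eq_norm, dist_eq_norm, ← mul_sub, norm_mul, norm_io_tau, one_mul]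
  have e : (fun x : ℂ => io tau * x) '' (jo '' D) = jo '' D := by
    refine Subset.antisymm ?_ ?_
    · rintro _ ⟨_, ⟨s, hs, rfl⟩, rfl⟩
      exact ⟨_, hD (em tau) (by rw [jo_em, norm_io_tau]) s hs, by rw [map_mul, jo_em]⟩
    · rintro _ ⟨s, hs, rfl⟩
      refine ⟨_, ⟨_, hD (em tau⁻¹) (by rw [jo_em, map_inv₀, norm_inv, norm_io_tau, inv_one]) s hs,
        rfl⟩, ?_⟩
      simp only [map_mul, jo_em, map_inv₀, mul_inv_cancel_left₀ (io_ne_zero tau_ne)]
  by_cases h0 : jo g = 0
  · rw [h0, norm_zero, eq_comm, norm_eq_zero] at hz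
    exact subset_closure ⟨g, hg, h0.trans hz.symm⟩
  obtain ⟨t, ht⟩ := exists_E_eq (u := z / jo g) (by
    rw [norm_div, ← hz, div_self (norm_ne_zero_iff.2 h0)])
  have := radial_of_irrational (h := fun x => (Metric.infDist x (jo '' D) : ℝ))
    (Complex.continuous_ofReal.comp (Metric.continuous_infDist_pt _)) norm_io_tau
    (fun n hn => tau_pow_ne_one hn)
    (fun x => by rw [← Metric.infDist_image (x := x) hi, e]) (jo g) t
  rw [ht, Metric.infDist_zero_of_mem (mem_image_of_mem jo hg), mul_div_cancel₀ _ h0] at this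
  exact (Metric.mem_closure_iff_infDist_zero ⟨_, mem_image_of_mem jo hg⟩).2 (by exact_mod_cast this)

theorem main_real (h0 : KBig) (h1 : KMeas) (h2 : KHerg) (h3 : KCont) (h4 : KApx) (h5 : SLim)
    (h6 : SLift) (A : Set ℝ) (k : ℕ) (c : ℂ → Fin k)
    (hc : ∀ x y, x ≠ y → dist x y ∈ A → c x ≠ c y) :
    ∃ c' : ℂ → Fin k, (∀ j, NullMeasurableSet (c' ⁻¹' {j}) volume) ∧
      ∀ x y, x ≠ y → dist x y ∈ A → c' x ≠ c' y := by
  obtain ⟨A₀, a1, a2, a3⟩ := (TopologicalSpace.IsSeparable.of_separableSpace A).exists_countable_dense_subset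
  obtain ⟨K, _, _, _, hK⟩ := h0 A₀ a2
  let D : Set K := {s | s ≠ 0 ∧ ‖jo s‖ ∈ A₀}
  have hD : ∀ u : K, ‖jo u‖ = 1 → ∀ s ∈ D, u * s ∈ D := fun u hu s hs =>
    ⟨mul_ne_zero (fun e => by simp [e] at hu) hs.1, by
      rw [map_mul, norm_mul, hu, one_mul]
      exact hs.2⟩
  obtain ⟨μ, a, φ, _, f, m1, m2, m3, -⟩ := h1 K k (fun x => c (jo x)) D (fun x s hs => hc _ _
    (fun e => hs.1 (left_eq_add.1 (jo_inj e))) (by simpa [dist_eq_norm] using a1 hs.2)) hD
  obtain ⟨b, g, b1, b2⟩ := h4 K k _ μ a φ f m1 fun j => by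
    obtain ⟨ν, _, hU, e⟩ := h2 K _ μ (a j) (φ j) (f.meas j)
      (fun x ω => abs_le.2 ⟨by linarith [f.nonneg j x ω], f.le_one j x ω⟩) (m1 j) (m2 j)
    exact funext e ▸ h3 K ν hU
  obtain ⟨B, p1, p2, p3⟩ := h5 k _ μ b (jo '' D) g ((to_countable D).image _) b1 (by
    rintro j x _ ⟨s, hs, rfl⟩
    exact m3 j s hs ▸ b2 j s x hs.1)
  obtain ⟨c', q1, q2⟩ := h6 k B _ p1 p2 p3
  refine ⟨c', q1, fun x y hxy hd => ?_⟩
  rw [dist_comm, dist_eq_norm] at hd
  have n0 : 0 < ‖y - x‖ := norm_pos_iff.2 (sub_ne_zero.2 hxy.symm)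
  have : y - x ∈ closure (jo '' D) := by
    rw [← closure_closure, Metric.mem_closure_iff]
    intro ε hε
    obtain ⟨d, d1, d2⟩ := Metric.mem_closure_iff.1 (a3 hd) _ (lt_min hε n0)
    rw [Real.dist_eq, lt_min_iff] at d2
    have d0 : 0 < d := by linarith [(abs_lt.1 d2.2).2]
    obtain ⟨s, hs⟩ := hK d d1
    have n1 : ‖jo s‖ = d := by rw [hs, Complex.norm_real, Real.norm_of_nonneg d0.le]
    refine ⟨(d / ‖y - x‖ : ℝ) * (y - x), dense_circleK hD (g := s)
      ⟨fun e => by simp [e] at n1; linarith, n1 ▸ d1⟩ ?_, ?_⟩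
    · rw [n1, norm_mul, Complex.norm_real, Real.norm_of_nonneg (by positivity),
        div_mul_cancel₀ _ n0.ne']
    · have : y - x - (d / ‖y - x‖ : ℝ) * (y - x) = ((‖y - x‖ - d) / ‖y - x‖ : ℝ) * (y - x) := by
        rw [sub_div, div_self n0.ne']
        push_cast
        ring
      rw [dist_eq_norm, this, norm_mul, Complex.norm_real, norm_div, norm_norm,
        div_mul_cancel₀ _ n0.ne']
      exact d2.1
  have := q2 x _ this
  rwa [add_sub_cancel] at this

theorem mono_real (h0 : KBig) (h1 : KMeas) (h2 : KHerg) (h3 : KCont) {k : ℕ} (c : ℂ → Fin k) :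
    ∃ R : ℝ, ∀ d : ℝ, R ≤ d → ∃ x y : ℂ, dist x y = d ∧ c x = c y := by
  by_contra hcon
  push Not at hcon
  choose d hd1 hd2 using fun n : ℕ => hcon (n + 1)
  obtain ⟨K, _, _, _, hK⟩ := h0 (range d) (countable_range d)
  let D : Set K := {s | ∀ x y : ℂ, dist x y = ‖jo s‖ → c x ≠ c y}
  obtain ⟨μ, a, φ, _, f, m1, m2, m3, m4⟩ := h1 K k (fun x => c (jo x)) D
    (fun x s hs => hs _ _ (by rw [dist_eq_norm, map_add]; simp))
    (fun u hu s hs x y hxy => hs x y (by rwa [map_mul, norm_mul, hu, one_mul] at hxy))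
  have ia : ∀ j x, Integrable (a j x) μ := fun j x =>
    integrable_of_bdd (f.meas j x).aestronglyMeasurable 1 fun ω => by
      rw [Real.norm_of_nonneg (f.nonneg j x ω)]
      exact f.le_one j x ω
  obtain ⟨j, hj⟩ : ∃ j, 0 < φ j 0 := by
    by_contra h
    push Not at h
    have : ∑ j, φ j 0 = 1 := by
      simp only [← m4 _ 0]
      rw [← integral_finsetSum _ fun j _ => ia j 0]
      simp [f.sum]
    linarith [Finset.sum_nonpos fun j (_ : j ∈ Finset.univ) => h j]
  have m5 : φ j 0 ≤ 1 := by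
    have := integral_mono (ia j 0) (integrable_const 1) (f.le_one j 0)
    simpa [m4] using this
  generalize hm : φ j 0 = m at hj m5
  obtain ⟨ν, _, hU, e⟩ := h2 K _ μ (fun x ω => a j x ω - m) (fun s => φ j s - m ^ 2)
    (fun x => (f.meas j x).sub_const m)
    (fun x ω => abs_le.2 ⟨by linarith [f.nonneg j x ω], by linarith [f.le_one j x ω]⟩)
    (fun x y => by
      have i1 : Integrable (fun ω => a j x ω * a j y ω) μ :=
        integrable_of_bdd ((f.meas j x).mul (f.meas j y)).aestronglyMeasurable 1 fun ω => by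
          rw [Real.norm_of_nonneg (mul_nonneg (f.nonneg j x ω) (f.nonneg j y ω))]
          exact mul_le_one₀ (f.le_one j x ω) (f.nonneg j y ω) (f.le_one j y ω)
      have i2 : Integrable (fun ω => m * (a j x ω + a j y ω)) μ :=
        ((ia j x).add (ia j y)).const_mul m
      have i3 : Integrable (fun ω => a j x ω * a j y ω - m * (a j x ω + a j y ω)) μ := i1.sub i2
      have : ∀ ω, (a j x ω - m) * (a j y ω - m) =
          a j x ω * a j y ω - m * (a j x ω + a j y ω) + m ^ 2 := fun ω => by ring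
      simp only [this]
      rw [integral_add i3 (integrable_const _), integral_sub i1 i2, integral_const_mul,
        integral_add (ia j x) (ia j y), m1, m4, m4, hm]
      simp
      ring)
    (fun u s hu => by rw [m2 j u s hu])
  have hk : 0 < m ^ 2 / 2 := by positivity
  obtain ⟨δ, hδ, uc⟩ := h3 K ν hU _ hk
  obtain ⟨N, hN⟩ := exists_nat_one_div_lt hδ
  obtain ⟨ρ, hρ⟩ := re_phi_eventually _ (hU.rs ((N + 1 : ℕ) : K)⁻¹) hk
  obtain ⟨n, hn⟩ := exists_nat_ge ρ
  obtain ⟨s, hs⟩ := hK _ (mem_range_self n)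
  have d1 := hd1 n
  have d2 := hd2 n
  generalize d n = r at hs d1 d2
  have n0 : (0 : ℝ) < N + 1 := by positivity
  have n1 := Nat.cast_nonneg (α := ℝ) n
  have hs0 : s ≠ 0 := fun e => by
    have : r = 0 := by simpa [e] using hs.symm
    linarith
  have h2 := m3 j s fun x y hxy => d2 x y (by
    rw [hxy, hs, Complex.norm_real, Real.norm_of_nonneg (by linarith)])
  obtain ⟨z, z1, z2⟩ : ∃ z : ℕ, (N + 1) * r ≤ z ∧ z < (N + 1) * r + 1 :=
    ⟨_, Nat.le_ceil _, Nat.ceil_lt_add_one (mul_nonneg n0.le (by linarith))⟩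
  have z3 : r ≤ z := by nlinarith [Nat.cast_nonneg (α := ℝ) N]
  have z0 : z ≠ 0 := fun e => by simp [e] at z3; linarith
  have h3 := hρ z (by exact_mod_cast z0) (by simp; linarith)
  have mm : Measurable fun θ : K →+ T => rs (SK ((N + 1 : ℕ) : K)⁻¹ θ) :=
    measurable_rs.comp (measurable_SK _)
  rw [phi, integral_map mm.aemeasurable (continuous_E_eval _).aestronglyMeasurable] at h3
  have h4 := uc (((N + 1 : ℕ) : K)⁻¹ * z) s (mul_ne_zero (inv_ne_zero (Nat.cast_ne_zero.2
    N.succ_ne_zero)) (Nat.cast_ne_zero.2 z0)) hs0 (by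
      have : jo (((N + 1 : ℕ) : K)⁻¹ * z) - jo s = ((z / (N + 1) - r : ℝ) : ℂ) := by
        simp [hs, div_eq_inv_mul]
      rw [this, Complex.norm_real, Real.norm_eq_abs, abs_of_nonneg (by
        rw [sub_nonneg, le_div_iff₀ n0]; linarith)]
      refine lt_trans ?_ hN
      rw [sub_lt_iff_lt_add, div_lt_iff₀ n0, add_mul, one_div_mul_cancel n0.ne']
      linarith)
  have h5 := (abs_lt.1 h4).2
  have h6 := e s
  simp only [rs_apply, SK_apply, map_natCast] at h3
  simp only [phiK] at h5 h6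
  linarith

end

end Pool.Agent.MP_fc94d9_co.Ms
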