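import Pool.Agent.MP_fc94d9_co.RealA

/-! Arbitrary real distances: approximation, limit and lifting. -/

set_option autoImplicit false

noncomputable section

namespace Pool.Agent.MP_fc94d9_co.Ms

section

open MeasureTheory Filter Topology Set Polynomial

theorem int_KApx {Ω : Type} [MeasurableSpace Ω] (μ : Measure Ω) [IsProbabilityMeasure μ]
    {f g : Ω → ℝ} (hf : Measurable f) (hg : Measurable g) (f0 : ∀ ω, 0 ≤ f ω) (f1 : ∀ ω, f ω ≤ 1)
    (g0 : ∀ ω, 0 ≤ g ω) (g1 : ∀ ω, g ω ≤ 1) :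
    Integrable (fun ω => f ω * g ω) μ ∧ |∫ ω, f ω * g ω ∂μ| ≤ 1 := by
  have h : ∀ᵐ ω ∂μ, ‖f ω * g ω‖ ≤ 1 := Eventually.of_forall fun ω => by
    rw [Real.norm_of_nonneg (mul_nonneg (f0 ω) (g0 ω))]
    exact mul_le_one₀ (f1 ω) (g0 ω) (g1 ω)
  refine ⟨Integrable.of_bound (hf.mul hg).aestronglyMeasurable 1 h, ?_⟩
  simpa using norm_integral_le_of_norm_le_const h

theorem key_KApx {K Ω : Type} [Field K] [MeasurableSpace Ω] (μ : Measure Ω)
    [IsProbabilityMeasure μ] {f : K → Ω → ℝ} {φ : K → ℝ} (hf : ∀ x, Measurable (f x))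
    (f0 : ∀ x ω, 0 ≤ f x ω) (f1 : ∀ x ω, f x ω ≤ 1)
    (hφ : ∀ x y, ∫ ω, f x ω * f y ω ∂μ = φ (y - x)) {y y' : ℕ → K} (hy : Function.Injective y)
    (N M : ℕ) (s : K) {e : ℝ} (he : 0 ≤ e)
    (h : ∀ t ∈ Finset.range (N + 1), ∀ m ∈ Finset.range (M + 1), y' m ≠ y t →
      |φ (y' m - y t) - φ s| ≤ e) :
    |∫ ω, (∑ t ∈ Finset.range (N + 1), f (y t) ω) / (N + 1)
      * ((∑ m ∈ Finset.range (M + 1), f (y' m) ω) / (M + 1)) ∂μ - φ s| ≤ e + 2 / (N + 1) := by
  classical
  have hi := fun x z => int_KApx μ (hf x) (hf z) (f0 x) (f1 x) (f0 z) (f1 z)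
  have b : ∀ z, |φ z| ≤ 1 := fun z => by
    have := (hi 0 z).2
    rwa [hφ, sub_zero] at this
  have e1 : ∫ ω, (∑ t ∈ Finset.range (N + 1), f (y t) ω) / (N + 1)
      * ((∑ m ∈ Finset.range (M + 1), f (y' m) ω) / (M + 1)) ∂μ
      = (∑ m ∈ Finset.range (M + 1), ∑ t ∈ Finset.range (N + 1), φ (y' m - y t))
        / ((N + 1) * (M + 1)) := by
    simp only [div_mul_div_comm, Finset.sum_mul_sum]
    rw [integral_div, integral_finsetSum _ fun t _ => integrable_finsetSum _ fun m _ => (hi _ _).1,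
      Finset.sum_comm]
    congr 1
    refine Finset.sum_congr rfl fun t _ => ?_
    rw [integral_finsetSum _ fun m _ => (hi _ _).1]
    simp only [hφ]
  have e2 : ∀ m ∈ Finset.range (M + 1),
      |∑ t ∈ Finset.range (N + 1), (φ (y' m - y t) - φ s)| ≤ (N + 1) * e + 2 := fun m hm => by
    have h1 : ∀ t ∈ Finset.range (N + 1),
        |φ (y' m - y t) - φ s| ≤ e + if y t = y' m then 2 else 0 := fun t ht => by
      split_ifs with h2
      · linarith [abs_sub (φ (y' m - y t)) (φ s), b (y' m - y t), b s]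
      · simpa using h t ht m hm (Ne.symm h2)
    have h2 : (((Finset.range (N + 1)).filter fun t => y t = y' m).card : ℝ) ≤ 1 := by
      refine Nat.cast_le_one.2 (Finset.card_le_one.2 fun a ha c hc => ?_)
      exact hy ((Finset.mem_filter.1 ha).2.trans (Finset.mem_filter.1 hc).2.symm)
    refine ((Finset.abs_sum_le_sum_abs _ _).trans (Finset.sum_le_sum h1)).trans ?_
    rw [Finset.sum_add_distrib, ← Finset.sum_filter]
    simp only [Finset.sum_const, Finset.card_range, nsmul_eq_mul, Nat.cast_add, Nat.cast_one]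
    linarith
  have e3 := (Finset.abs_sum_le_sum_abs _ _).trans (Finset.sum_le_sum e2)
  simp only [Finset.sum_sub_distrib, Finset.sum_const, Finset.card_range, nsmul_eq_mul,
    Nat.cast_add, Nat.cast_one] at e3
  have p : (0:ℝ) < (N + 1) * (M + 1) := by positivity
  rw [e1, div_sub' p.ne', abs_div, abs_of_pos p, div_le_iff₀ p]
  refine le_trans (le_of_eq (by congr 1; ring)) (e3.trans_eq ?_)
  field_simp

theorem round_KApx (K : Type) [Field K] [Countable K] [Big K] :
    ∃ (e : ℕ → K) (p : ℕ → ℂ → ℕ), (∀ n, Measurable (p n)) ∧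
      ∀ n x, ‖jo (e (p n x)) - x‖ < 1 / ((n:ℝ) + 1) := by
  classical
  obtain ⟨e, he⟩ := exists_surjective_nat K
  have h : ∀ (n : ℕ) (x : ℂ), ∃ i, ‖jo (e i) - x‖ < 1 / ((n:ℝ) + 1) := fun n x => by
    have d : (0:ℝ) < 1 / ((n:ℝ) + 1) / 2 := by positivity
    obtain ⟨q, hq⟩ := exists_rat_near x.re d
    obtain ⟨r, hr⟩ := exists_rat_near x.im d
    obtain ⟨i, hi⟩ := he ((q : K) + r * em IG)
    refine ⟨i, (Complex.norm_le_abs_re_add_abs_im _).trans_lt ?_⟩
    rw [hi, map_add, map_mul, jo_em, io_IG, map_ratCast, map_ratCast]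
    rw [abs_sub_comm] at hq hr
    simp only [Complex.sub_re, Complex.add_re, Complex.ratCast_re, Complex.mul_re, Complex.I_re,
      Complex.ratCast_im, Complex.I_im, Complex.sub_im, Complex.add_im, Complex.mul_im, mul_zero,
      mul_one, sub_zero, add_zero, zero_add]
    linarith
  exact ⟨e, fun n x => Nat.find (h n x), fun n => measurable_find (h n) fun i =>
    measurableSet_lt (by fun_prop) measurable_const, fun n x => Nat.find_spec (h n x)⟩

theorem pts_KApx (K : Type) [Field K] [Countable K] [Big K] :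
    ∃ y : ℕ → ℂ → ℕ → K, (∀ n x, Function.Injective (y n x)) ∧
      (∀ n x, ∀ t ∈ Finset.range (n + 1), ‖jo (y n x t) - x‖ ≤ 2 * (1 / ((n:ℝ) + 1))) ∧
      ∀ (Ω : Type) [MeasurableSpace Ω] (f : K → Ω → ℝ), (∀ x, Measurable (f x)) → ∀ n t,
        Measurable fun z : ℂ × Ω => f (y n z.1 t) z.2 := by
  obtain ⟨e, p, hp, hd⟩ := round_KApx K
  refine ⟨fun n x t => e (p n x) + t / (n + 1) ^ 2, fun n x s t h => ?_, fun n x t ht => ?_,
    fun Ω _ f hf n t => ?_⟩
  · have h0 : ((n:K) + 1) ^ 2 ≠ 0 := pow_ne_zero 2 (Nat.cast_add_one_ne_zero n)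
    exact Nat.cast_injective ((div_left_inj' h0).1 (add_left_cancel h))
  · have h1 : ‖jo ((t:K) / (n + 1) ^ 2)‖ ≤ 1 / ((n:ℝ) + 1) := by
      rw [map_div₀, map_pow, map_add, map_natCast, map_natCast, map_one, norm_div, norm_pow,
        ← Nat.cast_add_one, Complex.norm_natCast, Complex.norm_natCast, Nat.cast_add_one,
        div_le_div_iff₀ (by positivity) (by positivity), one_mul, sq]
      exact mul_le_mul_of_nonneg_right (by exact_mod_cast (Finset.mem_range.1 ht).le)
        (by positivity)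
    have h2 := norm_add_le (jo (e (p n x)) - x) (jo ((t:K) / (n + 1) ^ 2))
    rw [sub_add_eq_add_sub, ← map_add] at h2
    linarith [hd n x]
  · have h1 : Measurable fun z : ℕ × Ω => f (e z.1 + t / (n + 1) ^ 2) z.2 :=
      measurable_from_prod_countable_right fun i => hf (e i + t / (n + 1) ^ 2)
    exact h1.comp (((hp n).comp measurable_fst).prodMk measurable_snd)

theorem kApx : KApx := by
  intro K _ _ _ k Ω _ μ _ a φ ha hφ hU
  obtain ⟨y, yi, yd, ym⟩ := pts_KApx K
  obtain ⟨b, eb⟩ : ∃ b : Fin k → ℕ → ℂ × Ω → ℝ, ∀ j n, b j n = fun z =>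
    (∑ t ∈ Finset.range (n + 1), a j (y n z.1 t) z.2) / (n + 1) := ⟨_, fun _ _ => rfl⟩
  have hb : Frac b := by
    refine ⟨fun j n => ?_, fun j n z => ?_, fun j n z => ?_, fun n z => ?_⟩ <;> simp only [eb]
    · exact (Finset.measurable_sum _ fun t _ => ym Ω (a j) (ha.meas j) n t).div_const _
    · exact div_nonneg (Finset.sum_nonneg fun t _ => ha.nonneg _ _ _) (by positivity)
    · refine (div_le_one (by positivity)).2
        ((Finset.sum_le_sum fun t _ => ha.le_one j _ _).trans_eq ?_)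
      simp
    · rw [← Finset.sum_div, Finset.sum_comm]
      simp only [ha.sum, Finset.sum_const, Finset.card_range, nsmul_eq_mul, Nat.cast_add,
        Nat.cast_one, mul_one]
      exact div_self (by positivity)
  have corr : ∀ j, ∀ ε : ℝ, 0 < ε → ∃ n₀ : ℕ, ∀ n m, n₀ ≤ n → n₀ ≤ m → ∀ (x x' : ℂ) (s : K),
      s ≠ 0 → ‖x' - x - jo s‖ ≤ 1 / ((n₀:ℝ) + 1) →
      |∫ ω, b j n (x, ω) * b j m (x', ω) ∂μ - φ j s| ≤ ε := fun j ε hε => by
    obtain ⟨δ, d0, hδ⟩ := hU j (ε / 2) (by positivity)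
    obtain ⟨n₀, h0⟩ := exists_nat_one_div_lt (show 0 < min (δ / 5) (ε / 4) by positivity)
    refine ⟨n₀, fun n m hn hm x x' s hs hx => ?_⟩
    have h1 : 1 / ((n:ℝ) + 1) ≤ 1 / ((n₀:ℝ) + 1) := Nat.one_div_le_one_div hn
    have h2 : 1 / ((m:ℝ) + 1) ≤ 1 / ((n₀:ℝ) + 1) := Nat.one_div_le_one_div hm
    rw [lt_min_iff] at h0
    simp only [eb]
    refine (key_KApx μ (ha.meas j) (ha.nonneg j) (ha.le_one j) (hφ j) (yi n x) n m s
      (half_pos hε).le fun t ht u hu h => (hδ _ _ (sub_ne_zero.2 h) hs ?_).le).trans ?_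
    · have h3 := norm_add_le (jo (y m x' u) - x' - (jo (y n x t) - x)) (x' - x - jo s)
      have h4 := norm_sub_le (jo (y m x' u) - x') (jo (y n x t) - x)
      rw [map_sub, show jo (y m x' u) - jo (y n x t) - jo s
        = jo (y m x' u) - x' - (jo (y n x t) - x) + (x' - x - jo s) by ring]
      linarith [yd n x t ht, yd m x' u hu, h0.1]
    · rw [show (2:ℝ) / (n + 1) = 2 * (1 / (n + 1)) by ring]
      linarith [h0.2]
  refine ⟨b, hb, fun ε hε => ?_, fun j s x hs => Metric.tendsto_atTop.2 fun ε hε => ?_⟩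
  · choose n₀ h using fun j => corr j (ε / 4) (by positivity)
    refine ⟨Finset.univ.sup n₀, fun n m hn hm j x => ?_⟩
    have hn' := (Finset.le_sup (f := n₀) (Finset.mem_univ j)).trans hn
    have hm' := (Finset.le_sup (f := n₀) (Finset.mem_univ j)).trans hm
    have h0 : (1 / ((n₀ j : K) + 1)) ≠ 0 := one_div_ne_zero (Nat.cast_add_one_ne_zero _)
    have h1 : ‖x - x - jo (1 / ((n₀ j : K) + 1))‖ ≤ 1 / ((n₀ j : ℝ) + 1) := by
      rw [sub_self, zero_sub, norm_neg, map_div₀, map_add, map_natCast, map_one, norm_div, norm_one,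
        ← Nat.cast_add_one, Complex.norm_natCast, Nat.cast_add_one]
    have hi : ∀ n m, Integrable (fun ω => b j n (x, ω) * b j m (x, ω)) μ := fun n m =>
      (int_KApx μ ((hb.meas j n).comp measurable_prodMk_left)
        ((hb.meas j m).comp measurable_prodMk_left) (fun _ => hb.nonneg _ _ _)
        (fun _ => hb.le_one _ _ _) (fun _ => hb.nonneg _ _ _) fun _ => hb.le_one _ _ _).1
    have a1 := abs_le.1 (h j n n hn' hn' x x _ h0 h1)
    have a2 := abs_le.1 (h j n m hn' hm' x x _ h0 h1)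
    have a3 := abs_le.1 (h j m m hm' hm' x x _ h0 h1)
    have e1 : ∀ ω, (b j n (x, ω) - b j m (x, ω)) ^ 2 = b j n (x, ω) * b j n (x, ω)
        - 2 * (b j n (x, ω) * b j m (x, ω)) + b j m (x, ω) * b j m (x, ω) := fun ω => by ring
    have i1 : Integrable (fun ω => b j n (x, ω) * b j n (x, ω)
        - 2 * (b j n (x, ω) * b j m (x, ω))) μ := (hi n n).sub ((hi n m).const_mul 2)
    simp_rw [e1]
    rw [integral_add i1 (hi m m), integral_sub (hi n n) ((hi n m).const_mul 2), integral_const_mul]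
    linarith [a1.2, a2.1, a3.2]
  · obtain ⟨n₀, h⟩ := corr j (ε / 2) (half_pos hε)
    refine ⟨n₀, fun n hn => (h n n hn hn x (x + jo s) s hs ?_).trans_lt (half_lt_self hε)⟩
    rw [add_sub_cancel_left, sub_self, norm_zero]
    positivity

end

section

open MeasureTheory Filter Topology Set

theorem conv_Lim {Ω : Type} [MeasurableSpace Ω] (μ : Measure Ω) [IsProbabilityMeasure μ]
    (f : ℕ → Ω → ℝ) (hm : ∀ i, Measurable (f i)) (h0 : ∀ i ω, 0 ≤ f i ω) (h1 : ∀ i ω, f i ω ≤ 1)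
    (h : ∀ i, ∫ ω, (f i ω - f (i + 1) ω) ^ 2 ∂μ ≤ (1 / 8) ^ i) :
    ∀ᵐ ω ∂μ, ∃ l, Tendsto (fun i => f i ω) atTop (𝓝 l) := by
  have hb : ∀ i, μ {ω | (1 / 4 : ℝ) ^ i ≤ (f i ω - f (i + 1) ω) ^ 2} ≤
      ENNReal.ofReal ((1 / 2) ^ i) := by
    intro i
    have hi : Integrable (fun ω => (f i ω - f (i + 1) ω) ^ 2) μ :=
      Integrable.of_bound (((hm i).sub (hm _)).pow_const 2).aestronglyMeasurable 1
        (Eventually.of_forall fun ω => by
          rw [Real.norm_of_nonneg (sq_nonneg _), sq_le_one_iff_abs_le_one, abs_le]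
          constructor <;> linarith [h0 i ω, h1 i ω, h0 (i + 1) ω, h1 (i + 1) ω])
    have h2 := (mul_meas_ge_le_integral_of_nonneg (Eventually.of_forall fun ω => sq_nonneg _) hi
      ((1 / 4) ^ i)).trans (h i)
    rw [← ofReal_measureReal (measure_ne_top _ _)]
    refine ENNReal.ofReal_le_ofReal (le_of_mul_le_mul_left (h2.trans (le_of_eq ?_))
      (show (0 : ℝ) < (1 / 4) ^ i by positivity))
    rw [← mul_pow]
    norm_num
  have hs := ae_eventually_notMem (ne_top_of_le_ne_top (by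
    rw [← ENNReal.ofReal_tsum_of_nonneg (fun _ => by positivity) summable_geometric_two]
    exact ENNReal.ofReal_ne_top) (ENNReal.tsum_le_tsum hb))
  filter_upwards [hs] with ω hω
  refine cauchySeq_tendsto_of_complete (cauchySeq_of_summable_dist
    (summable_geometric_two.of_norm_bounded_eventually_nat (hω.mono fun i hi => ?_)))
  rw [Real.norm_of_nonneg dist_nonneg, Real.dist_eq]
  refine abs_le_of_sq_le_sq (le_trans (not_le.1 hi).le (le_of_eq ?_)) (by positivity)
  rw [← pow_mul, mul_comm, pow_mul]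
  norm_num

theorem prod_Lim {Ω : Type} [MeasurableSpace Ω] (μ : Measure Ω) [IsProbabilityMeasure μ]
    (f : ℕ → Ω → ℝ) (hm : ∀ i, Measurable (f i)) (h0 : ∀ i ω, 0 ≤ f i ω) (h1 : ∀ i ω, f i ω ≤ 1)
    (h : Tendsto (fun i => ∫ ω, f i ω ∂μ) atTop (𝓝 0)) :
    ∀ᵐ ω ∂μ, ∀ l, Tendsto (fun i => f i ω) atTop (𝓝 l) → l ≤ 0 := by
  have h2 := lintegral_liminf_le (μ := μ) (u := atTop) (f := fun i ω => ENNReal.ofReal (f i ω))
    fun i => (hm i).ennreal_ofReal
  have h3 : Tendsto (fun i => ∫⁻ ω, ENNReal.ofReal (f i ω) ∂μ) atTop (𝓝 0) := by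
    have := ENNReal.tendsto_ofReal h
    rw [ENNReal.ofReal_zero] at this
    refine this.congr fun i => ofReal_integral_eq_lintegral_ofReal
      (Integrable.of_bound (hm i).aestronglyMeasurable 1 (Eventually.of_forall fun ω => ?_))
      (Eventually.of_forall (h0 i))
    rw [Real.norm_of_nonneg (h0 i ω)]
    exact h1 i ω
  rw [h3.liminf_eq, nonpos_iff_eq_zero, lintegral_eq_zero_iff
    (Measurable.liminf fun i => (hm i).ennreal_ofReal)] at h2
  filter_upwards [h2] with ω hω l hl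
  rw [(ENNReal.tendsto_ofReal hl).liminf_eq] at hω
  exact ENNReal.ofReal_eq_zero.1 hω

theorem sLim : SLim := by
  intro k Ω _ μ _ b D hb hD hc hz
  choose n₀ hn₀ using fun i : ℕ => hc ((1 / 8) ^ i) (by positivity)
  let N : ℕ → ℕ := fun i => (Finset.range (i + 1)).sup n₀ + i
  have hN : ∀ i l, i ≤ l → n₀ i ≤ N l := fun i l h =>
    (Finset.le_sup (f := n₀) (Finset.mem_range.2 (by omega))).trans (Nat.le_add_right _ _)
  have hNt : Tendsto N atTop atTop :=
    tendsto_atTop_mono (fun i => Nat.le_add_left _ _) tendsto_id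
  have hm : ∀ j n x, Measurable fun ω => b j n (x, ω) := fun j n x =>
    (hb.meas j n).comp measurable_prodMk_left
  have hconv : ∀ j x, ∀ᵐ ω ∂μ, ∃ l, Tendsto (fun i => b j (N i) (x, ω)) atTop (𝓝 l) := fun j x =>
    conv_Lim μ _ (fun i => hm j _ x) (fun _ _ => hb.nonneg _ _ _) (fun _ _ => hb.le_one _ _ _)
      fun i => hn₀ i _ _ (hN i i le_rfl) (hN i _ (Nat.le_succ i)) j x
  let A : Fin k → Set (ℂ × Ω) := fun j => {q | Tendsto (fun i => b j (N i) q) atTop (𝓝 0)}ᶜ
  have hA : ∀ j, MeasurableSet (A j) := fun j =>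
    (measurableSet_tendsto (𝓝 0) fun i => hb.meas j (N i)).compl
  have hcov : ∀ q, ∃ j, q ∈ A j := by
    intro q
    by_contra hn
    push Not at hn
    have h1 := tendsto_finsetSum (Finset.univ : Finset (Fin k)) fun j _ => not_not.1 (hn j)
    simp only [hb.sum, Finset.sum_const_zero] at h1
    exact one_ne_zero (tendsto_nhds_unique tendsto_const_nhds h1)
  have key : ∀ j, ∀ z ∈ D, ∀ᵐ ω ∂μ, ∀ᵐ x : ℂ, ¬ ((x, ω) ∈ A j ∧ (x + z, ω) ∈ A j) := by
    intro j z hzD
    rw [← Measure.ae_ae_comm]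
    · refine Eventually.of_forall fun x => ?_
      have h1 := prod_Lim μ (fun i ω => b j (N i) (x, ω) * b j (N i) (x + z, ω))
        (fun i => (hm j _ x).mul (hm j _ _))
        (fun _ _ => mul_nonneg (hb.nonneg _ _ _) (hb.nonneg _ _ _))
        (fun _ _ => mul_le_one₀ (hb.le_one _ _ _) (hb.nonneg _ _ _) (hb.le_one _ _ _))
        ((hz j x z hzD).comp hNt)
      filter_upwards [h1, hconv j x, hconv j (x + z)] with ω hω ⟨l, hl⟩ ⟨l', hl'⟩ hq
      have a1 : 0 ≤ l := ge_of_tendsto' hl fun _ => hb.nonneg _ _ _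
      have a2 : 0 ≤ l' := ge_of_tendsto' hl' fun _ => hb.nonneg _ _ _
      rcases mul_eq_zero.1 (le_antisymm (hω _ (hl.mul hl')) (mul_nonneg a1 a2)) with e | e
      · exact hq.1 (e ▸ hl)
      · exact hq.2 (e ▸ hl')
    · exact ((hA j).inter ((hA j).preimage
        (f := fun q : ℂ × Ω => (q.1 + z, q.2)) (by fun_prop))).compl
  obtain ⟨ω, hω⟩ := (ae_all_iff.2 fun j => (ae_ball_iff hD).2 (key j)).exists
  exact ⟨fun j => {x | (x, ω) ∈ A j}, fun j => measurable_prodMk_right (hA j),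
    fun x => hcov (x, ω), fun j z hzD => by
      simpa only [ae_iff, not_not, Set.mem_ofPred_eq] using hω j z hzD⟩

end

section

open MeasureTheory Filter Topology Set

/-- the set `T` has density zero at `p` -/
def Sm_Lift (T : Set ℂ) (p : ℂ) : Prop :=
  Tendsto (fun r => volume (T ∩ Metric.closedBall p r) / volume (Metric.closedBall p r))
    (𝓝[>] 0) (𝓝 0)

theorem sm_mono_Lift {T T' : Set ℂ} {p : ℂ} (h : T ⊆ T') (h' : Sm_Lift T' p) : Sm_Lift T p :=
  tendsto_of_tendsto_of_tendsto_of_le_of_le tendsto_const_nhds h' (fun _ => zero_le)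
    fun _ => ENNReal.div_le_div_right (measure_mono (inter_subset_inter_left _ h)) _

theorem sm_union_Lift {T T' : Set ℂ} {p : ℂ} (h : Sm_Lift T p) (h' : Sm_Lift T' p) :
    Sm_Lift (T ∪ T') p := by
  have h2 := Tendsto.add h h'
  rw [add_zero] at h2
  refine tendsto_of_tendsto_of_tendsto_of_le_of_le tendsto_const_nhds h2 (fun _ => zero_le)
    fun r => ?_
  simp only
  rw [← ENNReal.add_div, union_inter_distrib_right]
  exact ENNReal.div_le_div_right (measure_union_le _ _) _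

theorem sm_null_Lift {T : Set ℂ} (p : ℂ) (h : volume T = 0) : Sm_Lift T p := by
  have : (fun r => volume (T ∩ Metric.closedBall p r) / volume (Metric.closedBall p r)) =
      fun _ : ℝ => (0 : ENNReal) := by
    funext r
    rw [measure_mono_null inter_subset_left h, ENNReal.zero_div]
  unfold Sm_Lift
  rw [this]
  exact tendsto_const_nhds

theorem sm_shift_Lift {T : Set ℂ} {y : ℂ} (h : Sm_Lift T y) :
    Sm_Lift ((fun x => y + x) ⁻¹' T) 0 := by
  have hb : ∀ r, Metric.closedBall (0 : ℂ) r = (fun x => y + x) ⁻¹' Metric.closedBall y r := by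
    intro r
    ext x
    simp [dist_eq_norm]
  unfold Sm_Lift
  simp only [hb, ← preimage_inter, measure_preimage_add]
  exact h

theorem sm_bound_Lift {T : Set ℂ} {p : ℂ} (h : Sm_Lift T p) :
    ∀ᶠ r in 𝓝[>] (0 : ℝ), volume.real (T ∩ Metric.closedBall p r) ≤
      1 / 10 * (r ^ 2 * volume.real (Metric.closedBall (0 : ℂ) 1)) := by
  have h1 : ∀ᶠ r in 𝓝[>] (0 : ℝ),
      volume (T ∩ Metric.closedBall p r) / volume (Metric.closedBall p r) <
        ENNReal.ofReal (1 / 10) := h.eventually (gt_mem_nhds (by norm_num))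
  filter_upwards [h1, self_mem_nhdsWithin] with r hr hr0
  have hr0' : 0 < r := hr0
  have hpos : volume (Metric.closedBall p r) ≠ 0 :=
    (Metric.measure_closedBall_pos volume p hr0').ne'
  have hfin : volume (Metric.closedBall p r) ≠ ⊤ := measure_closedBall_lt_top.ne
  have h2 := (ENNReal.div_le_iff hpos hfin).1 hr.le
  have h3 := ENNReal.toReal_mono (ENNReal.mul_ne_top ENNReal.ofReal_ne_top hfin) h2
  rw [ENNReal.toReal_mul, ENNReal.toReal_ofReal (by norm_num)] at h3
  have h4 := Measure.addHaar_real_closedBall' (volume : Measure ℂ) p hr0'.le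
  rw [Complex.finrank_real_complex] at h4
  rw [← h4]
  exact h3

theorem unit_pos_Lift : 0 < volume.real (Metric.closedBall (0 : ℂ) 1) :=
  ENNReal.toReal_pos (Metric.measure_closedBall_pos volume _ one_pos).ne'
    measure_closedBall_lt_top.ne

theorem key_Lift {A D : Set ℂ} {p z : ℂ} (h1 : Sm_Lift Aᶜ p) (h2 : Sm_Lift Aᶜ (p + z))
    (hz : z ∈ closure D) (hD : ∀ z' ∈ D, volume {x | x ∈ A ∧ x + z' ∈ A} = 0) : False := by
  obtain ⟨r, ⟨hr1, hr2⟩, hr0⟩ :=
    (((sm_bound_Lift h1).and (sm_bound_Lift h2)).and self_mem_nhdsWithin).exists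
  have hr : 0 < r := hr0
  obtain ⟨z', hz', hd⟩ := Metric.mem_closure_iff.1 hz (r / 2) (by linarith)
  have hsub : Metric.closedBall p (r / 2) ⊆ ((Aᶜ ∩ Metric.closedBall p r) ∪
      (fun x => x + z') ⁻¹' (Aᶜ ∩ Metric.closedBall (p + z) r)) ∪ {x | x ∈ A ∧ x + z' ∈ A} := by
    intro x hx
    rw [Metric.mem_closedBall] at hx
    by_cases ha : x ∈ A
    · by_cases hb : x + z' ∈ A
      · exact Or.inr ⟨ha, hb⟩
      · refine Or.inl (Or.inr ⟨hb, ?_⟩)
        rw [Metric.mem_closedBall]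
        have := dist_add_add_le x z' p z
        rw [dist_comm z' z] at this
        linarith
    · exact Or.inl (Or.inl ⟨ha, Metric.mem_closedBall.2 (by linarith)⟩)
  have hf1 : volume (Aᶜ ∩ Metric.closedBall p r) ≠ ⊤ :=
    ((measure_mono inter_subset_right).trans_lt measure_closedBall_lt_top).ne
  have hf2 : volume (Aᶜ ∩ Metric.closedBall (p + z) r) ≠ ⊤ :=
    ((measure_mono inter_subset_right).trans_lt measure_closedBall_lt_top).ne
  have hle : volume (Metric.closedBall p (r / 2)) ≤ volume (Aᶜ ∩ Metric.closedBall p r) +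
      volume (Aᶜ ∩ Metric.closedBall (p + z) r) := by
    refine (measure_mono hsub).trans ((measure_union_le _ _).trans ?_)
    rw [hD z' hz', add_zero]
    refine (measure_union_le _ _).trans ?_
    rw [measure_preimage_add_right]
  have h3 := ENNReal.toReal_mono (ENNReal.add_ne_top.2 ⟨hf1, hf2⟩) hle
  rw [ENNReal.toReal_add hf1 hf2] at h3
  have h4 := Measure.addHaar_real_closedBall' (volume : Measure ℂ) p (r := r / 2) (by linarith)
  rw [Complex.finrank_real_complex] at h4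
  have h5 : 0 < r ^ 2 * volume.real (Metric.closedBall (0 : ℂ) 1) :=
    mul_pos (by positivity) unit_pos_Lift
  simp only [Measure.real] at h4 hr1 hr2 h5
  rw [h4, show (r / 2) ^ 2 = 1 / 4 * r ^ 2 by ring, mul_assoc] at h3
  linarith

/-- the density filter at zero -/
def dF_Lift : Filter ℂ where
  sets := {S | Sm_Lift Sᶜ 0}
  univ_sets := sm_null_Lift 0 (by simp)
  sets_of_superset := fun h1 h2 => sm_mono_Lift (compl_subset_compl.2 h2) h1
  inter_sets := fun h1 h2 => by
    simp only [mem_ofPred_eq, compl_inter]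
    exact sm_union_Lift h1 h2

theorem dF_neBot_Lift : dF_Lift.NeBot := by
  refine ⟨fun h => ?_⟩
  have h1 : (∅ : Set ℂ) ∈ dF_Lift := by rw [h]; exact mem_bot
  have h2 : Sm_Lift (∅ : Set ℂ)ᶜ 0 := h1
  refine key_Lift (D := univ) (z := 0) h2 (by simpa using h2) (by simp) (by simp)

theorem sLift : SLift := by
  intro k B D hB hcov hD
  let A : Fin k → Set ℂ := fun j => B j ∩ ⋂ i, ⋂ (_ : i < j), (B i)ᶜ
  have hAm : ∀ j, MeasurableSet (A j) := fun j =>
    (hB j).inter (MeasurableSet.iInter fun i => MeasurableSet.iInter fun _ => (hB i).compl)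
  have hAc : ∀ x, ∃ j, x ∈ A j := by
    intro x
    obtain ⟨j, hj, hmin⟩ := (wellFounded_lt (α := Fin k)).has_min {j | x ∈ B j} (hcov x)
    exact ⟨j, hj, mem_iInter₂.2 fun i hi hx => hmin i hx hi⟩
  have hAd : ∀ x i j, x ∈ A i → x ∈ A j → i = j := by
    intro x i j hi hj
    rcases lt_trichotomy i j with h | h | h
    · exact absurd hi.1 (mem_iInter₂.1 hj.2 i h)
    · exact h
    · exact absurd hj.1 (mem_iInter₂.1 hi.2 j h)
  have hAD : ∀ j, ∀ z ∈ D, volume {x | x ∈ A j ∧ x + z ∈ A j} = 0 := fun j z hz =>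
    measure_mono_null (fun x hx => And.intro hx.1.1 hx.2.1) (hD j z hz)
  have hG : ∀ᵐ x ∂(volume : Measure ℂ), ∀ j, x ∈ A j → Sm_Lift (A j)ᶜ x := by
    refine ae_all_iff.2 fun j => ?_
    filter_upwards [Besicovitch.ae_tendsto_measure_inter_div_of_measurableSet volume
      (hAm j).compl] with x hx hxA
    rw [indicator_of_notMem (by simpa using hxA)] at hx
    exact hx
  have := dF_neBot_Lift
  let U : Ultrafilter ℂ := Ultrafilter.of dF_Lift
  have hU : (U : Filter ℂ) ≤ dF_Lift := Ultrafilter.of_le _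
  have hGU : ∀ y : ℂ, ∀ᶠ x in (U : Filter ℂ), ∀ j, y + x ∈ A j → Sm_Lift (A j)ᶜ (y + x) := by
    intro y
    refine hU (show Sm_Lift _ 0 from ?_)
    exact sm_shift_Lift (y := y) (sm_null_Lift y (ae_iff.1 hG))
  have hex : ∀ y : ℂ, ∃ j, ∀ᶠ x in (U : Filter ℂ), y + x ∈ A j := fun y =>
    Ultrafilter.eventually_exists_iff.1 (Eventually.of_forall fun x => hAc (y + x))
  choose c hc using hex
  have hcA : ∀ y j, y ∈ A j → Sm_Lift (A j)ᶜ y → c y = j := by
    intro y j _ hs
    have h1 : ∀ᶠ x in (U : Filter ℂ), y + x ∈ A j :=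
      hU (show Sm_Lift _ 0 from sm_shift_Lift hs)
    obtain ⟨x, hx1, hx2⟩ := ((hc y).and h1).exists
    exact hAd _ _ _ hx1 hx2
  refine ⟨c, fun j => ?_, fun y z hz hyz => ?_⟩
  · refine (hAm j).nullMeasurableSet.congr ?_
    filter_upwards [hG] with y hy
    refine propext ⟨fun h => hcA y j h (hy j h), fun h => ?_⟩
    obtain ⟨i, hi⟩ := hAc y
    have h1 : c y = j := h
    rw [hcA y i hi (hy i hi)] at h1
    rw [← h1]
    exact hi
  · obtain ⟨x, ⟨h1, h2⟩, h3, h4⟩ := (((hc y).and (hc (y + z))).and ((hGU y).and (hGU (y + z)))).exists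
    rw [← hyz] at h2
    have h5 := h4 _ h2
    rw [add_right_comm] at h5
    exact key_Lift (h3 _ h1) h5 hz (hAD _)

end

end Pool.Agent.MP_fc94d9_co.Ms
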