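import Pool.Agent.MP_fc94d9_co.Setup

set_option autoImplicit false

open MeasureTheory Filter Topology Set

noncomputable section

namespace Pool.Agent.MP_fc94d9_co

/-- Generator of the lattice at level `n`. -/
def lev (N : GaussianInt) (k n : ℕ) : G := (jj N)⁻¹ / jj qq ^ (k * n)

/-- The residual character after removing the canonical frequency. -/
def ps (N : GaussianInt) (θ : X) : X := θ - chi (xi 0 (jj N)⁻¹ θ)

/-- The label of a character at level `n`. -/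
def kap (N : GaussianInt) (k n : ℕ) (θ : X) : T × T :=
  (ps N θ (lev N k n), ps N θ (lev N k n * IG))

lemma kap_eq_iff {N : GaussianInt} {k n : ℕ} {θ θ' : X} :
    kap N k n θ = kap N k n θ' ↔ Van (ps N θ - ps N θ') (lev N k n) := by
  simp only [kap, Prod.mk.injEq, van_iff, AddMonoidHom.sub_apply, sub_eq_zero]

lemma measurable_ps (N : GaussianInt) (z : G) : Measurable (fun θ => ps N θ z) :=
  (measurable_eval z).sub ((measurable_chi_apply z).comp (measurable_xi _ _))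

lemma measurable_kap (N : GaussianInt) (k n : ℕ) : Measurable (kap N k n) :=
  (measurable_ps N _).prodMk (measurable_ps N _)

lemma lev_succ (N : GaussianInt) (k n : ℕ) : lev N k n = lev N k (n + 1) * jj qq ^ k := by
  have hq := jj_qq_ne
  unfold lev
  field_simp
  ring

lemma lev_ne {N : GaussianInt} (hN : N ≠ 0) (k n : ℕ) : lev N k n ≠ 0 :=
  div_ne_zero (inv_ne_zero (jj_ne_zero hN)) (pow_ne_zero _ jj_qq_ne)

lemma van_lev_mono {N : GaussianInt} {k n n' : ℕ} {ψ : X} (h : n ≤ n')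
    (hψ : Van ψ (lev N k n')) : Van ψ (lev N k n) := by
  induction n', h using Nat.le_induction with
  | base => exact hψ
  | succ m _ ih => exact ih (hψ.of_eq (qq ^ k) (by rw [map_pow, lev_succ]))

lemma LP_level {K : Set X} {N : GaussianInt} (hN : N ≠ 0) {η : ℝ} {l k : ℕ}
    (h : LP K (jj N)⁻¹ ((jj N)⁻¹ / jj qq ^ k) η l) (n : ℕ) :
    LP (S (tau ^ (k * n)) ⁻¹' K) (lev N k n) (lev N k (n + 1)) η l := by
  have hN0 := jj_ne_zero hN
  have hp := jj_pp_ne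
  have hq := jj_qq_ne
  have hn : ‖io (tau ^ (k * n))‖ = 1 := by rw [← zpow_natCast]; exact norm_io_tau_zpow _
  refine (h.rotate hn).change ?_ ?_
  · intro ψ hψ
    refine hψ.of_eq (pp ^ (k * n)) ?_
    simp only [tau, lev, map_pow, div_pow]
    field_simp
  · intro ψ h1 h2
    refine Van.of_coprime (a := pp ^ (k * n)) (b := qq ^ k) coprime_pp_qq.pow ?_ ?_
    · refine h2.of_eq 1 ?_
      simp only [tau, lev, map_pow, div_pow, map_one]
      field_simp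
      ring
    · rw [map_pow, ← lev_succ]; exact h1

lemma real_le_of_disjoint {Ω : Type*} [MeasurableSpace Ω] (μ : Measure Ω) [IsFiniteMeasure μ]
    (H : ℕ) (t : ℕ → Set Ω) (ht : ∀ j, MeasurableSet (t j)) {β : ℝ}
    (hβ : ∀ j, β ≤ μ.real (t j))
    (hd : ∀ j < H, ∀ j' < H, j ≠ j' → μ (t j ∩ t j') = 0) : H * β ≤ μ.real univ := by
  have h1 := sum_measure_le_measure_univ (μ := μ) (s := Finset.range H) (t := t)
    (fun j _ => (ht j).nullMeasurableSet)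
    (fun j hj j' hj' hne => hd j (by simpa using hj) j' (by simpa using hj') hne)
  have h2 := ENNReal.toReal_mono (measure_ne_top _ _) h1
  rw [ENNReal.toReal_sum (fun j _ => measure_ne_top _ _)] at h2
  refine le_trans ?_ h2
  have := Finset.card_nsmul_le_sum (Finset.range H) (fun j => (μ (t j)).toReal) β
    (fun j _ => hβ j)
  simpa using this

lemma no_coset (ν : Measure X) [IsFiniteMeasure ν] (hT : TInv ν) (hY : ν {θ | Ycond θ} = 0)
    {N : GaussianInt} (hN : N ≠ 0) {k : ℕ} (hk : 1 ≤ k) (n0 : ℕ) (x : X) :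
    ν {θ | ∀ n, n0 ≤ n → kap N k n θ = kap N k n x} = 0 := by
  set C := {θ | ∀ n, n0 ≤ n → kap N k n θ = kap N k n x} with hC
  have hCm : MeasurableSet C := by
    rw [hC, ofPred_forall]
    refine MeasurableSet.iInter fun n => ?_
    rw [ofPred_forall]
    exact MeasurableSet.iInter fun _ => measurable_kap N k n (measurableSet_singleton _)
  have hb : ∀ H : ℕ, H * ν.real C ≤ ν.real univ := by
    intro H
    refine real_le_of_disjoint ν H (fun j => S (rot (aa j)) ⁻¹' C)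
      (fun j => measurable_S _ hCm) (fun j => ?_) ?_
    · rw [(hT _ (aa_ne j)).measureReal_preimage hCm.nullMeasurableSet]
    · intro j _ j' _ hne
      refine measure_mono_null ?_ hY
      rintro θ ⟨h1, h2⟩
      refine ⟨mm j j', mm_ne hne, (xi 0 (jj N)⁻¹ (S (rot (aa j)) θ) -
        xi 0 (jj N)⁻¹ (S (rot (aa j')) θ)) / io (rot (aa j) - rot (aa j')), fun e => ?_⟩
      have h3 := kap_eq_iff.1 ((h1 (max n0 e) (le_max_left _ _)).trans
        (h2 (max n0 e) (le_max_left _ _)).symm)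
      have h4 := van_diff (rot_aa_sub_ne hne) h3
      obtain ⟨t, ht⟩ : ∃ t, k * max n0 e = e + t :=
        Nat.exists_eq_add_of_le ((le_max_right n0 e).trans (Nat.le_mul_of_pos_left _ hk))
      refine h4.of_eq (star (aa j) * star (aa j') * N * qq ^ t) ?_
      have hb0 := jj_ne_zero (star_aa_ne j)
      have hb0' := jj_ne_zero (star_aa_ne j')
      have hN0 := jj_ne_zero hN
      have hq := jj_qq_ne
      rw [rot_aa_sub, lev, ht]
      simp only [map_mul, map_pow]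
      field_simp
      ring
  have h0 : ν.real C = 0 := by
    by_contra hne
    have hpos : 0 < ν.real C := lt_of_le_of_ne measureReal_nonneg (Ne.symm hne)
    obtain ⟨H, hH⟩ := exists_nat_gt (ν.real univ / ν.real C)
    rw [div_lt_iff₀ hpos] at hH
    linarith [hb H]
  exact (measureReal_eq_zero_iff (measure_ne_top _ _)).1 h0

lemma norm_io_lev {N : GaussianInt} (hN : N ≠ 0) (k n : ℕ) :
    ‖io (lev N (16 * k) n)‖ ≤ ((5 : ℝ) ^ (8 * k * n))⁻¹ := by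
  have h1 := one_le_norm_coe hN
  have h2 : ‖(qq : ℂ)‖ ^ 2 = 5 := by rw [norm_coe_sq, norm_qq]; norm_num
  rw [lev, map_div₀, map_inv₀, map_pow, io_jj, io_jj, norm_div, norm_inv, norm_pow,
    show 16 * k * n = 2 * (8 * k * n) by ring, pow_mul, h2, div_eq_mul_inv]
  have : ‖(N : ℂ)‖⁻¹ ≤ 1 := inv_le_one_of_one_le₀ h1
  have h3 : (0 : ℝ) ≤ ((5 : ℝ) ^ (8 * k * n))⁻¹ := by positivity
  nlinarith

lemma final_count {l k n : ℕ} (h : 2 * (4 * l) ^ 4 ≤ 5 ^ k) :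
    2 ^ n * (2 ^ (2 * n) * ((2 * l) ^ (2 * n) * ((5 ^ (16 * k)) ^ 2) ^ (2 * n / 128))) ^ 2 ≤
      5 ^ (2 * k * n) := by
  set b := 2 * n / 128 with hb
  have h1 : 64 * b ≤ n := by omega
  have h2 : (((5 ^ (16 * k)) ^ 2) ^ b) ^ 2 ≤ 5 ^ (k * n) := by
    rw [← pow_mul, ← pow_mul, ← pow_mul]
    apply Nat.pow_le_pow_right (by norm_num)
    nlinarith
  have h3 : (2 * (4 * l) ^ 4) ^ n ≤ 5 ^ (k * n) := by
    rw [pow_mul]; exact Nat.pow_le_pow_left h n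
  calc _ = (2 * (4 * l) ^ 4) ^ n * (((5 ^ (16 * k)) ^ 2) ^ b) ^ 2 := by
        have : (4 * l) = 2 * (2 * l) := by ring
        rw [this]
        simp only [mul_pow, ← pow_mul]
        ring
    _ ≤ 5 ^ (k * n) * 5 ^ (k * n) := Nat.mul_le_mul h3 h2
    _ = _ := by ring

open Classical in
lemma branch_bound {K Z Bl : Set X} {N : GaussianInt} (hN : N ≠ 0) {η : ℝ} {l k : ℕ} (hl : 1 ≤ l)
    (hLP : LP K (jj N)⁻¹ ((jj N)⁻¹ / jj qq ^ k) η l)
    (hBd : ∀ x ∈ Bl, ∀ y ∈ Bl, ‖xi 0 (jj N)⁻¹ x - xi 0 (jj N)⁻¹ y‖ ≤ η)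
    (hcount : ∀ θ ∈ Z, ∀ n : ℕ,
        128 * ((Finset.range n).filter (fun i => S (tau ^ (k * i)) θ ∉ K)).card ≤ n)
    (n : ℕ) (s : Finset X) (hs : ∀ x ∈ s, x ∈ Z ∩ Bl) :
    (s.image (kap N k n)).card ≤ (2 * l) ^ n * ((5 ^ k) ^ 2) ^ (n / 128) := by
  have hN0 := jj_ne_zero hN
  refine count_branches Bl (kap N k) (fun i θ => S (tau ^ (k * i)) θ ∉ K) l ((5 ^ k) ^ 2)
    hl (Nat.one_le_pow _ _ (by positivity)) ?_ ?_ ?_ n (n / 128) s (fun x hx => (hs x hx).2) ?_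
  · intro x _ y _
    rw [kap_eq_iff]
    have : lev N k 0 = (jj N)⁻¹ := by simp [lev]
    rw [this]
    exact (van_xi 0 (inv_ne_zero hN0) x).sub (van_xi 0 (inv_ne_zero hN0) y)
  · intro n s _ h
    rcases s.eq_empty_or_nonempty with rfl | ⟨x0, hx0⟩
    · simp
    apply card_torsion_pairs _ (by positivity) _ (kap N k (n + 1) x0)
    intro a ha
    obtain ⟨x, hx, rfl⟩ := Finset.mem_image.1 ha
    have h1 := (kap_eq_iff.1 (h x hx x0 hx0)).mul (pp ^ k)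
    have e : lev N k n * jj (pp ^ k) = 5 ^ k • lev N k (n + 1) := by
      rw [lev_succ, map_pow, mul_assoc, ← mul_pow, mul_comm (jj qq), jj_pq, nsmul_eq_mul]
      push_cast; ring
    rw [e, van_iff, smul_mul_assoc, map_nsmul, map_nsmul] at h1
    exact Prod.ext h1.1 h1.2
  · intro n s hs hg h
    by_contra hlt
    rw [not_le] at hlt
    have hch : ∀ a : T × T, ∃ x, a ∈ s.image (kap N k (n + 1)) →
        x ∈ s ∧ kap N k (n + 1) x = a := by
      intro a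
      by_cases ha : a ∈ s.image (kap N k (n + 1))
      · obtain ⟨x, hx, rfl⟩ := Finset.mem_image.1 ha
        exact ⟨x, fun _ => ⟨hx, rfl⟩⟩
      · exact ⟨0, fun h => absurd h ha⟩
    choose σ hσ using hch
    obtain ⟨a, ha, a', ha', hne, hv⟩ := LP_level hN hLP n _ σ (fun a => xi 0 (jj N)⁻¹ (σ a))
      (fun a ha => not_not.1 (hg _ (hσ a ha).1))
      (fun a ha a' ha' => hBd _ (hs _ (hσ a ha).1) _ (hs _ (hσ a' ha').1))
      (fun a ha a' ha' => kap_eq_iff.1 (h _ (hσ a ha).1 _ (hσ a' ha').1)) hlt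
    apply hne
    rw [← (hσ a ha).2, ← (hσ a' ha').2]
    exact kap_eq_iff.2 hv
  · intro x hx
    rw [Nat.le_div_iff_mul_le (by norm_num), mul_comm]
    exact hcount x (hs x hx).1 n

lemma exists_heavy {Ω Λ : Type*} [MeasurableSpace Ω] [DecidableEq Λ] (ν : Measure Ω)
    [IsFiniteMeasure ν] (Z Bl : Set Ω) (hZB : Z ⊆ Bl) (hZ : ν Z ≠ 0) (κ : ℕ → Ω → Λ) (NN : ℕ → ℕ)
    (hNN : ∀ n, 0 < NN n)
    (hbr : ∀ n, ∀ s : Finset Ω, (∀ x ∈ s, x ∈ Z) → (s.image (κ n)).card ≤ NN n)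
    (hnull : ∀ n0 x, ν {θ | ∀ n, n0 ≤ n → κ n θ = κ n x} = 0) (n0 : ℕ) :
    ∃ x y n, n0 ≤ n ∧ κ n x = κ n y ∧ κ (n + 1) x ≠ κ (n + 1) y ∧
      (∀ r, ν.real Z / 2 / 2 / 2 ^ r / NN r ≤ ν.real (Bl ∩ {θ | κ r θ = κ r x})) ∧
      (∀ r, ν.real Z / 2 / 2 / 2 ^ r / NN r ≤ ν.real (Bl ∩ {θ | κ r θ = κ r y})) := by
  have hNNpos : ∀ n, (0 : ℝ) < NN n := fun n => by exact_mod_cast hNN n
  set ζ0 := ν.real Z with hζ0
  have hζ0p : 0 < ζ0 := ENNReal.toReal_pos hZ (measure_ne_top _ _)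
  let Cl : ℕ → Ω → Set Ω := fun n x => Bl ∩ {θ | κ n θ = κ n x}
  let lam : ℕ → ℝ := fun n => ζ0 / 2 / 2 / 2 ^ n / NN n
  let Lt : ℕ → Set Ω := fun n => {x | x ∈ Z ∧ ν.real (Cl n x) < lam n}
  have hLt : ∀ n, ν.real (Lt n) ≤ ζ0 / 2 / 2 / 2 ^ n := by
    intro n
    obtain ⟨s, hs, hsc, hcov⟩ := exists_cover (Lt n) (κ n) (NN n)
      (fun s hs => hbr n s (fun x hx => (hs x hx).1))
    have hsub : Lt n ⊆ ⋃ x ∈ s, Cl n x := by
      intro y hy
      obtain ⟨x, hx, h⟩ := hcov y hy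
      exact mem_iUnion₂.2 ⟨x, hx, hZB hy.1, h⟩
    refine (measureReal_mono hsub (measure_ne_top _ _)).trans
      ((measureReal_biUnion_finset_le _ _).trans ?_)
    refine (Finset.sum_le_card_nsmul _ _ (lam n) (fun x hx => (hs x hx).2.le)).trans ?_
    have h1 : (s.card : ℝ) ≤ NN n := by exact_mod_cast hsc
    have h2 : 0 ≤ lam n := by have := hNNpos n; positivity
    rw [nsmul_eq_mul]
    calc (s.card : ℝ) * lam n ≤ NN n * lam n := by gcongr
      _ = _ := by have := hNNpos n; simp only [lam]; field_simp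
  have hLtU : ν.real (⋃ n, Lt n) ≤ ζ0 / 2 := by
    have h1 : ν (⋃ n, Lt n) ≤ ENNReal.ofReal (ζ0 / 2) := by
      refine (measure_iUnion_le _).trans ?_
      rw [← tsum_geometric_two' (ζ0 / 2), ENNReal.ofReal_tsum_of_nonneg
        (fun n => by positivity) (summable_geometric_two' _)]
      refine ENNReal.tsum_le_tsum fun n => ?_
      rw [← ENNReal.ofReal_toReal (measure_ne_top ν (Lt n))]
      exact ENNReal.ofReal_le_ofReal (hLt n)
    exact ENNReal.toReal_le_of_le_ofReal (by positivity) h1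
  set Z1 := Z \ ⋃ n, Lt n with hZ1
  have hZ1p : ν Z1 ≠ 0 := by
    intro h0
    have h1 : ζ0 ≤ ν.real Z1 + ν.real (⋃ n, Lt n) := by
      refine le_trans (measureReal_mono ?_) (measureReal_union_le _ _)
      intro θ hθ
      by_cases h : θ ∈ ⋃ n, Lt n
      · exact Or.inr h
      · exact Or.inl ⟨hθ, h⟩
    have h2 : ν.real Z1 = 0 := by simp [Measure.real, h0]
    linarith
  have hheavy : ∀ x ∈ Z1, ∀ n, lam n ≤ ν.real (Cl n x) := by
    intro x hx n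
    by_contra h
    exact hx.2 (mem_iUnion.2 ⟨n, hx.1, not_le.1 h⟩)
  obtain ⟨x, hx, y, hy, n, hn, hxy1, hxy2⟩ : ∃ x ∈ Z1, ∃ y ∈ Z1, ∃ n, n0 ≤ n ∧
      κ n x = κ n y ∧ κ (n + 1) x ≠ κ (n + 1) y := by
    by_contra hcon
    push Not at hcon
    obtain ⟨s, hs, _, hcov⟩ := exists_cover Z1 (κ n0) (NN n0)
      (fun s hs => hbr n0 s (fun x hx => (hs x hx).1))
    apply hZ1p
    refine measure_mono_null (t := ⋃ x ∈ s, {θ | ∀ n, n0 ≤ n → κ n θ = κ n x}) ?_ ?_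
    · intro y hy
      obtain ⟨x, hx, h⟩ := hcov y hy
      refine mem_iUnion₂.2 ⟨x, hx, fun n hn => ?_⟩
      induction n, hn using Nat.le_induction with
      | base => exact h
      | succ n hn ih => exact hcon y hy x (hs x hx) n hn ih
    · exact (measure_biUnion_null_iff s.countable_toSet).2 fun x _ => hnull n0 x
  exact ⟨x, y, n, hn, hxy1, hxy2, hheavy x hx, hheavy y hy⟩

lemma rect_disjoint {Bl : Set X} {N : GaussianInt} (hN : N ≠ 0) {k n H : ℕ} (hk : 1 ≤ k)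
    (hn3 : 3 ≤ n) (hH : H = 5 ^ (2 * k * n))
    (hBd : ∀ x ∈ Bl, ∀ y ∈ Bl, ‖xi 0 (jj N)⁻¹ x - xi 0 (jj N)⁻¹ y‖ ≤ 1 / 4) {x y : X}
    (hxy1 : kap N (16 * k) n x = kap N (16 * k) n y)
    (hxy2 : kap N (16 * k) (n + 1) x ≠ kap N (16 * k) (n + 1) y) {j j' : ℕ} (hj : j < H)
    (hj' : j' < H) (hne : j ≠ j') {θ1 θ2 : X}
    (a1 : S (rot (aa j)) θ1 ∈ Bl) (b1 : S (rot (aa j)) θ2 ∈ Bl)
    (c1 : S (rot (aa j')) θ1 ∈ Bl) (d1 : S (rot (aa j')) θ2 ∈ Bl)
    (a2 : kap N (16 * k) (2 * n) (S (rot (aa j)) θ1) = kap N (16 * k) (2 * n) x)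
    (b2 : kap N (16 * k) (2 * n) (S (rot (aa j)) θ2) = kap N (16 * k) (2 * n) y)
    (c2 : kap N (16 * k) (2 * n) (S (rot (aa j')) θ1) = kap N (16 * k) (2 * n) x)
    (d2 : kap N (16 * k) (2 * n) (S (rot (aa j')) θ2) = kap N (16 * k) (2 * n) y) : False := by
  rw [kap_eq_iff] at a2 b2 c2 d2
  have e : ∀ u : G, S u (θ1 - θ2) - chi (xi 0 (jj N)⁻¹ (S u θ1) - xi 0 (jj N)⁻¹ (S u θ2)) =
      ps N (S u θ1) - ps N (S u θ2) := by
    intro u; rw [S_sub, chi_sub, ps, ps]; abel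
  have v1 : Van (ps N (S (rot (aa j)) θ1) - ps N (S (rot (aa j)) θ2) - (ps N x - ps N y))
      (lev N (16 * k) (2 * n)) := by
    have := a2.sub b2; convert this using 1; abel
  have v2 : Van (ps N (S (rot (aa j')) θ1) - ps N (S (rot (aa j')) θ2) - (ps N x - ps N y))
      (lev N (16 * k) (2 * n)) := by
    have := c2.sub d2; convert this using 1; abel
  have w1 := kap_eq_iff.1 hxy1
  have s1 : (H : ℝ) ^ 3 * ‖io (lev N (16 * k) (n + 1) * jj qq ^ (16 * k))‖ < 1 := by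
    rw [← lev_succ]
    have h1 := norm_io_lev hN k n
    have h2 : (H : ℝ) ^ 3 < 5 ^ (8 * k * n) := by
      rw [hH]; push_cast
      rw [← pow_mul]
      apply pow_lt_pow_right₀ (by norm_num)
      nlinarith
    calc (H : ℝ) ^ 3 * ‖io (lev N (16 * k) n)‖ ≤ (H : ℝ) ^ 3 * (5 ^ (8 * k * n))⁻¹ := by gcongr
      _ < 1 := by rw [← div_eq_mul_inv, div_lt_one (by positivity)]; exact h2
  have s2 : 4 * H ^ 4 ≤ 5 ^ (16 * k * (n - 1)) := by
    rw [hH, ← pow_mul]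
    have h1 : 2 * k * n * 4 + 1 ≤ 16 * k * (n - 1) := by
      obtain ⟨t, rfl⟩ := Nat.exists_eq_add_of_le hn3
      rw [show 3 + t - 1 = 2 + t by omega]
      nlinarith
    have h2 := Nat.pow_le_pow_right (show 0 < 5 by norm_num) h1
    rw [pow_succ] at h2
    omega
  have s3 : Van (S (rot (aa j)) (θ1 - θ2) - chi (xi 0 (jj N)⁻¹ (S (rot (aa j)) θ1) -
      xi 0 (jj N)⁻¹ (S (rot (aa j)) θ2))) (lev N (16 * k) (n + 1) * jj qq ^ (16 * k)) := by
    rw [← lev_succ, e]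
    have := (van_lev_mono (show n ≤ 2 * n by omega) v1).add w1
    convert this using 1; abel
  have e2 : lev N (16 * k) (n + 1) / jj qq ^ (16 * k * (n - 1)) = lev N (16 * k) (2 * n) := by
    unfold lev
    rw [div_div, ← pow_add, ← mul_add, show n + 1 + (n - 1) = 2 * n by omega]
  have hkey := key_disjoint (θ := θ1 - θ2) (lev_ne hN _ _)
    (hBd _ a1 _ b1) (hBd _ c1 _ d1) hj hj' hne s1 s2 s3 (by
      rw [e, e, e2]
      have := v1.sub v2
      convert this using 1; abel)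
  apply hxy2
  rw [e] at hkey
  rw [kap_eq_iff]
  have := hkey.sub (van_lev_mono (show n + 1 ≤ 2 * n by omega) v1)
  convert this using 1; abel

theorem rigid_coprime (ν : Measure X) [IsFiniteMeasure ν] (hT : TInv ν)
    (hY : ν {θ | Ycond θ} = 0) {z : GaussianInt} (hz : IsCoprime z qq) : phi ν (jj z) = 0 := by
  classical
  by_contra hφ
  obtain ⟨K, Z, N, η, l, k, hZ, hN, hη0, hη1, hl, hk, hkl, hLP, hcount⟩ :=
    exists_setup ν hT hz hφ
  obtain ⟨ζ, hζ⟩ : ∃ ζ : ℂ, ν (Z ∩ {θ | ‖xi 0 (jj N)⁻¹ θ - ζ‖ ≤ η / 2}) ≠ 0 := by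
    by_contra hcon
    push Not at hcon
    apply hZ
    refine measure_mono_null ?_ (measure_iUnion_null
      (fun n => hcon (TopologicalSpace.denseSeq ℂ n)))
    intro θ hθ
    obtain ⟨n, hn⟩ := Metric.denseRange_iff.1 (TopologicalSpace.denseRange_denseSeq ℂ)
      (xi 0 (jj N)⁻¹ θ) (η / 2) (by positivity)
    exact mem_iUnion.2 ⟨n, hθ, by rw [mem_ofPred_eq, ← dist_eq_norm]; exact hn.le⟩
  set Bl := {θ | ‖xi 0 (jj N)⁻¹ θ - ζ‖ ≤ η / 2} with hBl
  have hBlm : MeasurableSet Bl :=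
    measurableSet_le ((measurable_xi _ _).sub_const ζ).norm measurable_const
  have hBd : ∀ x ∈ Bl, ∀ y ∈ Bl, ‖xi 0 (jj N)⁻¹ x - xi 0 (jj N)⁻¹ y‖ ≤ η := by
    intro x hx y hy
    have := norm_sub_le_norm_sub_add_norm_sub (xi 0 (jj N)⁻¹ x) ζ (xi 0 (jj N)⁻¹ y)
    have h1 : ‖xi 0 (jj N)⁻¹ x - ζ‖ ≤ η / 2 := hx
    have h2 : ‖xi 0 (jj N)⁻¹ y - ζ‖ ≤ η / 2 := hy
    rw [norm_sub_rev] at h2
    linarith
  obtain ⟨NN, hNN⟩ : ∃ NN : ℕ → ℕ, ∀ n, NN n = (2 * l) ^ n * ((5 ^ (16 * k)) ^ 2) ^ (n / 128) :=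
    ⟨_, fun _ => rfl⟩
  have hNNp : ∀ n, 0 < NN n := by intro n; rw [hNN]; positivity
  have hζ0p : 0 < ν.real (Z ∩ Bl) := ENNReal.toReal_pos hζ (measure_ne_top _ _)
  obtain ⟨n1, hn1⟩ : ∃ n1 : ℕ, 16 * (ν.real univ * ν.real univ) / ν.real (Z ∩ Bl) ^ 2 < 2 ^ n1 :=
    pow_unbounded_of_one_lt _ one_lt_two
  obtain ⟨x, y, n, hn, hxy1, hxy2, hx, hy⟩ := exists_heavy ν (Z ∩ Bl) Bl inter_subset_right hζ
    (kap N (16 * k)) NN hNNp
    (fun n s hs => by rw [hNN]; exact branch_bound hN hl hLP hBd hcount n s hs)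
    (fun n0 x => no_coset ν hT hY hN (by omega) n0 x) (max n1 3)
  have hn3 : 3 ≤ n := (le_max_right _ _).trans hn
  have hnn1 : n1 ≤ n := (le_max_left _ _).trans hn
  obtain ⟨H, hH⟩ : ∃ H : ℕ, H = 5 ^ (2 * k * n) := ⟨_, rfl⟩
  have hClm : ∀ x, MeasurableSet (Bl ∩ {θ | kap N (16 * k) (2 * n) θ = kap N (16 * k) (2 * n) x}) :=
    fun x => hBlm.inter (measurableSet_eq_fun (measurable_kap N (16 * k) (2 * n)) measurable_const)
  have hp : (0 : ℝ) < NN (2 * n) := by exact_mod_cast hNNp (2 * n)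
  have hf' : (2 : ℝ) ^ n * (2 ^ (2 * n) * (NN (2 * n) : ℝ)) ^ 2 ≤ H := by
    have hf := final_count (n := n) hkl
    rw [← hNN (2 * n), ← hH] at hf
    exact_mod_cast hf
  generalize ν.real (Z ∩ Bl) = ζ0 at hx hy hn1 hζ0p
  have hmain := real_le_of_disjoint (ν.prod ν) H
    (fun j => (S (rot (aa j)) ⁻¹'
        (Bl ∩ {θ | kap N (16 * k) (2 * n) θ = kap N (16 * k) (2 * n) x})) ×ˢ
      (S (rot (aa j)) ⁻¹' (Bl ∩ {θ | kap N (16 * k) (2 * n) θ = kap N (16 * k) (2 * n) y})))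
    (fun j => (measurable_S _ (hClm _)).prod (measurable_S _ (hClm _)))
    (β := (ζ0 / 2 / 2 / 2 ^ (2 * n) / NN (2 * n)) ^ 2) ?_ ?_
  · rw [← univ_prod_univ, measureReal_prod_prod] at hmain
    have e : (2 : ℝ) ^ n * (2 ^ (2 * n) * (NN (2 * n) : ℝ)) ^ 2 *
        (ζ0 / 2 / 2 / 2 ^ (2 * n) / NN (2 * n)) ^ 2 = 2 ^ n * ζ0 ^ 2 / 16 := by
      field_simp; ring
    have h1 : (2 : ℝ) ^ n * ζ0 ^ 2 / 16 ≤ ν.real univ * ν.real univ := by
      rw [← e]; refine le_trans ?_ hmain; gcongr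
    have h2 : (2 : ℝ) ^ n1 ≤ 2 ^ n := pow_le_pow_right₀ one_le_two hnn1
    rw [div_lt_iff₀ (by positivity)] at hn1
    have h3 : (2 : ℝ) ^ n1 * ζ0 ^ 2 ≤ 2 ^ n * ζ0 ^ 2 := by gcongr
    linarith
  · intro j
    rw [measureReal_prod_prod, (hT _ (aa_ne j)).measureReal_preimage (hClm _).nullMeasurableSet,
      (hT _ (aa_ne j)).measureReal_preimage (hClm _).nullMeasurableSet, sq]
    exact mul_le_mul (hx _) (hy _) (by positivity) measureReal_nonneg
  · intro j hj j' hj' hne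
    refine measure_mono_null (t := ∅) ?_ measure_empty
    rintro ⟨θ1, θ2⟩ ⟨⟨⟨a1, a2⟩, ⟨b1, b2⟩⟩, ⟨⟨c1, c2⟩, ⟨d1, d2⟩⟩⟩
    exact rect_disjoint hN hk hn3 hH (fun x hx y hy => (hBd x hx y hy).trans hη1) hxy1 hxy2
      hj hj' hne a1 b1 c1 d1 a2 b2 c2 d2

theorem rigid (ν : Measure X) [IsFiniteMeasure ν] (hT : TInv ν)
    (hY : ν {θ | Ycond θ} = 0) {z : GaussianInt} (hz : z ≠ 0) : phi ν (jj z) = 0 := by
  obtain ⟨v, g, rfl, hg, _⟩ := exists_factor_qq hz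
  have h1 := rigid_coprime ν hT hY (coprime_pp_qq.pow_left (m := v).mul_left hg)
  rw [← phi_mul (hT (pp ^ v) (pow_ne_zero _ pp_ne)), ← h1]
  congr 1
  have hq := jj_qq_ne
  simp only [rot, star_pow, star_pp, map_mul, map_pow]
  field_simp

end Pool.Agent.MP_fc94d9_co
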