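import Pool.Agent.MP_fc94d9_co.Disjoint
import Pool.Agent.MP_fc94d9_co.Abstract

set_option autoImplicit false

open MeasureTheory Filter Topology Set

noncomputable section

namespace Pool.Agent.MP_fc94d9_co

lemma S_iterate (u : G) (n : ℕ) (θ : X) : (S u)^[n] θ = S (u ^ n) θ := by
  induction n with
  | zero => simp
  | succ n ih => rw [Function.iterate_succ_apply', ih, S_S, pow_succ]

lemma LP_shift {K : Set X} {N : GaussianInt} (hN : N ≠ 0) {η : ℝ} {l k J : ℕ} {j : ℕ}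
    (hj : j < 2 * J + 1)
    (h : LP K (jj N * jj pp ^ (k + 2 * J))⁻¹
      ((jj N * jj pp ^ (k + 2 * J))⁻¹ / jj qq ^ (k + 2 * J)) η l) :
    LP (S (tau ^ (-(j : ℤ))) ⁻¹' K) (jj (N * pp ^ (k + 4 * J)))⁻¹
      ((jj (N * pp ^ (k + 4 * J)))⁻¹ / jj qq ^ k) η l := by
  have hN0 := jj_ne_zero hN
  have hp := jj_pp_ne
  have hq := jj_qq_ne
  obtain ⟨t, ht⟩ : ∃ t, 2 * J = j + t := ⟨2 * J - j, by omega⟩
  have h4 : 4 * J = 2 * j + 2 * t := by omega
  have htau : tau ^ (-(j : ℤ)) = jj qq ^ j / jj pp ^ j := by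
    rw [zpow_neg, zpow_natCast, tau, div_pow, inv_div]
  refine (h.rotate (norm_io_tau_zpow _)).change ?_ ?_
  · intro ψ hψ
    refine hψ.of_eq (pp ^ t * qq ^ j) ?_
    rw [htau, ht, h4]
    simp only [map_mul, map_pow]
    field_simp
    ring
  · intro ψ h1 h2
    refine Van.of_coprime (a := pp ^ (2 * J)) (b := qq ^ k) coprime_pp_qq.pow ?_ ?_
    · refine h2.of_eq (pp ^ j * qq ^ t) ?_
      rw [htau, ht, h4]
      simp only [map_mul, map_pow]
      field_simp
      ring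
    · rw [map_pow, div_mul_cancel₀ _ (pow_ne_zero _ hq)]
      exact h1

open Classical in
lemma exists_setup (ν : Measure X) [IsFiniteMeasure ν] (hT : TInv ν) {z : GaussianInt}
    (hz : IsCoprime z qq) (hφ : phi ν (jj z) ≠ 0) :
    ∃ (K Z : Set X) (N : GaussianInt) (η : ℝ) (l k : ℕ), ν Z ≠ 0 ∧ N ≠ 0 ∧ 0 < η ∧ η ≤ 1 / 4 ∧
      1 ≤ l ∧ 1 ≤ k ∧ 2 * (4 * l) ^ 4 ≤ 5 ^ k ∧
      LP K (jj N)⁻¹ ((jj N)⁻¹ / jj qq ^ (16 * k)) η l ∧
      ∀ θ ∈ Z, ∀ n : ℕ,
        128 * ((Finset.range n).filter (fun i => S (tau ^ (16 * k * i)) θ ∉ K)).card ≤ n := by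
  obtain ⟨c, hc, hE⟩ := exists_E0 ν hT hz hφ
  have hEm := measurableSet_E0 ν c
  let A : ℕ → Set X := fun J => ⋃ i : ℤ, ⋃ (_ : |i| ≤ J), S (tau ^ i) ⁻¹' E0 ν c
  let E' : Set X := ⋃ i : ℤ, S (tau ^ i) ⁻¹' E0 ν c
  have hAm : ∀ J, MeasurableSet (A J) := fun J =>
    MeasurableSet.iUnion fun i => MeasurableSet.iUnion fun _ => measurable_S _ hEm
  have hE'm : MeasurableSet E' := MeasurableSet.iUnion fun i => measurable_S _ hEm
  have hAmono : Monotone A := by
    intro a b hab θ hθ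
    obtain ⟨i, hi, h⟩ := mem_iUnion₂.1 hθ
    exact mem_iUnion₂.2 ⟨i, hi.trans (by exact_mod_cast hab), h⟩
  have hAU : (⋃ J, A J) = E' := by
    ext θ
    simp only [A, E', mem_iUnion]
    constructor
    · rintro ⟨J, i, _, h⟩; exact ⟨i, h⟩
    · rintro ⟨i, h⟩; exact ⟨i.natAbs, i, by simp, h⟩
  have hAsub : ∀ J, A J ⊆ E' := fun J => hAU ▸ subset_iUnion A J
  have hinv : ∀ i : ℤ, S (tau ^ i) ⁻¹' E' = E' := by
    intro i
    ext θ
    simp only [E', mem_preimage, mem_iUnion, S_S, ← zpow_add₀ tau_ne]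
    constructor
    · rintro ⟨j, h⟩; exact ⟨_, h⟩
    · rintro ⟨j, h⟩; exact ⟨j - i, by rwa [add_sub_cancel]⟩
  set m := ν.real E' with hm
  have hm0 : 0 < m := by
    have : E0 ν c ⊆ E' := fun θ hθ => mem_iUnion.2 ⟨0, by simpa using hθ⟩
    refine ENNReal.toReal_pos (fun h => hE (measure_mono_null this h)) (measure_ne_top _ _)
  have hlim : Tendsto (fun J => ν.real (A J)) atTop (𝓝 m) := by
    have := tendsto_measure_iUnion_atTop (μ := ν) hAmono
    rw [hAU] at this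
    exact (ENNReal.tendsto_toReal (measure_ne_top _ _)).comp this
  obtain ⟨J, hJ⟩ := (hlim.eventually (lt_mem_nhds (show m - m / 512 < m by linarith))).exists
  have hJ' : ν.real (E' \ A J) ≤ m / 512 := by
    rw [measureReal_sdiff (hAsub J) (hAm J)]; linarith
  set l := (2 * J + 1) * ⌈2 / c⌉₊ with hl
  have hl1 : 1 ≤ l := Nat.mul_pos (by omega) (Nat.ceil_pos.2 (by positivity))
  set k := 2 * (4 * l) ^ 4 with hk
  have hk1 : 1 ≤ k := by rw [hk]; exact Nat.mul_pos (by norm_num) (by positivity)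
  obtain ⟨K0, hK0m, hK0b, N, hN, η, hη0, hη1, hLP⟩ := exists_LP ν (16 * k + 2 * J - 1) hc
    (show 0 < m / (512 * (2 * J + 1)) by positivity)
  rw [show 16 * k + 2 * J - 1 + 1 = 16 * k + 2 * J by omega] at hLP
  let K : Set X := ⋃ j ∈ Finset.range (2 * J + 1), S (tau ^ (-(j : ℤ))) ⁻¹' K0
  have hKm : MeasurableSet K := Finset.measurableSet_biUnion _ fun j _ => measurable_S _ hK0m
  have hbad : ν.real (E' \ K) ≤ m / 256 := by
    have hsub : E' \ K ⊆ S (tau ^ (-(J : ℤ))) ⁻¹' (E' \ A J) ∪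
        ⋃ j ∈ Finset.range (2 * J + 1), S (tau ^ (-(j : ℤ))) ⁻¹' (E0 ν c \ K0) := by
      rintro θ ⟨h1, h2⟩
      by_cases hA : S (tau ^ (-(J : ℤ))) θ ∈ A J
      · right
        obtain ⟨i, hi, h⟩ := mem_iUnion₂.1 hA
        rw [mem_preimage, S_S, ← zpow_add₀ tau_ne] at h
        rw [abs_le] at hi
        have e : -(J : ℤ) + i = -(((J - i).toNat : ℕ) : ℤ) := by omega
        rw [e] at h
        have hj : (J - i).toNat ∈ Finset.range (2 * J + 1) := Finset.mem_range.2 (by omega)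
        exact mem_iUnion₂.2 ⟨_, hj, h, fun h' => h2 (mem_iUnion₂.2 ⟨_, hj, h'⟩)⟩
      · left
        refine ⟨?_, hA⟩
        rw [← mem_preimage, hinv]; exact h1
    refine (measureReal_mono hsub).trans ((measureReal_union_le _ _).trans ?_)
    rw [(hT.tau_zpow _).measureReal_preimage (hE'm.diff (hAm J)).nullMeasurableSet]
    have : ν.real (⋃ j ∈ Finset.range (2 * J + 1),
        S (tau ^ (-(j : ℤ))) ⁻¹' (E0 ν c \ K0)) ≤ m / 512 := by
      refine (measureReal_biUnion_finset_le _ _).trans ?_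
      refine (Finset.sum_le_sum (g := fun _ => m / (512 * (2 * J + 1))) fun j _ => ?_).trans
        (le_of_eq ?_)
      · rw [(hT.tau_zpow _).measureReal_preimage (hEm.diff hK0m).nullMeasurableSet]
        exact hK0b
      · simp only [Finset.sum_const, Finset.card_range, nsmul_eq_mul]
        push_cast
        field_simp
    linarith
  have hB : MeasurePreserving (S (tau ^ (16 * k))) ν ν := by
    have := hT.tau_zpow ((16 * k : ℕ) : ℤ)
    rwa [zpow_natCast] at this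
  have hmax := maximal_ineq hB (hE'm.diff hKm) (show (0 : ℝ) < 1 / 128 by norm_num)
  set W := {x | ∃ n : ℕ, (1 / 128 : ℝ) * n <
    ((Finset.range n).filter (fun i => (S (tau ^ (16 * k)))^[i] x ∈ E' \ K)).card} with hW
  have hWb : ν.real W ≤ m / 2 := by
    have h1 : ν.real W ≤ ν.real (E' \ K) / (1 / 128) := by convert hmax
    refine h1.trans ?_
    rw [div_le_iff₀ (by norm_num)]; linarith
  refine ⟨K, E' \ W, N * pp ^ (16 * k + 4 * J), η, l, k, ?_,
    mul_ne_zero (ne_zero_of_coprime hN) (pow_ne_zero _ pp_ne), hη0, hη1, hl1, hk1,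
    (Nat.lt_pow_self (by norm_num)).le, ?_, ?_⟩
  · intro h0
    have h1 : ν.real E' ≤ ν.real (E' \ W) + ν.real W := by
      refine le_trans (measureReal_mono ?_) (measureReal_union_le _ _)
      intro θ hθ
      by_cases h : θ ∈ W
      · exact Or.inr h
      · exact Or.inl ⟨hθ, h⟩
    have h2 : ν.real (E' \ W) = 0 := by simp [Measure.real, h0]
    linarith
  · exact LP.iUnion fun j hj => LP_shift (ne_zero_of_coprime hN) hj hLP
  · rintro θ ⟨h1, h2⟩ n
    have h3 : ¬ ((1 / 128 : ℝ) * n <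
      ((Finset.range n).filter (fun i => (S (tau ^ (16 * k)))^[i] θ ∈ E' \ K)).card) :=
      fun h => h2 ⟨n, h⟩
    have e : (Finset.range n).filter (fun i => (S (tau ^ (16 * k)))^[i] θ ∈ E' \ K) =
        (Finset.range n).filter (fun i => S (tau ^ (16 * k * i)) θ ∉ K) := by
      apply Finset.filter_congr
      intro i _
      rw [S_iterate, ← pow_mul]
      refine ⟨fun h => h.2, fun h => ⟨?_, h⟩⟩
      rw [← zpow_natCast, ← mem_preimage, hinv]; exact h1
    rw [e, not_lt] at h3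
    have : (128 : ℝ) * ((Finset.range n).filter
      (fun i => S (tau ^ (16 * k * i)) θ ∉ K)).card ≤ n := by linarith
    exact_mod_cast this

end Pool.Agent.MP_fc94d9_co
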