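import Pool.Agent.MP_fc94d9_co.Rigid
import Pool.Agent.MP_fc94d9_co.Bessel
import Pool.Agent.MP_fc94d9_co.Atom

set_option autoImplicit false

open MeasureTheory Filter Topology Set
open scoped Nat

noncomputable section

namespace Pool.Agent.MP_fc94d9_co

/-- `m / (2 - i) ^ e`. -/
def gam (m e : ℕ) : G := (m : G) / jj qq ^ e

/-- The frequency of a structured character. -/
def Xi (m : ℕ) (θ : X) : ℂ := limUnder atTop (fun e => xi (-(1 / 2)) (gam m e) θ)

lemma measurable_Xi (m : ℕ) : Measurable (Xi m) :=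
  (StronglyMeasurable.limUnder (fun e => (measurable_xi _ (gam m e)).stronglyMeasurable)).measurable

/-- Characters that are continuous on `m ℤ[i][1/(2-i)]`. -/
def Ym (m : ℕ) : Set X := {θ | ∀ e, Van (θ - chi (Xi m θ)) (gam m e)}

lemma measurable_resid (m : ℕ) (z : G) : Measurable (fun θ : X => (θ - chi (Xi m θ)) z) :=
  (measurable_eval z).sub ((measurable_chi_apply z).comp (measurable_Xi m))

lemma measurableSet_Ym (m : ℕ) : MeasurableSet (Ym m) := by
  rw [Ym, ofPred_forall]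
  exact MeasurableSet.iInter fun e => measurableSet_van (measurable_resid m) _

lemma xi_eq {θ : X} {ξ : ℂ} {γ : G} (hγ : γ ≠ 0) (h : Van (θ - chi ξ) γ)
    (hn : ‖ξ‖ * ‖io γ‖ < 1 / 2) : xi (-(1 / 2)) γ θ = ξ := by
  obtain ⟨h1, h2⟩ := van_iff.1 h
  rw [AddMonoidHom.sub_apply, sub_eq_zero, chi_apply] at h1 h2
  have hb : ‖ξ * io γ‖ < 1 / 2 := by rwa [norm_mul]
  have e2 : (ξ * io (γ * IG)).re = -(ξ * io γ).im := by
    rw [map_mul, io_IG, ← mul_assoc]; simp
  have b1 := abs_lt.1 ((Complex.abs_re_le_norm _).trans_lt hb)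
  have b2 := abs_lt.1 ((Complex.abs_im_le_norm _).trans_lt hb)
  rw [xi, h1, h2, e2, L_coe ⟨by linarith [b1.1], by linarith [b1.2]⟩,
    L_coe ⟨by linarith [b2.2], by linarith [b2.1]⟩, div_eq_iff (io_ne_zero hγ)]
  apply Complex.ext <;> simp

lemma Xi_eq {m : ℕ} (hm : m ≠ 0) {θ : X} {ξ : ℂ} (h : ∀ e, Van (θ - chi ξ) (gam m e)) :
    Xi m θ = ξ := by
  have h2 : ‖(qq : ℂ)‖ ^ 2 = 5 := by rw [norm_coe_sq, norm_qq]; norm_num
  have h3 : 1 < ‖(qq : ℂ)‖ := by nlinarith [norm_nonneg (qq : ℂ)]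
  have hlim : Tendsto (fun e => ‖ξ‖ * ‖io (gam m e)‖) atTop (𝓝 0) := by
    have := (tendsto_pow_atTop_atTop_of_one_lt h3).const_div_atTop (‖ξ‖ * m)
    refine this.congr fun e => ?_
    rw [gam, map_div₀, map_pow, io_jj, norm_div, norm_pow, map_natCast, Complex.norm_natCast]
    ring
  apply Tendsto.limUnder_eq
  refine tendsto_const_nhds.congr' ?_
  filter_upwards [hlim.eventually (gt_mem_nhds (show (0 : ℝ) < 1 / 2 by norm_num))] with e he
  exact (xi_eq (div_ne_zero (by exact_mod_cast hm) (pow_ne_zero _ jj_qq_ne)) (h e) he).symm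

lemma mem_Ym {m : ℕ} (hm : m ≠ 0) {θ : X} {ξ : ℂ} (h : ∀ e, Van (θ - chi ξ) (gam m e)) :
    θ ∈ Ym m := by
  intro e; rw [Xi_eq hm h]; exact h e

lemma Ym_mono : Monotone (fun n : ℕ => Ym n !) := by
  intro a b hab θ hθ
  obtain ⟨c, hc⟩ := Nat.factorial_dvd_factorial hab
  refine mem_Ym (Nat.factorial_ne_zero b) (ξ := Xi a ! θ) fun e => (hθ e).of_eq c ?_
  rw [gam, gam, hc, map_natCast]; push_cast; ring

lemma iUnion_Ym : (⋃ n : ℕ, Ym n !) = {θ | Ycond θ} := by
  ext θ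
  simp only [mem_iUnion, mem_ofPred_eq]
  constructor
  · rintro ⟨n, h⟩
    refine ⟨(n ! : ℕ), by exact_mod_cast Nat.factorial_ne_zero n, Xi n ! θ, fun e => ?_⟩
    rw [map_natCast]; exact h e
  · rintro ⟨m, hm, ξ, h⟩
    have hpos : 0 < m.norm.natAbs := Int.natAbs_pos.2 (GaussianInt.norm_pos.2 hm).ne'
    obtain ⟨c, hc⟩ := Nat.dvd_factorial hpos le_rfl
    refine ⟨m.norm.natAbs, mem_Ym (Nat.factorial_ne_zero _) (ξ := ξ)
      fun e => (h e).of_eq (star m * c) ?_⟩
    have e1 : ((m.norm.natAbs : ℕ) : GaussianInt) = m * star m := by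
      rw [← Zsqrtd.norm_eq_mul_conj, ← Int.cast_natCast,
        Int.natAbs_of_nonneg (GaussianInt.norm_nonneg m)]
    have e2 : ((m.norm.natAbs : ℕ) : G) = jj m * jj (star m) := by
      rw [← map_mul, ← e1, map_natCast]
    rw [gam, hc, Nat.cast_mul, e2, map_mul, map_natCast]; ring

lemma measurableSet_Y : MeasurableSet {θ | Ycond θ} :=
  iUnion_Ym ▸ MeasurableSet.iUnion fun _ => measurableSet_Ym _

lemma Ycond.rot {θ : X} (h : Ycond θ) {a : GaussianInt} (ha : a ≠ 0) : Ycond (S (rot a) θ) := by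
  obtain ⟨m, hm, ξ, h⟩ := h
  have hs : star a ≠ 0 := by simpa using ha
  refine ⟨m * star a, mul_ne_zero hm hs, ξ * io (MP_fc94d9_co.rot a), fun e => ?_⟩
  rw [← S_chi, ← S_sub, van_S]
  refine (h e).of_eq a ?_
  have := jj_ne_zero hs
  rw [MP_fc94d9_co.rot, map_mul]; field_simp

lemma TInv.restrict_compl {ν : Measure X} (hT : TInv ν) : TInv (ν.restrict {θ | Ycond θ}ᶜ) := by
  intro a ha
  have hs : star a ≠ 0 := by simpa using ha
  have e : S (rot a) ⁻¹' {θ | Ycond θ}ᶜ = {θ | Ycond θ}ᶜ := by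
    rw [preimage_compl]
    congr 1
    ext θ
    refine ⟨fun h => ?_, fun h => Ycond.rot h ha⟩
    have := Ycond.rot h hs
    have h1 := jj_ne_zero ha
    have h2 := jj_ne_zero hs
    have e : rot a * rot (star a) = 1 := by rw [rot, rot, star_star]; field_simp
    rwa [S_S, e, S_one] at this
  have := (hT a ha).restrict_preimage measurableSet_Y.compl
  rwa [e] at this

lemma Ym_tau {m : ℕ} (hm : m ≠ 0) {θ : X} (h : θ ∈ Ym m) (n : ℕ) :
    S (tau ^ n) θ ∈ Ym m ∧ Xi m (S (tau ^ n) θ) = Xi m θ * io (tau ^ n) := by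
  have : ∀ e, Van (S (tau ^ n) θ - chi (Xi m θ * io (tau ^ n))) (gam m e) := by
    intro e
    rw [← S_chi, ← S_sub, van_S]
    refine (h (e + n)).of_eq (pp ^ n) ?_
    have := jj_qq_ne
    simp only [tau, gam, map_pow, div_pow]
    field_simp
    ring
  exact ⟨mem_Ym hm this, Xi_eq hm this⟩

lemma exists_period {m : ℕ} (hm : m ≠ 0) : ∃ r s : ℕ, 0 < r ∧ ∃ w : GaussianInt,
    tau ^ r * tau ^ s = tau ^ s + gam m (2 * s + r) * jj w := by
  have : NeZero m := ⟨hm⟩
  obtain ⟨a, b, hab, h⟩ := Finite.exists_ne_map_eq_of_infinite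
    (fun t : ℕ => ((((pp ^ t).re : ℤ) : ZMod m), (((pp ^ t).im : ℤ) : ZMod m)))
  wlog hlt : a < b generalizing a b
  · exact this b a hab.symm h.symm (by omega)
  obtain ⟨r, rfl⟩ := Nat.exists_eq_add_of_le hlt.le
  simp only [Prod.mk.injEq, ZMod.intCast_eq_intCast_iff_dvd_sub] at h
  obtain ⟨⟨c, hc⟩, ⟨d, hd⟩⟩ := h
  have h1 : pp ^ (a + r) = pp ^ a + m * ⟨c, d⟩ := by
    ext <;> simp <;> linarith
  have h2 : qq ^ (a + r) = qq ^ a + m * star ⟨c, d⟩ := by
    have := congrArg star h1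
    simpa [star_pp, mul_comm] using this
  refine ⟨r, a, by omega, qq ^ a * ⟨c, d⟩ - pp ^ a * star ⟨c, d⟩, ?_⟩
  have h1' := congrArg jj h1
  have h2' := congrArg jj h2
  simp only [map_add, map_mul, map_pow, map_natCast, pow_add] at h1' h2'
  have hq := jj_qq_ne
  simp only [tau, gam, div_pow, map_sub, map_mul, map_pow, pow_add, two_mul]
  field_simp
  linear_combination (jj qq ^ a) * h1' - (jj pp ^ a) * h2'

lemma tau_pow_ne_one {n : ℕ} (hn : 0 < n) : io tau ^ n ≠ 1 := by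
  intro h
  have h1 : tau ^ n = 1 := io_inj (by simpa using h)
  rw [tau, div_pow, div_eq_one_iff_eq (pow_ne_zero _ jj_qq_ne), ← map_pow, ← map_pow] at h1
  have h2 := jj_inj h1
  have h3 : IsCoprime (pp ^ n) qq := coprime_pp_qq.pow_left
  rw [h2] at h3
  obtain ⟨k, rfl⟩ := Nat.exists_eq_add_of_lt hn
  rw [pow_succ] at h3
  exact irreducible_qq.not_isUnit (isCoprime_self.1 h3.of_mul_left_right)

lemma restrict_preserving {Ω : Type*} [MeasurableSpace Ω] {ν : Measure Ω} [IsFiniteMeasure ν]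
    {f : Ω → Ω} (hf : MeasurePreserving f ν ν) {A : Set Ω} (hA : MeasurableSet A)
    (h : A ⊆ f ⁻¹' A) : MeasurePreserving f (ν.restrict A) (ν.restrict A) := by
  have h1 : A =ᵐ[ν] f ⁻¹' A := ae_eq_of_subset_of_measure_ge h
    (hf.measure_preimage hA.nullMeasurableSet).le hA.nullMeasurableSet (measure_ne_top _ _)
  have := hf.restrict_preimage hA
  rwa [← Measure.restrict_congr_set h1] at this

lemma integral_comp_eq {μ : Measure X} {f : X → X} (hf : MeasurePreserving f μ μ) {F : X → ℂ}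
    (hF : Measurable F) : ∫ θ, F (f θ) ∂μ = ∫ θ, F θ ∂μ := by
  have := integral_map (μ := μ) hf.measurable.aemeasurable (f := F) hF.aestronglyMeasurable
  rw [hf.map_eq] at this
  exact this.symm

lemma moving_bound (ν : Measure X) [IsFiniteMeasure ν] (hT : TInv ν) {m : ℕ} (hm : m ≠ 0)
    (z : GaussianInt) :
    ‖phi (ν.restrict (Ym m ∩ {θ | Xi m θ ≠ 0})) (jj z)‖ ≤
      ∫ θ in Ym m ∩ {θ | Xi m θ ≠ 0}, ‖BB ((‖Xi m θ‖ * ‖(z : ℂ)‖ : ℝ) : ℂ)‖ ∂ν := by
  set Y1 := Ym m ∩ {θ | Xi m θ ≠ 0} with hY1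
  have hY1m : MeasurableSet Y1 :=
    (measurableSet_Ym m).inter ((measurable_Xi m) (measurableSet_singleton 0)).compl
  set μ := ν.restrict Y1 with hμ
  have hpres : ∀ n : ℕ, MeasurePreserving (S (tau ^ n)) μ μ := by
    intro n
    have := hT.tau_zpow (n : ℤ)
    rw [zpow_natCast] at this
    refine restrict_preserving this hY1m fun θ hθ => ?_
    obtain ⟨h1, h2⟩ := Ym_tau hm hθ.1 n
    refine ⟨h1, ?_⟩
    rw [mem_ofPred_eq, h2]
    exact mul_ne_zero hθ.2 (io_ne_zero (pow_ne_zero _ tau_ne))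
  obtain ⟨r, s, hr, w, hw⟩ := exists_period hm
  set g : X → ℂ := fun θ => E ((θ - chi (Xi m θ)) (tau ^ s * jj z)) with hg
  have hgm : Measurable g := continuous_E.measurable.comp (measurable_resid m _)
  have hg1 : ∀ θ, ‖g θ‖ = 1 := fun θ => norm_E _
  have hFm : ∀ x : ℂ, Measurable (fun θ => g θ * wv (Xi m θ * x)) := fun x =>
    hgm.mul (continuous_wv.measurable.comp ((measurable_Xi m).mul_const x))
  set h : ℂ → ℂ := fun x => ∫ θ, g θ * wv (Xi m θ * x) ∂μ with hh
  have hc : Continuous h := by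
    refine continuous_of_dominated (bound := fun _ => 1) (fun x => (hFm x).aestronglyMeasurable)
      (fun x => Eventually.of_forall fun θ => by simp [hg1]) (integrable_const _)
      (Eventually.of_forall fun θ => continuous_const.mul (continuous_wv.comp (by fun_prop)))
  have hinv : ∀ x, h (io (tau ^ r) * x) = h x := by
    intro x
    simp only [hh]
    rw [← integral_comp_eq (hpres r) (hFm x)]
    apply integral_congr_ae
    filter_upwards [ae_restrict_mem hY1m] with θ hθ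
    obtain ⟨h1, h2⟩ := Ym_tau hm hθ.1 r
    simp only [hg]
    rw [h2, ← S_chi, ← S_sub, S_apply, ← mul_assoc (tau ^ r), hw, add_mul, map_add, mul_assoc,
      mul_assoc, ← map_mul, hθ.1 _ _, add_zero]
  have hrad := radial_of_irrational hc (u := io (tau ^ r))
    (by rw [← zpow_natCast]; exact norm_io_tau_zpow _)
    (fun n hn => by rw [map_pow, ← pow_mul]; exact tau_pow_ne_one (Nat.mul_pos hr hn)) hinv
  set x := io (tau ^ s * jj z) with hx
  have e1 : phi μ (jj z) = h x := by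
    rw [← phi_mul (hpres s)]
    simp only [phi, hh, hg, wv]
    congr 1
    funext θ
    rw [← E_add, hx, ← chi_apply]
    simp
  have e2 : h x = ∫ t : T, h (x * E t) := by
    simp [hrad, Measure.real]
  have e3 : ∫ t : T, h (x * E t) = ∫ θ, g θ * BB (Xi m θ * x) ∂μ := by
    simp only [hh]
    rw [integral_integral_swap]
    · simp only [integral_const_mul, BB, mul_assoc]
    · refine integrable_of_bdd (Measurable.aestronglyMeasurable ?_) 1 ?_
      · refine (hgm.comp measurable_snd).mul (continuous_wv.measurable.comp ?_)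
        exact ((measurable_Xi m).comp measurable_snd).mul
          ((continuous_E.measurable.comp measurable_fst).const_mul x)
      · rintro ⟨t, θ⟩
        simp [hg1]
  rw [e1, e2, e3]
  refine (norm_integral_le_integral_norm _).trans (le_of_eq ?_)
  congr 1
  funext θ
  rw [norm_mul, hg1, one_mul, BB_norm, norm_mul, hx, map_mul, norm_mul, ← zpow_natCast,
    norm_io_tau_zpow, one_mul, io_jj]

lemma moving_tendsto (ν : Measure X) [IsFiniteMeasure ν] (m : ℕ) :
    Tendsto (fun ρ : ℝ => ∫ θ in Ym m ∩ {θ | Xi m θ ≠ 0}, ‖BB ((‖Xi m θ‖ * ρ : ℝ) : ℂ)‖ ∂ν)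
      atTop (𝓝 0) := by
  have hY1m : MeasurableSet (Ym m ∩ {θ | Xi m θ ≠ 0}) :=
    (measurableSet_Ym m).inter ((measurable_Xi m) (measurableSet_singleton 0)).compl
  have := tendsto_integral_filter_of_dominated_convergence (l := atTop)
    (μ := ν.restrict (Ym m ∩ {θ | Xi m θ ≠ 0}))
    (F := fun (ρ : ℝ) θ => ‖BB ((‖Xi m θ‖ * ρ : ℝ) : ℂ)‖) (f := fun _ => (0 : ℝ)) (fun _ => 1)
    (Eventually.of_forall fun ρ => ?_)
    (Eventually.of_forall fun ρ => Eventually.of_forall fun θ => by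
      rw [norm_norm]; exact norm_BB_le _) (integrable_const _) ?_
  · simpa using this
  · refine (continuous_BB.measurable.comp ?_).norm.aestronglyMeasurable
    exact Complex.measurable_ofReal.comp ((measurable_Xi m).norm.mul_const ρ)
  · filter_upwards [ae_restrict_mem hY1m] with θ hθ
    have h1 := (BB_tendsto.comp (tendsto_id.const_mul_atTop (norm_pos_iff.2 hθ.2))).norm
    simpa using h1

theorem re_phi_eventually (ν : Measure X) [IsFiniteMeasure ν] (hU : UInv ν) {γ : ℝ} (hγ : 0 < γ) :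
    ∃ ρ : ℝ, ∀ z : GaussianInt, z ≠ 0 → ρ ≤ ‖(z : ℂ)‖ → -γ < (phi ν (jj z)).re := by
  have hT := hU.tInv
  have hlim : Tendsto (fun n : ℕ => ν.real (Ym n !)) atTop (𝓝 (ν.real {θ | Ycond θ})) := by
    have := tendsto_measure_iUnion_atTop (μ := ν) Ym_mono
    rw [iUnion_Ym] at this
    exact (ENNReal.tendsto_toReal (measure_ne_top _ _)).comp this
  obtain ⟨n, hn⟩ := (hlim.eventually (lt_mem_nhds
    (show ν.real {θ | Ycond θ} - γ / 2 < ν.real {θ | Ycond θ} by linarith))).exists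
  have hsub : Ym n ! ⊆ {θ | Ycond θ} := iUnion_Ym ▸ subset_iUnion (fun n : ℕ => Ym n !) n
  have hm := Nat.factorial_ne_zero n
  generalize n ! = m at hn hsub hm
  have hd : ν.real ({θ | Ycond θ} \ Ym m) < γ / 2 := by
    rw [measureReal_sdiff hsub (measurableSet_Ym m)]; linarith
  obtain ⟨ρ, hρ⟩ := eventually_atTop.1 ((moving_tendsto ν m).eventually
    (gt_mem_nhds (show 0 < γ / 2 by linarith)))
  refine ⟨ρ, fun z hz hzρ => ?_⟩
  have hi := integrable_E_eval ν (jj z)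
  have hX : MeasurableSet {θ | Xi m θ ≠ 0} := ((measurable_Xi m) (measurableSet_singleton 0)).compl
  have d1 := integral_add_compl measurableSet_Y hi
  have d2 := integral_inter_add_sdiff (s := {θ | Ycond θ}) (measurableSet_Ym m) hi.integrableOn
  have d3 := integral_inter_add_sdiff (s := Ym m) hX hi.integrableOn
  rw [inter_eq_right.2 hsub] at d2
  have p1 : ∫ θ in {θ | Ycond θ}ᶜ, E (θ (jj z)) ∂ν = 0 :=
    rigid _ hT.restrict_compl (by rw [Measure.restrict_apply measurableSet_Y]; simp) hz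
  have p2 : ‖∫ θ in {θ | Ycond θ} \ Ym m, E (θ (jj z)) ∂ν‖ < γ / 2 := by
    refine (norm_setIntegral_le_of_norm_le_const (C := 1) (measure_lt_top _ _)
      (fun _ _ => by simp)).trans_lt ?_
    rwa [one_mul]
  have p3 : ‖∫ θ in Ym m ∩ {θ | Xi m θ ≠ 0}, E (θ (jj z)) ∂ν‖ < γ / 2 :=
    (moving_bound ν hT hm z).trans_lt (hρ _ hzρ)
  have p4 : 0 ≤ (∫ θ in Ym m \ {θ | Xi m θ ≠ 0}, E (θ (jj z)) ∂ν).re := by
    have : ∫ θ in Ym m \ {θ | Xi m θ ≠ 0}, E (θ (jj z)) ∂ν =
        ∫ θ in Ym m \ {θ | Xi m θ ≠ 0}, (1 : ℂ) ∂ν := by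
      apply integral_congr_ae
      have h0 : ∀ᵐ θ ∂ν, ¬ (m • θ (jj z) = 0 ∧ θ (jj z) ≠ 0) :=
        measure_eq_zero_iff_ae_notMem.1 (atom_lemma ν hU m (Nat.pos_of_ne_zero hm) (jj z))
      filter_upwards [ae_restrict_mem ((measurableSet_Ym m).diff hX), ae_restrict_of_ae h0]
        with θ h1 h2
      have h3 : Xi m θ = 0 := not_not.1 h1.2
      have h4 := h1.1 0 z
      rw [h3, chi_zero, sub_zero, gam, pow_zero, div_one, ← nsmul_eq_mul, map_nsmul] at h4
      have h5 : θ (jj z) = 0 := by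
        by_contra h; exact h2 ⟨h4, h⟩
      rw [h5, E_zero]
    rw [this]
    simp
  have q2 := (Complex.abs_re_le_norm _).trans_lt p2
  have q3 := (Complex.abs_re_le_norm _).trans_lt p3
  rw [abs_lt] at q2 q3
  rw [phi, ← d1, ← d2, ← d3, p1]
  simp only [Complex.add_re, Complex.zero_re]
  linarith [q2.1, q3.1]

end Pool.Agent.MP_fc94d9_co
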